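import Mathlib

/-!
Net contents and the increasing sets lemma.
-/

set_option maxHeartbeats 1000000

namespace Pool.Agent.V7H80.Sum.Cap

open Set Filter Topology
open scoped ENNReal NNReal

variable {X D : Type*}

/-- total weight of a family -/
noncomputable def W (w : D → ℝ≥0∞) (C : Set D) : ℝ≥0∞ := ∑' I, C.indicator w I

/-- net content -/
noncomputable def Nc (S : D → Set X) (w : D → ℝ≥0∞) (E : Set X) : ℝ≥0∞ :=
  ⨅ (C : Set D) (_ : E ⊆ ⋃ I ∈ C, S I), W w C

lemma Nc_le {S : D → Set X} {w : D → ℝ≥0∞} {E : Set X} {C : Set D}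
    (h : E ⊆ ⋃ I ∈ C, S I) : Nc S w E ≤ W w C :=
  iInf₂_le C h

lemma Nc_mono {S : D → Set X} {w : D → ℝ≥0∞} {E F : Set X} (h : E ⊆ F) :
    Nc S w E ≤ Nc S w F :=
  le_iInf₂ fun _ hC => Nc_le (h.trans hC)

lemma exists_cover {S : D → Set X} {w : D → ℝ≥0∞} {E : Set X} (hfin : Nc S w E ≠ ⊤)
    {ε : ℝ≥0∞} (hε : ε ≠ 0) : ∃ C : Set D, E ⊆ (⋃ I ∈ C, S I) ∧ W w C ≤ Nc S w E + ε := by
  have h : Nc S w E < Nc S w E + ε := ENNReal.lt_add_right hfin hε
  unfold Nc at h
  rw [iInf_lt_iff] at h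
  obtain ⟨C, hC⟩ := h
  rw [iInf_lt_iff] at hC
  obtain ⟨h1, h2⟩ := hC
  exact ⟨C, h1, h2.le⟩

/-- the maximal elements of a family -/
def Mx (S : D → Set X) (U : Set D) : Set D := {I | I ∈ U ∧ ∀ J ∈ U, ¬ S I ⊂ S J}

lemma exists_max {S : D → Set X} (lev : D → ℕ) (hlev : ∀ I J, S I ⊂ S J → lev J < lev I)
    (U : Set D) : ∀ (n : ℕ) (I : D), lev I ≤ n → I ∈ U → ∃ J ∈ Mx S U, S I ⊆ S J := by
  intro n
  induction n with
  | zero =>
    intro I hI hU
    refine ⟨I, ⟨hU, fun J _ hJ => ?_⟩, le_rfl⟩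
    have := hlev I J hJ
    omega
  | succ n ih =>
    intro I hI hU
    by_cases h : ∃ J ∈ U, S I ⊂ S J
    · obtain ⟨J, hJ, hIJ⟩ := h
      obtain ⟨J', h1, h2⟩ := ih J (by have := hlev I J hIJ; omega) hJ
      exact ⟨J', h1, hIJ.1.trans h2⟩
    · exact ⟨I, ⟨hU, fun J hJ hIJ => h ⟨J, hJ, hIJ⟩⟩, le_rfl⟩

/-- the recursive families -/
def Fam (S : D → Set X) (C : ℕ → Set D) : ℕ → Set D
  | 0 => C 0
  | n + 1 => Mx S (Fam S C n ∪ C (n + 1))

theorem increasing {S : D → Set X} {w : D → ℝ≥0∞} (hinj : Function.Injective S)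
    (hnest : ∀ I J x, x ∈ S I → x ∈ S J → S I ⊆ S J ∨ S J ⊆ S I)
    (lev : D → ℕ) (hlev : ∀ I J, S I ⊂ S J → lev J < lev I)
    {E : ℕ → Set X} (hE : Monotone E) (hfin : Nc S w (⋃ n, E n) ≠ ⊤) :
    Nc S w (⋃ n, E n) ≤ ⨆ n, Nc S w (E n) := by
  have hfinn : ∀ n, Nc S w (E n) ≠ ⊤ := fun n =>
    ne_top_of_le_ne_top hfin (Nc_mono (subset_iUnion E n))
  have hsupfin : (⨆ n, Nc S w (E n)) ≠ ⊤ :=
    ne_top_of_le_ne_top hfin (iSup_le fun n => Nc_mono (subset_iUnion E n))
  refine ENNReal.le_of_forall_pos_le_add fun ε hε _ => ?_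
  obtain ⟨ε', hε'0, hε'⟩ := ENNReal.exists_pos_sum_of_countable
    (show (ε : ℝ≥0∞) ≠ 0 by simpa using hε.ne') ℕ
  have hC : ∀ n, ∃ C : Set D, E n ⊆ (⋃ I ∈ C, S I) ∧ W w C ≤ Nc S w (E n) + ε' n :=
    fun n => exists_cover (hfinn n) (by simpa using (hε'0 n).ne')
  choose C hC1 hC2 using hC
  set F := Fam S C with hF
  have hFsucc : ∀ n, F (n + 1) = Mx S (F n ∪ C (n + 1)) := fun n => rfl
  have hup : ∀ n, ∀ I ∈ F n ∪ C (n + 1), ∃ J ∈ F (n + 1), S I ⊆ S J := fun n I hI =>
    exists_max lev hlev _ (lev I) I le_rfl hI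
  -- cover
  have hcov : ∀ n, E n ⊆ ⋃ I ∈ F n, S I := by
    intro n
    induction n with
    | zero => exact hC1 0
    | succ n ih =>
      intro x hx
      obtain ⟨J, hJ, hxJ⟩ := mem_iUnion₂.mp (hC1 (n + 1) hx)
      obtain ⟨J', hJ', hJJ'⟩ := hup n J (Or.inr hJ)
      exact mem_iUnion₂.mpr ⟨J', hJ', hJJ' hxJ⟩
  -- the strong subadditivity
  have hstep : ∀ n, W w (F (n + 1)) + Nc S w (E n) ≤ W w (F n) + W w (C (n + 1)) := by
    intro n
    set G : Set D := {I | (I ∈ F n ∧ ∃ J ∈ C (n + 1), S I ⊂ S J) ∨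
      (I ∈ C (n + 1) ∧ ∃ J ∈ F n, S I ⊆ S J)} with hG
    have hGcov : E n ⊆ ⋃ I ∈ G, S I := by
      intro x hx
      obtain ⟨I, hI, hxI⟩ := mem_iUnion₂.mp (hcov n hx)
      obtain ⟨J, hJ, hxJ⟩ := mem_iUnion₂.mp (hC1 (n + 1) (hE (Nat.le_succ n) hx))
      by_cases h : S J ⊆ S I
      · exact mem_iUnion₂.mpr ⟨J, Or.inr ⟨hJ, I, hI, h⟩, hxJ⟩
      · rcases hnest I J x hxI hxJ with h1 | h1
        · exact mem_iUnion₂.mpr ⟨I, Or.inl ⟨hI, J, hJ, h1, h⟩, hxI⟩
        · exact absurd h1 h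
    refine (add_le_add le_rfl (Nc_le hGcov)).trans ?_
    unfold W
    rw [← ENNReal.tsum_add, ← ENNReal.tsum_add]
    refine ENNReal.tsum_le_tsum fun I => ?_
    rw [hFsucc]
    by_cases hIF : I ∈ F n
    · by_cases hIC : I ∈ C (n + 1)
      · rw [indicator_of_mem hIF, indicator_of_mem hIC]
        exact add_le_add (indicator_le_self' (fun _ _ => zero_le) I)
          (indicator_le_self' (fun _ _ => zero_le) I)
      · rw [indicator_of_mem hIF, indicator_of_notMem hIC, add_zero]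
        by_cases hIG : I ∈ G
        · have : I ∉ Mx S (F n ∪ C (n + 1)) := by
            intro hM
            rcases hIG with ⟨-, J, hJ, hIJ⟩ | ⟨h, -⟩
            · exact hM.2 J (Or.inr hJ) hIJ
            · exact hIC h
          rw [indicator_of_notMem this, zero_add, indicator_of_mem hIG]
        · rw [indicator_of_notMem hIG, add_zero]
          exact indicator_le_self' (fun _ _ => zero_le) I
    · by_cases hIC : I ∈ C (n + 1)
      · rw [indicator_of_notMem hIF, indicator_of_mem hIC, zero_add]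
        by_cases hIG : I ∈ G
        · have : I ∉ Mx S (F n ∪ C (n + 1)) := by
            intro hM
            rcases hIG with ⟨h, -⟩ | ⟨-, J, hJ, hIJ⟩
            · exact hIF h
            · have h1 : S I = S J := by
                by_contra hne
                exact hM.2 J (Or.inl hJ) (ssubset_of_subset_of_ne hIJ hne)
              rw [hinj h1] at hIF
              exact hIF hJ
          rw [indicator_of_notMem this, zero_add, indicator_of_mem hIG]
        · rw [indicator_of_notMem hIG, add_zero]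
          exact indicator_le_self' (fun _ _ => zero_le) I
      · have h1 : I ∉ Mx S (F n ∪ C (n + 1)) := by
          rintro ⟨h | h, -⟩
          · exact hIF h
          · exact hIC h
        have h2 : I ∉ G := by
          rintro (⟨h, -⟩ | ⟨h, -⟩)
          · exact hIF h
          · exact hIC h
        rw [indicator_of_notMem h1, indicator_of_notMem h2, zero_add]
        exact zero_le
  -- invariant
  have hinv : ∀ n, W w (F n) ≤ Nc S w (E n) + ∑ i ∈ Finset.range (n + 1), (ε' i : ℝ≥0∞) := by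
    intro n
    induction n with
    | zero => simpa [hF, Fam] using hC2 0
    | succ n ih =>
      have h1 : W w (F (n + 1)) + Nc S w (E n) ≤
          (Nc S w (E (n + 1)) + ∑ i ∈ Finset.range (n + 1 + 1), (ε' i : ℝ≥0∞)) + Nc S w (E n) := by
        refine (hstep n).trans ((add_le_add ih (hC2 (n + 1))).trans (le_of_eq ?_))
        rw [Finset.sum_range_succ _ (n + 1)]
        ring
      exact (ENNReal.add_le_add_iff_right (hfinn n)).mp h1
  have hbd : ∀ n, W w (F n) ≤ (⨆ n, Nc S w (E n)) + ε := by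
    intro n
    refine (hinv n).trans (add_le_add (le_iSup (fun n => Nc S w (E n)) n) ?_)
    exact (ENNReal.sum_le_tsum _).trans hε'.le
  -- the limit family
  set U : Set D := ⋃ n, F n with hU
  have hcovU : (⋃ n, E n) ⊆ ⋃ I ∈ Mx S U, S I := by
    intro x hx
    obtain ⟨n, hn⟩ := mem_iUnion.mp hx
    obtain ⟨I, hI, hxI⟩ := mem_iUnion₂.mp (hcov n hn)
    obtain ⟨J, hJ, hIJ⟩ := exists_max lev hlev U (lev I) I le_rfl (mem_iUnion.mpr ⟨n, hI⟩)
    exact mem_iUnion₂.mpr ⟨J, hJ, hIJ hxI⟩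
  have hstay : ∀ I ∈ Mx S U, ∀ n, I ∈ F n → I ∈ F (n + 1) := by
    intro I hI n hIn
    rw [hFsucc]
    refine ⟨Or.inl hIn, fun J hJ hIJ => ?_⟩
    obtain ⟨J', hJ', hJJ'⟩ := hup n J hJ
    exact hI.2 J' (mem_iUnion.mpr ⟨n + 1, hJ'⟩) (hIJ.trans_subset hJJ')
  have hev : ∀ I ∈ Mx S U, ∃ n, ∀ k, n ≤ k → I ∈ F k := by
    intro I hI
    obtain ⟨n, hn⟩ := mem_iUnion.mp hI.1
    refine ⟨n, fun k hk => ?_⟩
    induction k, hk using Nat.le_induction with
    | base => exact hn
    | succ k _ ih => exact hstay I hI k ih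
  have hWU : W w (Mx S U) ≤ (⨆ n, Nc S w (E n)) + ε := by
    unfold W
    rw [ENNReal.tsum_eq_iSup_sum]
    refine iSup_le fun T => ?_
    have : ∃ n, ∀ I ∈ T, I ∈ Mx S U → I ∈ F n := by
      classical
      induction T using Finset.induction_on with
      | empty => exact ⟨0, by simp⟩
      | insert a T _ ih =>
        obtain ⟨n, hn⟩ : ∃ n, ∀ k, n ≤ k → ∀ I ∈ T, I ∈ Mx S U → I ∈ F k := by
          obtain ⟨n, hn⟩ := ih
          refine ⟨n, fun k hk I hI hIU => ?_⟩
          induction k, hk using Nat.le_induction with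
          | base => exact hn I hI hIU
          | succ k _ ih => exact hstay I hIU k ih
        by_cases ha : a ∈ Mx S U
        · obtain ⟨n', hn'⟩ := hev a ha
          refine ⟨max n n', fun I hI hIU => ?_⟩
          rcases Finset.mem_insert.mp hI with h | h
          · rw [h]; exact hn' _ (le_max_right _ _)
          · exact hn _ (le_max_left _ _) I h hIU
        · refine ⟨n, fun I hI hIU => ?_⟩
          rcases Finset.mem_insert.mp hI with h | h
          · rw [h] at hIU; exact absurd hIU ha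
          · exact hn n le_rfl I h hIU
    obtain ⟨n, hn⟩ := this
    calc ∑ I ∈ T, (Mx S U).indicator w I ≤ ∑ I ∈ T, (F n).indicator w I := by
          refine Finset.sum_le_sum fun I hI => ?_
          by_cases hIU : I ∈ Mx S U
          · rw [indicator_of_mem hIU, indicator_of_mem (hn I hI hIU)]
          · rw [indicator_of_notMem hIU]; exact zero_le
      _ ≤ W w (F n) := ENNReal.sum_le_tsum _
      _ ≤ _ := hbd n
  exact (Nc_le hcovU).trans hWU

end Pool.Agent.V7H80.Sum.Cap
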