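import Pool.Agent.V7H80.Sum.A1
import Pool.Agent.R280.HC.Stm

/-!
Dyadic intervals and the dyadic net content.
-/

set_option maxHeartbeats 1000000

namespace Pool.Agent.V7H80.Sum.Cap

open Set Filter Topology Metric
open scoped ENNReal NNReal

/-- dyadic intervals -/
def Dy (I : ℕ × ℤ) : Set ℝ := {x | (I.2 : ℝ) ≤ x * 2 ^ I.1 ∧ x * 2 ^ I.1 < I.2 + 1}

/-- weights -/
noncomputable def wt (s : ℝ) (I : ℕ × ℤ) : ℝ≥0∞ := ENNReal.ofReal ((1 / 2 : ℝ) ^ I.1) ^ s

lemma Dy_nonempty (I : ℕ × ℤ) : (I.2 : ℝ) / 2 ^ I.1 ∈ Dy I := by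
  have : (0 : ℝ) < 2 ^ I.1 := by positivity
  constructor
  · rw [div_mul_cancel₀ _ this.ne']
  · rw [div_mul_cancel₀ _ this.ne']; linarith

lemma Dy_sub {I J : ℕ × ℤ} {x : ℝ} (hI : x ∈ Dy I) (hJ : x ∈ Dy J) (h : I.1 ≤ J.1) :
    Dy J ⊆ Dy I := by
  obtain ⟨n, k⟩ := I
  obtain ⟨n', k'⟩ := J
  simp only [Dy, mem_ofPred_eq] at hI hJ ⊢
  obtain ⟨d, rfl⟩ := Nat.exists_eq_add_of_le h
  have hd : (0 : ℝ) < 2 ^ d := by positivity
  have e : ∀ y : ℝ, y * 2 ^ (n + d) = y * 2 ^ n * 2 ^ d := fun y => by rw [pow_add]; ring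
  simp only [e] at hJ ⊢
  have h1 : (k : ℤ) * 2 ^ d ≤ k' := by
    have h2 : ((k * 2 ^ d : ℤ) : ℝ) < ((k' + 1 : ℤ) : ℝ) := by
      push_cast
      calc (k : ℝ) * 2 ^ d ≤ x * 2 ^ n * 2 ^ d := mul_le_mul_of_nonneg_right hI.1 hd.le
        _ < k' + 1 := hJ.2
    have h3 := Int.cast_lt.mp h2
    omega
  have h2 : k' + 1 ≤ (k + 1 : ℤ) * 2 ^ d := by
    have h2 : ((k' : ℤ) : ℝ) < (((k + 1) * 2 ^ d : ℤ) : ℝ) := by
      push_cast
      calc (k' : ℝ) ≤ x * 2 ^ n * 2 ^ d := hJ.1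
        _ < (k + 1) * 2 ^ d := mul_lt_mul_of_pos_right hI.2 hd
    have h3 := Int.cast_lt.mp h2
    omega
  have h1' : (k : ℝ) * 2 ^ d ≤ k' := by exact_mod_cast h1
  have h2' : (k' : ℝ) + 1 ≤ (k + 1) * 2 ^ d := by exact_mod_cast h2
  rintro y ⟨hy1, hy2⟩
  constructor
  · exact le_of_mul_le_mul_right (h1'.trans hy1) hd
  · exact lt_of_mul_lt_mul_right (hy2.trans_le h2') hd.le

lemma Dy_nest (I J : ℕ × ℤ) (x : ℝ) (hI : x ∈ Dy I) (hJ : x ∈ Dy J) :
    Dy I ⊆ Dy J ∨ Dy J ⊆ Dy I := by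
  rcases le_total I.1 J.1 with h | h
  · exact Or.inr (Dy_sub hI hJ h)
  · exact Or.inl (Dy_sub hJ hI h)

lemma Dy_lev (I J : ℕ × ℤ) (h : Dy I ⊂ Dy J) : J.1 < I.1 := by
  by_contra hcon
  push Not at hcon
  have hx := Dy_nonempty I
  exact h.2 (Dy_sub hx (h.1 hx) hcon)

lemma Dy_inj : Function.Injective Dy := by
  -- the level and the position are determined by the set
  have key : ∀ I J : ℕ × ℤ, Dy I = Dy J → I.1 ≤ J.1 → I = J := by
    intro I J h hle
    obtain ⟨n, k⟩ := I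
    obtain ⟨n', k'⟩ := J
    simp only at hle
    obtain ⟨d, rfl⟩ := Nat.exists_eq_add_of_le hle
    have hn : (0 : ℝ) < 2 ^ n := by positivity
    have hd : (0 : ℝ) < 2 ^ d := by positivity
    have h1 := Dy_nonempty (n, k)
    have h2 := Dy_nonempty (n + d, k')
    -- left end points agree
    rw [h] at h1
    rw [← h] at h2
    simp only [Dy, mem_ofPred_eq] at h1 h2
    have e1 : (k : ℝ) / 2 ^ n * 2 ^ (n + d) = k * 2 ^ d := by rw [pow_add]; field_simp
    have e2 : (k' : ℝ) / 2 ^ (n + d) * 2 ^ n = k' / 2 ^ d := by rw [pow_add]; field_simp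
    rw [e1] at h1
    rw [e2] at h2
    have h3 : (k' : ℝ) = k * 2 ^ d := by
      apply le_antisymm h1.1
      have := h2.1
      rwa [le_div_iff₀ hd] at this
    -- the sets have the same length
    have h4 : ((k : ℝ) + 1 - 1 / 2 ^ d) / 2 ^ n ∉ Dy (n, k) ∨ d = 0 := by
      by_cases hd0 : d = 0
      · exact Or.inr hd0
      · left
        rw [h]
        simp only [Dy, mem_ofPred_eq, not_and, not_lt]
        intro _
        have e3 : ((k : ℝ) + 1 - 1 / 2 ^ d) / 2 ^ n * 2 ^ (n + d) = (k + 1) * 2 ^ d - 1 := by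
          rw [pow_add]; field_simp
        rw [e3, h3]
        have : (2 : ℝ) ≤ 2 ^ d := by
          calc (2 : ℝ) = 2 ^ 1 := (pow_one 2).symm
            _ ≤ 2 ^ d := pow_le_pow_right₀ (by norm_num) (Nat.one_le_iff_ne_zero.mpr hd0)
        linarith
    rcases h4 with h4 | h4
    · exfalso
      apply h4
      simp only [Dy, mem_ofPred_eq]
      rw [div_mul_cancel₀ _ hn.ne']
      have h5 : (1 : ℝ) / 2 ^ d ≤ 1 := by
        rw [div_le_one hd]; exact one_le_pow₀ (by norm_num)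
      have h6 : (0 : ℝ) < 1 / 2 ^ d := by positivity
      constructor <;> linarith
    · subst h4
      simp only [pow_zero, mul_one] at h3
      simp only [add_zero, Prod.mk.injEq, true_and]
      exact_mod_cast h3.symm
  intro I J h
  rcases le_total I.1 J.1 with h1 | h1
  · exact key I J h h1
  · exact (key J I h.symm h1).symm

lemma Dy_diam {s : ℝ} (hs : 0 < s) (I : ℕ × ℤ) : ediam (Dy I) ^ s ≤ wt s I := by
  unfold wt
  apply ENNReal.rpow_le_rpow _ hs.le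
  have hn : (0 : ℝ) < 2 ^ I.1 := by positivity
  refine ediam_le fun x hx y hy => ?_
  rw [edist_dist]
  apply ENNReal.ofReal_le_ofReal
  rw [Real.dist_eq, one_div, inv_pow, ← one_div, le_div_iff₀ hn]
  simp only [Dy, mem_ofPred_eq] at hx hy
  have e : |x - y| * 2 ^ I.1 = |x * 2 ^ I.1 - y * 2 ^ I.1| := by
    rw [← sub_mul, abs_mul, abs_of_pos hn]
  rw [e, abs_le]
  constructor <;> linarith

open Pool.Agent.R280.HC in
lemma cont_le_Nc {s : ℝ} (hs : 0 < s) (E : Set ℝ) : cont s E ≤ Nc Dy (wt s) E := by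
  unfold Nc
  refine le_iInf₂ fun C hC => ?_
  let e : ℕ ≃ ℕ × ℤ := (Denumerable.eqv (ℕ × ℤ)).symm
  classical
  set U : ℕ → Set ℝ := fun n => if e n ∈ C then Dy (e n) else ∅ with hU
  have hcov : E ⊆ ⋃ n, U n := by
    intro x hx
    obtain ⟨I, hI, hxI⟩ := mem_iUnion₂.mp (hC hx)
    refine mem_iUnion.mpr ⟨e.symm I, ?_⟩
    simp only [hU, Equiv.apply_symm_apply, hI, if_true]
    exact hxI
  refine (iInf₂_le U hcov).trans ?_
  unfold W
  rw [← e.tsum_eq]
  refine ENNReal.tsum_le_tsum fun n => ?_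
  by_cases h : e n ∈ C
  · simp only [hU, h, if_true, indicator_of_mem]
    exact Dy_diam hs _
  · simp only [hU, h, if_false, ediam_empty]
    rw [ENNReal.zero_rpow_of_pos hs]
    exact zero_le

lemma Nc_unit (s : ℝ) (k : ℤ) : Nc Dy (wt s) (Ico (k : ℝ) (k + 1)) ≤ 1 := by
  refine (Nc_le (C := {(0, k)}) ?_).trans ?_
  · intro x hx
    simp only [mem_singleton_iff, iUnion_iUnion_eq_left]
    simp only [Dy, mem_ofPred_eq, pow_zero, mul_one]
    exact hx
  · unfold W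
    rw [tsum_eq_single (0, k)]
    · rw [indicator_of_mem (mem_singleton _)]
      simp [wt]
    · intro b hb
      rw [indicator_of_notMem]
      simpa using hb

lemma W_iUnion_le {D : Type*} (w : D → ℝ≥0∞) (C : ℕ → Set D) :
    W w (⋃ n, C n) ≤ ∑' n, W w (C n) := by
  unfold W
  rw [ENNReal.tsum_comm]
  refine ENNReal.tsum_le_tsum fun I => ?_
  by_cases h : I ∈ ⋃ n, C n
  · obtain ⟨n, hn⟩ := mem_iUnion.mp h
    rw [indicator_of_mem h]
    calc w I = (C n).indicator w I := (indicator_of_mem hn _).symm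
      _ ≤ _ := ENNReal.le_tsum n
  · rw [indicator_of_notMem h]
    exact zero_le

lemma W_finset_le {D : Type*} [DecidableEq D] (w : D → ℝ≥0∞) (T : Finset D) :
    W w (T : Set D) = ∑ I ∈ T, w I := by
  unfold W
  rw [tsum_eq_sum (s := T)]
  · exact Finset.sum_congr rfl fun I hI => indicator_of_mem (by exact_mod_cast hI) _
  · intro I hI
    exact indicator_of_notMem (by exact_mod_cast hI) _

lemma ball_cover {s : ℝ} (hs0 : 0 < s) (hs1 : s ≤ 1) {r : ℝ} (hr0 : 0 < r) (hr1 : r ≤ 1) (x : ℝ) :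
    ∃ C : Set (ℕ × ℤ), ball x r ⊆ (⋃ I ∈ C, Dy I) ∧ W (wt s) C ≤ 6 * ENNReal.ofReal r ^ s := by
  obtain ⟨n, hn1, hn2⟩ := exists_nat_pow_near_of_lt_one hr0 hr1 (by norm_num : (0:ℝ) < 1/2)
    (by norm_num : (1/2 : ℝ) < 1)
  have h2n : (0 : ℝ) < 2 ^ n := by positivity
  have hn2' : r * 2 ^ n ≤ 1 := by
    have := mul_le_mul_of_nonneg_right hn2 h2n.le
    rwa [← mul_pow, show (1/2 : ℝ) * 2 = 1 by norm_num, one_pow] at this
  set k : ℤ := ⌊x * 2 ^ n⌋ with hk
  have hk1 := Int.floor_le (x * 2 ^ n)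
  have hk2 := Int.lt_floor_add_one (x * 2 ^ n)
  rw [← hk] at hk1 hk2
  refine ⟨((({(n, k - 1), (n, k), (n, k + 1)} : Finset (ℕ × ℤ))) : Set (ℕ × ℤ)), ?_, ?_⟩
  · intro y hy
    rw [mem_ball, Real.dist_eq, abs_lt] at hy
    have h1 : y * 2 ^ n < x * 2 ^ n + 1 := by
      have : (y - x) * 2 ^ n < r * 2 ^ n := mul_lt_mul_of_pos_right hy.2 h2n
      linarith [sub_mul y x (2 ^ n)]
    have h2 : x * 2 ^ n - 1 < y * 2 ^ n := by
      have : -r * 2 ^ n < (y - x) * 2 ^ n := mul_lt_mul_of_pos_right hy.1 h2n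
      linarith [sub_mul y x (2 ^ n), neg_mul r (2 ^ n)]
    rcases lt_or_ge (y * 2 ^ n) k with h3 | h3
    · refine mem_iUnion₂.mpr ⟨(n, k - 1), by simp, ?_⟩
      simp only [Dy, mem_ofPred_eq]
      push_cast
      constructor <;> linarith
    · rcases lt_or_ge (y * 2 ^ n) (k + 1) with h4 | h4
      · refine mem_iUnion₂.mpr ⟨(n, k), by simp, ?_⟩
        simp only [Dy, mem_ofPred_eq]
        constructor <;> linarith
      · refine mem_iUnion₂.mpr ⟨(n, k + 1), by simp, ?_⟩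
        simp only [Dy, mem_ofPred_eq]
        push_cast
        constructor <;> linarith
  · rw [W_finset_le]
    have h1 : ∀ j : ℤ, wt s (n, j) ≤ 2 * ENNReal.ofReal r ^ s := by
      intro j
      unfold wt
      have h2 : ENNReal.ofReal ((1 / 2 : ℝ) ^ n) ≤ 2 * ENNReal.ofReal r := by
        have : (2 : ℝ≥0∞) = ENNReal.ofReal 2 := by simp
        rw [this, ← ENNReal.ofReal_mul (by norm_num)]
        apply ENNReal.ofReal_le_ofReal
        rw [pow_succ] at hn1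
        linarith
      calc ENNReal.ofReal ((1 / 2 : ℝ) ^ n) ^ s ≤ (2 * ENNReal.ofReal r) ^ s :=
            ENNReal.rpow_le_rpow h2 hs0.le
        _ = 2 ^ s * ENNReal.ofReal r ^ s := ENNReal.mul_rpow_of_nonneg _ _ hs0.le
        _ ≤ 2 * ENNReal.ofReal r ^ s := by
            refine mul_le_mul_left ?_ _
            calc (2 : ℝ≥0∞) ^ s ≤ 2 ^ (1 : ℝ) :=
                  ENNReal.rpow_le_rpow_of_exponent_le (by norm_num) hs1
              _ = 2 := ENNReal.rpow_one _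
    calc ∑ I ∈ ({(n, k - 1), (n, k), (n, k + 1)} : Finset (ℕ × ℤ)), wt s I
        ≤ wt s (n, k - 1) + (wt s (n, k) + wt s (n, k + 1)) := by
          rw [Finset.sum_insert (by simp; omega), Finset.sum_insert (by simp), Finset.sum_singleton]
      _ ≤ 2 * ENNReal.ofReal r ^ s + (2 * ENNReal.ofReal r ^ s + 2 * ENNReal.ofReal r ^ s) :=
          add_le_add (h1 _) (add_le_add (h1 _) (h1 _))
      _ = 6 * ENNReal.ofReal r ^ s := by ring

end Pool.Agent.V7H80.Sum.Cap
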