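import Mathlib

/-!
Capacitability of analytic sets.
-/

set_option maxHeartbeats 1000000

namespace Pool.Agent.V7H80.Sum.Cap

open Set Filter Topology
open scoped ENNReal NNReal

theorem capacitable {Y : Type*} [TopologicalSpace Y] (N : Set Y → ℝ≥0∞)
    (hmono : ∀ E F : Set Y, E ⊆ F → N E ≤ N F) (f : (ℕ → ℕ) → Y) (hf : Continuous f)
    (hinc : ∀ E : ℕ → Set Y, Monotone E → (⋃ n, E n) ⊆ range f →
      N (⋃ n, E n) ≤ ⨆ n, N (E n)) (η : ℝ≥0∞) (hη : η < N (range f)) :
    ∃ K : Set Y, IsCompact K ∧ K ⊆ range f ∧ ∀ V, IsOpen V → K ⊆ V → η < N V := by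
  classical
  -- one step
  have hstep : ∀ (m : ℕ) (T : Set (ℕ → ℕ)), η < N (f '' T) →
      ∃ j : ℕ, η < N (f '' (T ∩ {g | g m ≤ j})) := by
    intro m T hT
    have h1 : (⋃ j : ℕ, f '' (T ∩ {g | g m ≤ j})) = f '' T := by
      rw [← image_iUnion, ← inter_iUnion]
      congr 1
      apply inter_eq_left.mpr
      intro g _
      exact mem_iUnion.mpr ⟨g m, (le_refl (g m) : g m ≤ g m)⟩
    have h2 : Monotone fun j : ℕ => f '' (T ∩ {g | g m ≤ j}) := by
      intro a b hab
      apply image_mono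
      apply inter_subset_inter_right
      intro g hg
      exact le_trans hg hab
    have h3 := hinc _ h2 (by rw [h1]; exact image_subset_range f T)
    rw [h1] at h3
    exact lt_iSup_iff.mp (hT.trans_le h3)
  let Sub := {T : Set (ℕ → ℕ) // η < N (f '' T)}
  let jj : ℕ → Sub → ℕ := fun m T => (hstep m T.1 T.2).choose
  have hjj : ∀ m (T : Sub), η < N (f '' (T.1 ∩ {g | g m ≤ jj m T})) := fun m T =>
    (hstep m T.1 T.2).choose_spec
  let seq : ℕ → Sub := fun m => Nat.rec ⟨univ, by rwa [image_univ]⟩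
    (fun m T => ⟨T.1 ∩ {g | g m ≤ jj m T}, hjj m T⟩) m
  have hseq0 : (seq 0).1 = univ := rfl
  have hseqs : ∀ m, (seq (m + 1)).1 = (seq m).1 ∩ {g | g m ≤ jj m (seq m)} := fun m => rfl
  set b : ℕ → ℕ := fun m => jj m (seq m) with hb
  have hseq : ∀ m, (seq m).1 = {g | ∀ i < m, g i ≤ b i} := by
    intro m
    induction m with
    | zero => rw [hseq0]; ext g; simp
    | succ m ih =>
      rw [hseqs, ih]
      ext g
      simp only [mem_inter_iff, mem_ofPred_eq]
      constructor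
      · rintro ⟨h1, h2⟩ i hi
        rcases Nat.lt_succ_iff_lt_or_eq.mp hi with h | h
        · exact h1 i h
        · rw [h]; exact h2
      · intro h
        exact ⟨fun i hi => h i (Nat.lt_succ_of_lt hi), h m (Nat.lt_succ_self m)⟩
  set T : Set (ℕ → ℕ) := {g | ∀ i, g i ≤ b i} with hT
  have hTc : IsCompact T := by
    have : T = Set.pi univ (fun i => Iic (b i)) := by
      ext g
      simp only [hT, Set.mem_pi, mem_univ, true_imp_iff, mem_Iic, mem_ofPred_eq]
    rw [this]
    exact isCompact_univ_pi fun i => (Set.finite_Iic _).isCompact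
  refine ⟨f '' T, hTc.image hf, image_subset_range f T, fun V hV hKV => ?_⟩
  have hO : IsOpen (f ⁻¹' V) := hV.preimage hf
  have hTO : T ⊆ f ⁻¹' V := fun g hg => hKV (mem_image_of_mem f hg)
  -- cylinders
  have hcyl : ∀ g ∈ T, ∃ n : ℕ, {h : ℕ → ℕ | ∀ i < n, h i = g i} ⊆ f ⁻¹' V := by
    intro g hg
    obtain ⟨I, u, hu1, hu2⟩ := isOpen_pi_iff.mp hO g (hTO hg)
    refine ⟨I.sup id + 1, fun h hh => hu2 ?_⟩
    intro a ha
    have : h a = g a := hh a (Nat.lt_succ_of_le (Finset.le_sup (f := id) ha))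
    rw [this]
    exact (hu1 a ha).2
  choose! nn hnn using hcyl
  have hnhds : ∀ g ∈ T, {h : ℕ → ℕ | ∀ i < nn g, h i = g i} ∈ 𝓝 g := by
    intro g _
    have h1 : {h : ℕ → ℕ | ∀ i < nn g, h i = g i} =
        Set.pi (Finset.range (nn g) : Set ℕ) (fun i => ({g i} : Set ℕ)) := by
      ext h; simp [Set.mem_pi]
    rw [h1]
    exact (isOpen_set_pi (Finset.finite_toSet _) fun i _ => isOpen_discrete _).mem_nhds
      (fun i _ => rfl)
  obtain ⟨t, htT, ht⟩ := hTc.elim_nhds_subcover _ hnhds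
  set n : ℕ := t.sup nn with hn
  have hsub : f '' (seq n).1 ⊆ V := by
    rintro _ ⟨h, hh, rfl⟩
    rw [hseq] at hh
    have h' : (fun i => min (h i) (b i)) ∈ T := fun i => min_le_right _ _
    obtain ⟨g, hg, hg2⟩ := mem_iUnion₂.mp (ht h')
    apply hnn g (htT g hg)
    intro i hi
    have h1 : i < n := lt_of_lt_of_le hi (Finset.le_sup hg)
    have h2 : min (h i) (b i) = g i := hg2 i hi
    rw [min_eq_left (hh i h1)] at h2
    exact h2
  exact (seq n).2.trans_le (hmono _ _ hsub)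

end Pool.Agent.V7H80.Sum.Cap
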