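import Pool.Agent.V7H80.Sum.A2
import Pool.Agent.V7H80.Sum.A3
import Pool.Agent.R280.HC.FL
import Pool.Agent.R280.HC.C0H
import Pool.Agent.R280.HC.C0
import Pool.Agent.R280.HC.SA
import Pool.Agent.R280.HC.SB
import Pool.Agent.R280.HC.WL

/-!
The Frostman lemma for Borel sets of reals.
-/

set_option maxHeartbeats 1000000

namespace Pool.Agent.V7H80.Sum.Cap

open Set Filter Topology Metric MeasureTheory
open scoped ENNReal NNReal

open Pool.Agent.R280.HC

/-- If every open superset has large net content then the content is positive. -/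
lemma cont_pos_of_open {s : ℝ} (hs0 : 0 < s) (hs1 : s ≤ 1) {K : Set ℝ} {η : ℝ≥0∞} (hη0 : 0 < η)
    (hη : ∀ V, IsOpen V → K ⊆ V → η < Nc Dy (wt s) V) : cont s K ≠ 0 := by
  intro h0
  set δ : ℝ≥0∞ := min (η / 12) (1 / 16) with hδ
  have hδ0 : δ ≠ 0 := by
    rw [hδ]
    have h1 : 0 < η / 12 := ENNReal.div_pos hη0.ne' (by norm_num)
    have h2 : (0 : ℝ≥0∞) < 1 / 16 := by simp
    exact (lt_min h1 h2).ne'
  have hc : cont s K < δ := by rw [h0]; exact pos_iff_ne_zero.mpr hδ0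
  unfold cont at hc
  rw [iInf_lt_iff] at hc
  obtain ⟨U, hU⟩ := hc
  rw [iInf_lt_iff] at hU
  obtain ⟨hU1, hU2⟩ := hU
  obtain ⟨ε, hε0, hε⟩ := ENNReal.exists_pos_sum_of_countable hδ0 ℕ
  have hδ16 : δ ≤ 1 / 16 := min_le_right _ _
  have hdiam : ∀ n, ediam (U n) ≤ 1 / 16 := by
    intro n
    have h1 : ediam (U n) ^ s ≤ 1 / 16 := (ENNReal.le_tsum n).trans (hU2.le.trans hδ16)
    have h2 : (1 / 16 : ℝ≥0∞) ≤ (1 / 16 : ℝ≥0∞) ^ s := by
      calc (1 / 16 : ℝ≥0∞) = (1 / 16 : ℝ≥0∞) ^ (1 : ℝ) := (ENNReal.rpow_one _).symm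
        _ ≤ (1 / 16 : ℝ≥0∞) ^ s :=
            ENNReal.rpow_le_rpow_of_exponent_ge (by simp) hs1
    exact (ENNReal.rpow_le_rpow_iff hs0).mp (h1.trans h2)
  have hdfin : ∀ n, ediam (U n) ≠ ⊤ := fun n => ne_top_of_le_ne_top (by simp) (hdiam n)
  have hdreal : ∀ n, (ediam (U n)).toReal ≤ 1 / 16 := by
    intro n
    have := ENNReal.toReal_mono (by simp : (1 / 16 : ℝ≥0∞) ≠ ⊤) (hdiam n)
    simpa using this
  have hεreal : ∀ n, (ε n : ℝ) ≤ 1 / 16 := by
    intro n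
    have h1 : (ε n : ℝ≥0∞) ≤ 1 / 16 := (ENNReal.le_tsum n).trans (hε.le.trans hδ16)
    have := ENNReal.toReal_mono (by simp : (1 / 16 : ℝ≥0∞) ≠ ⊤) h1
    simpa using this
  set r : ℕ → ℝ := fun n => (ε n : ℝ) ^ (1 / s) with hr
  have hεpos : ∀ n, (0 : ℝ) < ε n := fun n => by exact_mod_cast hε0 n
  have hrpos : ∀ n, 0 < r n := fun n => Real.rpow_pos_of_pos (hεpos n) _
  have hrle : ∀ n, r n ≤ 1 / 16 := by
    intro n
    have h1 : (ε n : ℝ) ^ (1 / s) ≤ (ε n : ℝ) ^ (1 : ℝ) := by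
      apply Real.rpow_le_rpow_of_exponent_ge (hεpos n) (by linarith [hεreal n])
      rw [le_div_iff₀ hs0]; linarith
    rw [Real.rpow_one] at h1
    exact h1.trans (hεreal n)
  have hC : ∀ n, ∃ (V : Set ℝ) (C : Set (ℕ × ℤ)), IsOpen V ∧ U n ⊆ V ∧ V ⊆ (⋃ I ∈ C, Dy I) ∧
      W (wt s) C ≤ 6 * (ediam (U n) ^ s + ε n) := by
    intro n
    rcases (U n).eq_empty_or_nonempty with h | ⟨x, hx⟩
    · refine ⟨∅, ∅, isOpen_empty, by rw [h], by simp, ?_⟩
      unfold W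
      simp
    · obtain ⟨C, hC1, hC2⟩ := ball_cover hs0 hs1 (r := (ediam (U n)).toReal + r n)
        (add_pos_of_nonneg_of_pos ENNReal.toReal_nonneg (hrpos n))
        (by linarith [hdreal n, hrle n]) x
      refine ⟨_, C, isOpen_ball, ?_, hC1, hC2.trans ?_⟩
      · intro y hy
        rw [mem_ball]
        have h1 : edist y x ≤ ediam (U n) := edist_le_ediam_of_mem hy hx
        have h2 : dist y x ≤ (ediam (U n)).toReal := by
          rw [dist_edist]
          exact ENNReal.toReal_mono (hdfin n) h1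
        linarith [hrpos n]
      · refine mul_le_mul_right ?_ _
        rw [ENNReal.ofReal_add ENNReal.toReal_nonneg (hrpos n).le]
        refine (ENNReal.rpow_add_le_add_rpow _ _ hs0.le hs1).trans ?_
        rw [ENNReal.ofReal_toReal (hdfin n)]
        refine add_le_add le_rfl ?_
        rw [ENNReal.ofReal_rpow_of_pos (hrpos n)]
        have : r n ^ s = ε n := by
          rw [hr, ← Real.rpow_mul (hεpos n).le, one_div_mul_cancel hs0.ne', Real.rpow_one]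
        rw [this, ENNReal.ofReal_coe_nnreal]
  choose V C hV1 hV2 hV3 hV4 using hC
  have h1 := hη (⋃ n, V n) (isOpen_iUnion hV1) (hU1.trans (iUnion_mono hV2))
  have h2 : Nc Dy (wt s) (⋃ n, V n) ≤ W (wt s) (⋃ n, C n) := by
    refine Nc_le ?_
    intro x hx
    obtain ⟨n, hn⟩ := mem_iUnion.mp hx
    obtain ⟨I, hI, hxI⟩ := mem_iUnion₂.mp (hV3 n hn)
    exact mem_iUnion₂.mpr ⟨I, mem_iUnion.mpr ⟨n, hI⟩, hxI⟩
  have h3 : W (wt s) (⋃ n, C n) ≤ 12 * δ := by
    refine (W_iUnion_le _ _).trans ((ENNReal.tsum_le_tsum hV4).trans ?_)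
    rw [ENNReal.tsum_mul_left, ENNReal.tsum_add]
    calc 6 * (∑' n, ediam (U n) ^ s + ∑' n, (ε n : ℝ≥0∞)) ≤ 6 * (δ + δ) :=
          mul_le_mul_right (add_le_add hU2.le hε.le) _
      _ = 12 * δ := by ring
  have h4 : 12 * δ ≤ η := by
    calc 12 * δ ≤ 12 * (η / 12) := mul_le_mul_right (min_le_left _ _) _
      _ = η := ENNReal.mul_div_cancel (by norm_num) (by norm_num)
  exact absurd (h1.trans_le (h2.trans (h3.trans h4))) (lt_irrefl _)

theorem frostman_borel {A : Set ℝ} (hA : MeasurableSet A) {s : ℝ} (hs0 : 0 < s) (hs1 : s ≤ 1)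
    (hdim : ENNReal.ofReal s < dimH A) :
    ∃ (k : ℤ) (K : Set ℝ) (μ : Measure ℝ) (C : ℝ), IsCompact K ∧ K ⊆ A ∧
      K ⊆ Icc (k : ℝ) (k + 1) ∧ IsProbabilityMeasure μ ∧
      μ Kᶜ = 0 ∧ 0 < C ∧ ∀ z r, 0 < r → μ (closedBall z r) ≤ ENNReal.ofReal (C * r ^ s) := by
  have hun : A = ⋃ k : ℤ, A ∩ Ico (k : ℝ) (k + 1) := by
    rw [← inter_iUnion]
    have : (⋃ k : ℤ, Ico (k : ℝ) (k + 1)) = univ := by
      ext x
      simp only [mem_iUnion, mem_Ico, mem_univ, iff_true]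
      exact ⟨⌊x⌋, Int.floor_le x, Int.lt_floor_add_one x⟩
    rw [this, inter_univ]
  rw [hun, dimH_iUnion] at hdim
  obtain ⟨k, hk⟩ := lt_iSup_iff.mp hdim
  set E : Set ℝ := A ∩ Ico (k : ℝ) (k + 1) with hE
  have hEm : MeasurableSet E := hA.inter measurableSet_Ico
  have hcont : 0 < cont s E := C0H.main ℝ s hs0 E hk
  have hN0 : 0 < Nc Dy (wt s) E := hcont.trans_le (cont_le_Nc hs0 E)
  have hN1 : Nc Dy (wt s) E ≤ 1 := (Nc_mono inter_subset_right).trans (Nc_unit s k)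
  have hNfin : Nc Dy (wt s) E ≠ ⊤ := ne_top_of_le_ne_top ENNReal.one_ne_top hN1
  have hEan := hEm.analyticSet
  rw [AnalyticSet] at hEan
  have hEne : E ≠ ∅ := by
    intro h
    rw [h] at hN0
    have : Nc Dy (wt s) ∅ ≤ 0 := by
      refine (Nc_le (C := ∅) (by simp)).trans ?_
      unfold W
      simp
    exact absurd (hN0.trans_le this) (lt_irrefl _)
  obtain ⟨f, hf, hfE⟩ := hEan.resolve_left hEne
  have hη : Nc Dy (wt s) E / 2 < Nc Dy (wt s) (range f) := by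
    rw [hfE]; exact ENNReal.half_lt_self hN0.ne' hNfin
  obtain ⟨K, hK1, hK2, hK3⟩ := capacitable (Nc Dy (wt s)) (fun _ _ h => Nc_mono h) f hf
    (fun F hF hFr => increasing Dy_inj Dy_nest Prod.fst Dy_lev hF
      (ne_top_of_le_ne_top hNfin (Nc_mono (by rw [← hfE]; exact hFr)))) _ hη
  rw [hfE] at hK2
  have hKc := cont_pos_of_open hs0 hs1 (ENNReal.half_pos hN0.ne') hK3
  -- apply the Frostman lemma for compact sets
  set κ : ℝ := (min (cont s K) 1).toReal with hκ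
  have hmin0 : min (cont s K) 1 ≠ 0 := by
    rcases min_choice (cont s K) 1 with h | h
    · rw [h]; exact hKc
    · rw [h]; exact one_ne_zero
  have hminfin : min (cont s K) 1 ≠ ⊤ := ne_top_of_le_ne_top ENNReal.one_ne_top (min_le_right _ _)
  have hκ0 : 0 < κ := ENNReal.toReal_pos hmin0 hminfin
  have hκ1 : ENNReal.ofReal κ ≤ cont s K := by
    rw [hκ, ENNReal.ofReal_toReal hminfin]; exact min_le_left _ _
  obtain ⟨μ, hμ1, hμ2, hμ3⟩ := FL.main C0.main WL.main SA.main SB.main ℝ K hK1 s hs0 κ hκ0 hκ1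
  refine ⟨k, K, μ, 2 * 120 ^ s / κ, hK1, hK2.trans inter_subset_left,
    hK2.trans (inter_subset_right.trans Ico_subset_Icc_self), hμ1, hμ2, by positivity, ?_⟩
  intro z r hr
  exact hμ3 z r hr

end Pool.Agent.V7H80.Sum.Cap
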