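import Mathlib

/-!
The Fejer kernel on the real line.
-/

set_option maxHeartbeats 1000000

namespace Pool.Agent.V7H80.Sum

open MeasureTheory Set Filter Topology
open scoped ENNReal NNReal

/-- the character -/
noncomputable def ex (x : ℝ) : ℂ := Complex.exp (x * Complex.I)

lemma ex_add (x y : ℝ) : ex (x + y) = ex x * ex y := by
  unfold ex; rw [← Complex.exp_add]; push_cast; ring_nf

lemma norm_ex (x : ℝ) : ‖ex x‖ = 1 := Complex.norm_exp_ofReal_mul_I x

lemma ex_zero : ex 0 = 1 := by unfold ex; simp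

lemma ex_conj (x : ℝ) : (starRingEnd ℂ) (ex x) = ex (-x) := by
  unfold ex
  rw [← Complex.exp_conj]
  simp

lemma continuous_ex : Continuous ex := by
  unfold ex; fun_prop

lemma ex_re (x : ℝ) : (ex x).re = Real.cos x := by
  unfold ex; rw [Complex.exp_ofReal_mul_I_re]

/-- the triangle function -/
noncomputable def tri (L ξ : ℝ) : ℝ := max 0 (1 - |ξ| / L)

lemma tri_nonneg (L ξ : ℝ) : 0 ≤ tri L ξ := le_max_left _ _

lemma tri_le_one {L : ℝ} (hL : 0 < L) (ξ : ℝ) : tri L ξ ≤ 1 := by
  unfold tri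
  apply max_le zero_le_one
  have : 0 ≤ |ξ| / L := by positivity
  linarith

lemma continuous_tri (L : ℝ) : Continuous (tri L) := by
  unfold tri; fun_prop

lemma tri_eq_zero {L : ℝ} (hL : 0 < L) {ξ : ℝ} (h : L ≤ |ξ|) : tri L ξ = 0 := by
  unfold tri
  apply max_eq_left
  have : 1 ≤ |ξ| / L := by rwa [le_div_iff₀ hL, one_mul]
  linarith

lemma tri_compact {L : ℝ} (hL : 0 < L) : HasCompactSupport (tri L) := by
  apply HasCompactSupport.intro (isCompact_Icc (a := -L) (b := L))
  intro x hx
  apply tri_eq_zero hL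
  by_contra hcon
  push Not at hcon
  rw [abs_lt] at hcon
  exact hx ⟨hcon.1.le, hcon.2.le⟩

lemma tri_neg (L ξ : ℝ) : tri L (-ξ) = tri L ξ := by unfold tri; rw [abs_neg]

/-- the Fejer kernel -/
noncomputable def phi (L u : ℝ) : ℝ := ∫ ξ, tri L ξ * Real.cos (u * ξ)

lemma phi_half {L : ℝ} (hL : 0 < L) (u : ℝ) :
    phi L u = 2 * ∫ x in (0:ℝ)..L, (1 - x / L) * Real.cos (u * x) := by
  unfold phi
  have h1 : ∀ ξ : ℝ, tri L ξ * Real.cos (u * ξ) =
      (fun x => max 0 (1 - x / L) * Real.cos (u * x)) |ξ| := by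
    intro ξ
    simp only [tri]
    rcases abs_cases ξ with h | h
    · rw [h.1]
    · rw [h.1]; rw [mul_neg, Real.cos_neg]
  simp only [h1]
  rw [integral_comp_abs (f := fun x => max 0 (1 - x / L) * Real.cos (u * x))]
  congr 1
  rw [intervalIntegral.integral_of_le hL.le]
  rw [setIntegral_eq_of_subset_of_forall_sdiff_eq_zero measurableSet_Ioi
    (Ioc_subset_Ioi_self : Ioc (0:ℝ) L ⊆ Ioi 0)]
  · refine setIntegral_congr_fun measurableSet_Ioc fun x hx => ?_
    have : 0 ≤ 1 - x / L := by
      have : x / L ≤ 1 := by rw [div_le_one hL]; exact hx.2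
      linarith
    rw [max_eq_right this]
  · intro x hx
    have h2 : L < x := by
      by_contra hcon
      exact hx.2 ⟨hx.1, not_lt.mp hcon⟩
    have : 1 - x / L ≤ 0 := by
      have : 1 ≤ x / L := by rw [le_div_iff₀ hL]; linarith
      linarith
    rw [max_eq_left this, zero_mul]

lemma phi_eq {L : ℝ} (hL : 0 < L) {u : ℝ} (hu : u ≠ 0) :
    phi L u = 2 * (1 - Real.cos (L * u)) / (L * u ^ 2) := by
  rw [phi_half hL]
  have hd : ∀ x ∈ uIcc (0:ℝ) L, HasDerivAt
      (fun x => (1 - x / L) * (Real.sin (u * x) / u) - Real.cos (u * x) / (L * u ^ 2))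
      ((1 - x / L) * Real.cos (u * x)) x := by
    intro x _
    have h1 : HasDerivAt (fun x : ℝ => 1 - x / L) (-(1 / L)) x := by
      have := ((hasDerivAt_id x).div_const L).const_sub 1
      simpa using this
    have h0 : HasDerivAt (fun x : ℝ => u * x) u x := by
      simpa using (hasDerivAt_id x).const_mul u
    have h2 : HasDerivAt (fun x : ℝ => Real.sin (u * x) / u) (Real.cos (u * x) * u / u) x :=
      (h0.sin).div_const u
    have h3 : HasDerivAt (fun x : ℝ => Real.cos (u * x) / (L * u ^ 2))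
        (-Real.sin (u * x) * u / (L * u ^ 2)) x := (h0.cos).div_const _
    have h4 := (h1.mul h2).sub h3
    refine h4.congr_deriv ?_
    field_simp
    ring
  have hint : IntervalIntegrable (fun x => (1 - x / L) * Real.cos (u * x)) volume 0 L := by
    apply Continuous.intervalIntegrable
    fun_prop
  rw [intervalIntegral.integral_eq_sub_of_hasDerivAt hd hint]
  simp only [mul_zero, Real.sin_zero, Real.cos_zero, zero_div, sub_zero]
  rw [div_self hL.ne', mul_comm u L]
  field_simp
  ring

lemma phi_zero {L : ℝ} (hL : 0 < L) : phi L 0 = L := by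
  rw [phi_half hL]
  have hd : ∀ x ∈ uIcc (0:ℝ) L, HasDerivAt (fun x => x - x ^ 2 / (2 * L))
      ((1 - x / L) * Real.cos (0 * x)) x := by
    intro x _
    have h1 : HasDerivAt (fun x : ℝ => x ^ 2 / (2 * L)) ((2 * x) / (2 * L)) x := by
      have := (hasDerivAt_pow 2 x).div_const (2 * L)
      simpa using this
    have h2 := (hasDerivAt_id x).sub h1
    refine h2.congr_deriv ?_
    rw [zero_mul, Real.cos_zero]
    field_simp
  have hint : IntervalIntegrable (fun x => (1 - x / L) * Real.cos (0 * x)) volume 0 L := by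
    apply Continuous.intervalIntegrable
    fun_prop
  rw [intervalIntegral.integral_eq_sub_of_hasDerivAt hd hint]
  field_simp
  ring

lemma phi_nonneg {L : ℝ} (hL : 0 < L) (u : ℝ) : 0 ≤ phi L u := by
  by_cases hu : u = 0
  · rw [hu, phi_zero hL]; exact hL.le
  · rw [phi_eq hL hu]
    have := Real.cos_le_one (L * u)
    apply div_nonneg
    · linarith
    · positivity

lemma phi_le_L {L : ℝ} (hL : 0 < L) (u : ℝ) : phi L u ≤ L := by
  by_cases hu : u = 0
  · rw [hu, phi_zero hL]
  · rw [phi_eq hL hu, div_le_iff₀ (by positivity)]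
    have := Real.one_sub_sq_div_two_le_cos (x := L * u)
    nlinarith

lemma phi_mul_sq_le {L : ℝ} (hL : 0 < L) (u : ℝ) : phi L u * (L * u ^ 2) ≤ 4 := by
  by_cases hu : u = 0
  · rw [hu]; norm_num
  · rw [phi_eq hL hu, div_mul_cancel₀ _ (by positivity)]
    have := Real.neg_one_le_cos (L * u)
    linarith

lemma phi_ge {L : ℝ} (hL : 0 < L) {u : ℝ} (hu : |u| ≤ 1 / L) : L / 2 ≤ phi L u := by
  by_cases hu0 : u = 0
  · rw [hu0, phi_zero hL]; linarith
  · rw [phi_eq hL hu0, le_div_iff₀ (by positivity)]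
    have h1 : |L * u| ≤ 1 := by
      rw [abs_mul, abs_of_pos hL]
      calc L * |u| ≤ L * (1 / L) := mul_le_mul_of_nonneg_left hu hL.le
        _ = 1 := by field_simp
    have h2 := Real.cos_bound h1
    rw [abs_le] at h2
    have h3 : |L * u| ^ 4 ≤ (L * u) ^ 2 := by
      have e : |L * u| ^ 4 = (L * u) ^ 2 * |L * u| ^ 2 := by
        rw [← sq_abs (L * u)]; ring
      rw [e]
      have : |L * u| ^ 2 ≤ 1 := pow_le_one₀ (abs_nonneg _) h1
      nlinarith [sq_nonneg (L * u)]
    have h4 : 0 ≤ (L * u) ^ 2 := sq_nonneg _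
    nlinarith [h2.2]

lemma phi_complex (L : ℝ) (hL : 0 < L) (u : ℝ) :
    ∫ ξ, (tri L ξ : ℂ) * ex (ξ * u) = (phi L u : ℂ) := by
  have hint : Integrable (fun ξ => (tri L ξ : ℂ) * ex (ξ * u)) := by
    apply Continuous.integrable_of_hasCompactSupport
    · have := continuous_tri L
      have := continuous_ex
      fun_prop
    · apply HasCompactSupport.mul_right
      exact (tri_compact hL).comp_left (g := fun x : ℝ => (x : ℂ)) Complex.ofReal_zero
  apply Complex.ext
  · rw [show (∫ ξ, (tri L ξ : ℂ) * ex (ξ * u)).re = RCLike.re (∫ ξ, (tri L ξ : ℂ) * ex (ξ * u)) from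
      rfl, ← integral_re hint]
    unfold phi
    rw [Complex.ofReal_re]
    refine integral_congr_ae (Eventually.of_forall fun ξ => ?_)
    simp only [Complex.re_ofReal_mul, ex_re, RCLike.re_eq_complex_re]
    rw [mul_comm ξ u]
  · rw [Complex.ofReal_im]
    set I : ℂ := ∫ ξ, (tri L ξ : ℂ) * ex (ξ * u) with hI
    have h1 : (starRingEnd ℂ) I = I := by
      rw [hI, ← integral_conj]
      rw [← integral_neg_eq_self (fun ξ => (tri L ξ : ℂ) * ex (ξ * u))]
      refine integral_congr_ae (Eventually.of_forall fun ξ => ?_)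
      simp only [map_mul, Complex.conj_ofReal, ex_conj, tri_neg]
      rw [neg_mul]
    exact Complex.conj_eq_iff_im.mp h1

lemma continuous_phi {L : ℝ} (hL : 0 < L) : Continuous (phi L) := by
  unfold phi
  apply continuous_of_dominated (bound := fun ξ => tri L ξ)
  · intro u
    have := continuous_tri L
    exact (by fun_prop : Continuous fun ξ => tri L ξ * Real.cos (u * ξ)).aestronglyMeasurable
  · intro u
    refine Eventually.of_forall fun ξ => ?_
    rw [norm_mul, Real.norm_of_nonneg (tri_nonneg L ξ)]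
    have := Real.abs_cos_le_one (u * ξ)
    rw [Real.norm_eq_abs]
    calc tri L ξ * |Real.cos (u * ξ)| ≤ tri L ξ * 1 :=
          mul_le_mul_of_nonneg_left this (tri_nonneg L ξ)
      _ = tri L ξ := mul_one _
  · exact (continuous_tri L).integrable_of_hasCompactSupport (tri_compact hL)
  · refine Eventually.of_forall fun ξ => ?_
    fun_prop

end Pool.Agent.V7H80.Sum
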