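import Pool.Agent.V7H80.Sum.B1

/-!
Averages of the Fejer kernel, Fubini for characters.
-/

set_option maxHeartbeats 1000000

namespace Pool.Agent.V7H80.Sum

open MeasureTheory Set Filter Topology
open scoped ENNReal NNReal

lemma summable_CZ : Summable (fun k : ℤ => 4 / (1 + (k : ℝ) ^ 2)) := by
  have h1 : Summable (fun k : ℤ => 4 * (1 / (k : ℝ) ^ 2) + (if k = 0 then (4 : ℝ) else 0)) := by
    apply Summable.add
    · exact (Real.summable_one_div_int_pow.mpr (by norm_num)).mul_left 4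
    · exact (hasSum_ite_eq (0 : ℤ) (4 : ℝ)).summable
  refine Summable.of_nonneg_of_le (fun k => by positivity) (fun k => ?_) h1
  by_cases hk : k = 0
  · simp [hk]
  · have hk' : (0 : ℝ) < (k : ℝ) ^ 2 := by positivity
    simp only [hk, if_false, add_zero]
    rw [mul_one_div]
    exact div_le_div_of_nonneg_left (by norm_num) hk' (by linarith)

/-- the constant in the kernel bound -/
noncomputable def CZ : ℝ := ∑' k : ℤ, 4 / (1 + (k : ℝ) ^ 2)

lemma CZ_pos : 0 < CZ := by
  unfold CZ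
  exact summable_CZ.tsum_pos (fun k => by positivity) 0 (by norm_num)

lemma phi_le_k {L : ℝ} (hL : 0 < L) (v : ℝ) :
    phi L v ≤ L * (4 / (1 + ((⌊v * (L / 4)⌋ : ℤ) : ℝ) ^ 2)) := by
  set z : ℝ := v * (L / 4) with hz
  set k : ℤ := ⌊z⌋ with hk
  have h1 : (k : ℝ) ≤ z := Int.floor_le z
  have h2 : z < k + 1 := Int.lt_floor_add_one z
  have h3 : 1 + (k : ℝ) ^ 2 ≤ 3 + 2 * z ^ 2 := by nlinarith [sq_nonneg (2 * z - k), sq_nonneg (z - (k + 1)), sq_nonneg z]
  have hpos : 0 < 1 + (k : ℝ) ^ 2 := by positivity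
  rw [mul_div_assoc', le_div_iff₀ hpos]
  have hphi0 := phi_nonneg hL v
  by_cases hzs : |z| ≤ 1 / 2
  · rw [abs_le] at hzs
    have h4 : -1 < k + 1 := by
      have : (-1 : ℝ) < ((k + 1 : ℤ) : ℝ) := by push_cast; linarith
      exact_mod_cast this
    have h5 : k < 1 := by
      have : (k : ℝ) < ((1 : ℤ) : ℝ) := by push_cast; linarith
      exact_mod_cast this
    have h6 : (k : ℝ) ^ 2 ≤ 1 := by
      have h7 : k = 0 ∨ k = -1 := by omega
      rcases h7 with h | h <;> rw [h] <;> norm_num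
    calc phi L v * (1 + (k : ℝ) ^ 2) ≤ L * 2 :=
          mul_le_mul (phi_le_L hL v) (by linarith) (by positivity) hL.le
      _ ≤ L * 4 := by linarith
  · have h4 : 1 / 4 < z ^ 2 := by
      have : 1 / 2 < |z| := not_le.mp hzs
      rw [← sq_abs]; nlinarith
    have h5 := phi_mul_sq_le hL v
    have h6 : phi L v * z ^ 2 ≤ L / 4 := by
      have e : phi L v * z ^ 2 = phi L v * (L * v ^ 2) * (L / 16) := by rw [hz]; ring
      rw [e]
      nlinarith
    calc phi L v * (1 + (k : ℝ) ^ 2) ≤ phi L v * (3 + 2 * z ^ 2) :=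
          mul_le_mul_of_nonneg_left h3 hphi0
      _ ≤ phi L v * (12 * z ^ 2 + 2 * z ^ 2) :=
          mul_le_mul_of_nonneg_left (by linarith) hphi0
      _ = 14 * (phi L v * z ^ 2) := by ring
      _ ≤ 14 * (L / 4) := by linarith
      _ ≤ L * 4 := by linarith

lemma kernel_bound {Ω : Type*} [MeasurableSpace Ω] (P : Measure Ω) [IsProbabilityMeasure P]
    {h : Ω → ℝ} (hh : Measurable h) {L B : ℝ} (hL : 0 < L) (hB0 : 0 ≤ B)
    (hB : ∀ x, P {ω | |h ω - x| ≤ 4 / L} ≤ ENNReal.ofReal B) :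
    ∫ ω, phi L (h ω) ∂P ≤ CZ * L * B := by
  have hpm : Measurable (fun ω => phi L (h ω)) := (continuous_phi hL).measurable.comp hh
  rw [integral_eq_lintegral_of_nonneg_ae (Eventually.of_forall fun ω => phi_nonneg hL _)
    hpm.aestronglyMeasurable]
  apply ENNReal.toReal_le_of_le_ofReal (by have := CZ_pos; positivity)
  have hset : ∀ k : ℤ, MeasurableSet {ω | |h ω - k * (4 / L)| ≤ 4 / L} := fun k =>
    measurableSet_le ((hh.sub_const _).abs) measurable_const
  calc ∫⁻ ω, ENNReal.ofReal (phi L (h ω)) ∂P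
      ≤ ∫⁻ ω, ∑' k : ℤ, {ω | |h ω - k * (4 / L)| ≤ 4 / L}.indicator
          (fun _ => ENNReal.ofReal (L * (4 / (1 + (k : ℝ) ^ 2)))) ω ∂P := by
        refine lintegral_mono fun ω => ?_
        set k : ℤ := ⌊h ω * (L / 4)⌋ with hk
        refine le_trans ?_ (ENNReal.le_tsum k)
        rw [indicator_of_mem]
        · exact ENNReal.ofReal_le_ofReal (phi_le_k hL (h ω))
        · have h1 := Int.floor_le (h ω * (L / 4))
          have h2 := Int.lt_floor_add_one (h ω * (L / 4))
          rw [← hk] at h1 h2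
          show |h ω - k * (4 / L)| ≤ 4 / L
          have e : h ω - k * (4 / L) = (h ω * (L / 4) - k) * (4 / L) := by
            field_simp
          rw [e, abs_mul, abs_of_pos (by positivity : 0 < 4 / L)]
          have h3 : |h ω * (L / 4) - k| ≤ 1 := by rw [abs_le]; constructor <;> linarith
          calc |h ω * (L / 4) - k| * (4 / L) ≤ 1 * (4 / L) :=
                mul_le_mul_of_nonneg_right h3 (by positivity)
            _ = 4 / L := one_mul _
    _ = ∑' k : ℤ, ∫⁻ ω, {ω | |h ω - k * (4 / L)| ≤ 4 / L}.indicator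
          (fun _ => ENNReal.ofReal (L * (4 / (1 + (k : ℝ) ^ 2)))) ω ∂P :=
        lintegral_tsum fun k => (measurable_const.indicator (hset k)).aemeasurable
    _ = ∑' k : ℤ, ENNReal.ofReal (L * (4 / (1 + (k : ℝ) ^ 2))) *
          P {ω | |h ω - k * (4 / L)| ≤ 4 / L} := by
        congr 1
        ext k
        rw [lintegral_indicator (hset k), setLIntegral_const]
    _ ≤ ∑' k : ℤ, ENNReal.ofReal (L * (4 / (1 + (k : ℝ) ^ 2))) * ENNReal.ofReal B :=
        ENNReal.tsum_le_tsum fun k => mul_le_mul_right (hB _) _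
    _ = ENNReal.ofReal (CZ * L * B) := by
        rw [ENNReal.tsum_mul_right, ← ENNReal.ofReal_tsum_of_nonneg (fun k => by positivity)
          (summable_CZ.mul_left L), tsum_mul_left, ← ENNReal.ofReal_mul
          (mul_nonneg hL.le (by have := CZ_pos; exact this.le))]
        congr 1
        unfold CZ
        ring

/-- Fubini for characters. -/
lemma fubini_ex {Ω : Type*} [MeasurableSpace Ω] (P : Measure Ω) [IsProbabilityMeasure P]
    {h : Ω → ℝ} (hh : Measurable h) {w : ℝ → ℝ} (hw : Integrable w) :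
    ∫ ξ, (w ξ : ℂ) * ∫ ω, ex (ξ * h ω) ∂P = ∫ ω, (∫ ξ, (w ξ : ℂ) * ex (ξ * h ω)) ∂P := by
  have h1 : ∀ ξ : ℝ, (w ξ : ℂ) * ∫ ω, ex (ξ * h ω) ∂P = ∫ ω, (w ξ : ℂ) * ex (ξ * h ω) ∂P := by
    intro ξ
    rw [integral_const_mul]
  simp only [h1]
  apply integral_integral_swap
  have h2 : Integrable (fun z : ℝ × Ω => (w z.1 : ℂ)) (volume.prod P) := by
    have := hw.comp_fst (ν := P)
    exact this.ofReal
  refine (h2.mul_bdd (c := 1) ?_ ?_)
  · have : Measurable fun z : ℝ × Ω => ex (z.1 * h z.2) :=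
      continuous_ex.measurable.comp (measurable_fst.mul (hh.comp measurable_snd))
    exact this.aestronglyMeasurable
  · exact Eventually.of_forall fun z => by rw [norm_ex]

end Pool.Agent.V7H80.Sum
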