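import Pool.Agent.V7H80.Sum.B2

/-!
Characteristic functions of Frostman measures.
-/

set_option maxHeartbeats 1000000

namespace Pool.Agent.V7H80.Sum

open MeasureTheory Set Filter Topology
open scoped ENNReal NNReal

/-- the characteristic function -/
noncomputable def cm (μ : Measure ℝ) (ξ : ℝ) : ℂ := ∫ a, ex (ξ * a) ∂μ

variable {μ : Measure ℝ}

lemma norm_cm_le [IsProbabilityMeasure μ] (ξ : ℝ) : ‖cm μ ξ‖ ≤ 1 := by
  unfold cm
  refine (norm_integral_le_of_norm_le_const (C := 1) (Eventually.of_forall fun a => ?_)).trans ?_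
  · rw [norm_ex]
  · simp

lemma continuous_cm [IsProbabilityMeasure μ] : Continuous (cm μ) := by
  unfold cm
  apply continuous_of_dominated (bound := fun _ => 1)
  · intro ξ
    have := continuous_ex
    exact (by fun_prop : Continuous fun a => ex (ξ * a)).aestronglyMeasurable
  · intro ξ
    exact Eventually.of_forall fun a => by rw [norm_ex]
  · exact integrable_const 1
  · refine Eventually.of_forall fun a => ?_
    have := continuous_ex
    fun_prop

lemma cm_conj (ξ : ℝ) : (starRingEnd ℂ) (cm μ ξ) = cm μ (-ξ) := by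
  unfold cm
  rw [← integral_conj]
  refine integral_congr_ae (Eventually.of_forall fun a => ?_)
  simp only [ex_conj]
  rw [neg_mul]

lemma id_two [IsProbabilityMeasure μ] {w : ℝ → ℝ} (hw : Integrable w) (y t u : ℝ) :
    ∫ ξ, (w ξ : ℂ) * (ex (ξ * y) * (cm μ (ξ * t) * (starRingEnd ℂ) (cm μ (ξ * u)))) =
      ∫ z : ℝ × ℝ, (∫ ξ, (w ξ : ℂ) * ex (ξ * (y + t * z.1 - u * z.2))) ∂(μ.prod μ) := by
  rw [← fubini_ex (μ.prod μ) (h := fun z : ℝ × ℝ => y + t * z.1 - u * z.2) (by fun_prop) hw]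
  refine integral_congr_ae (Eventually.of_forall fun ξ => ?_)
  simp only
  congr 1
  have h1 : ∀ z : ℝ × ℝ, ex (ξ * (y + t * z.1 - u * z.2)) =
      ex (ξ * y) * (ex (ξ * t * z.1) * ex (-(ξ * u) * z.2)) := by
    intro z
    rw [← ex_add, ← ex_add]
    congr 1
    ring
  simp only [h1]
  rw [integral_const_mul, integral_prod_mul (fun a => ex (ξ * t * a)) (fun b => ex (-(ξ * u) * b))]
  rw [cm_conj]
  rfl

lemma id_tri [IsProbabilityMeasure μ] {L : ℝ} (hL : 0 < L) (y t u : ℝ) :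
    ∫ ξ, (tri L ξ : ℂ) * (ex (ξ * y) * (cm μ (ξ * t) * (starRingEnd ℂ) (cm μ (ξ * u)))) =
      ((∫ z : ℝ × ℝ, phi L (y + t * z.1 - u * z.2) ∂(μ.prod μ) : ℝ) : ℂ) := by
  rw [id_two ((continuous_tri L).integrable_of_hasCompactSupport (tri_compact hL))]
  rw [← integral_complex_ofReal]
  refine integral_congr_ae (Eventually.of_forall fun z => ?_)
  simp only
  rw [phi_complex L hL]

/-- two-variable Frostman bound -/
lemma frost_two [IsProbabilityMeasure μ] {C0 s : ℝ}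
    (hμ : ∀ z r, 0 < r → μ (Metric.closedBall z r) ≤ ENNReal.ofReal (C0 * r ^ s))
    {t : ℝ} (ht : t ≠ 0) (u y x : ℝ) {ρ : ℝ} (hρ : 0 < ρ) :
    (μ.prod μ) {z : ℝ × ℝ | |y + t * z.1 - u * z.2 - x| ≤ ρ} ≤
      ENNReal.ofReal (C0 * (ρ / |t|) ^ s) := by
  have hm : MeasurableSet {z : ℝ × ℝ | |y + t * z.1 - u * z.2 - x| ≤ ρ} :=
    measurableSet_le (by fun_prop) measurable_const
  rw [Measure.prod_apply_symm hm]
  have ht' : 0 < |t| := abs_pos.mpr ht
  calc ∫⁻ b, μ ((fun a => (a, b)) ⁻¹' {z : ℝ × ℝ | |y + t * z.1 - u * z.2 - x| ≤ ρ}) ∂μ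
      ≤ ∫⁻ _b, ENNReal.ofReal (C0 * (ρ / |t|) ^ s) ∂μ := by
        refine lintegral_mono fun b => ?_
        refine le_trans (measure_mono ?_) (hμ ((x + u * b - y) / t) (ρ / |t|) (by positivity))
        intro a ha
        have ha' : |y + t * a - u * b - x| ≤ ρ := ha
        rw [Metric.mem_closedBall, Real.dist_eq, le_div_iff₀ ht', ← abs_mul]
        have e : (a - (x + u * b - y) / t) * t = y + t * a - u * b - x := by field_simp; ring
        rw [e]; exact ha'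
    _ = _ := by simp

/-- `L²` average of the characteristic function over dilations. -/
lemma avg_sq [IsProbabilityMeasure μ] {C0 s : ℝ} (hC0 : 0 ≤ C0)
    (hμ : ∀ z r, 0 < r → μ (Metric.closedBall z r) ≤ ENNReal.ofReal (C0 * r ^ s))
    {ξ : ℝ} (hξ : ξ ≠ 0) :
    ∫ t in Icc (1:ℝ) 2, ‖cm μ (t * ξ)‖ ^ 2 ≤ 8 * CZ * C0 * |ξ| ^ (-s) := by
  have hξ' : 0 < |ξ| := abs_pos.mpr hξ
  have hc : Continuous fun t => tri 4 t * ‖cm μ (t * ξ)‖ ^ 2 := by
    have := continuous_tri 4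
    have := continuous_cm (μ := μ)
    fun_prop
  have hint : Integrable fun t => tri 4 t * ‖cm μ (t * ξ)‖ ^ 2 := by
    apply hc.integrable_of_hasCompactSupport
    exact (tri_compact (by norm_num : (0:ℝ) < 4)).mul_right
  have h1 : ∫ t in Icc (1:ℝ) 2, ‖cm μ (t * ξ)‖ ^ 2 ≤
      ∫ t in Icc (1:ℝ) 2, 2 * (tri 4 t * ‖cm μ (t * ξ)‖ ^ 2) := by
    apply setIntegral_mono_on
    · have : Continuous fun t => ‖cm μ (t * ξ)‖ ^ 2 := by
        have := continuous_cm (μ := μ)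
        fun_prop
      exact this.continuousOn.integrableOn_compact isCompact_Icc
    · exact (hint.const_mul 2).integrableOn
    · exact measurableSet_Icc
    · intro t ht
      have h2 : 1 / 2 ≤ tri 4 t := by
        unfold tri
        refine le_trans ?_ (le_max_right _ _)
        rw [abs_of_nonneg (by linarith [ht.1])]
        linarith [ht.2]
      have h3 : 0 ≤ ‖cm μ (t * ξ)‖ ^ 2 := by positivity
      nlinarith
  have h2 : ∫ t in Icc (1:ℝ) 2, 2 * (tri 4 t * ‖cm μ (t * ξ)‖ ^ 2) ≤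
      ∫ t, 2 * (tri 4 t * ‖cm μ (t * ξ)‖ ^ 2) := by
    apply setIntegral_le_integral (hint.const_mul 2)
    exact Eventually.of_forall fun t => mul_nonneg zero_le_two
      (mul_nonneg (tri_nonneg _ _) (by positivity))
  have h3 : ∫ t, tri 4 t * ‖cm μ (t * ξ)‖ ^ 2 =
      ∫ z : ℝ × ℝ, phi 4 (0 + ξ * z.1 - ξ * z.2) ∂(μ.prod μ) := by
    have h4 := id_tri (μ := μ) (by norm_num : (0:ℝ) < 4) 0 ξ ξ
    have h5 : ∀ t : ℝ, (tri 4 t : ℂ) * (ex (t * 0) * (cm μ (t * ξ) * (starRingEnd ℂ) (cm μ (t * ξ)))) =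
        ((tri 4 t * ‖cm μ (t * ξ)‖ ^ 2 : ℝ) : ℂ) := by
      intro t
      rw [mul_zero, ex_zero, one_mul, Complex.mul_conj, Complex.normSq_eq_norm_sq]
      push_cast
      ring
    simp only [h5] at h4
    rw [integral_complex_ofReal] at h4
    exact_mod_cast h4
  have h6 : ∫ z : ℝ × ℝ, phi 4 (0 + ξ * z.1 - ξ * z.2) ∂(μ.prod μ) ≤
      CZ * 4 * (C0 * |ξ| ^ (-s)) := by
    apply kernel_bound (μ.prod μ) (by fun_prop) (by norm_num) (by positivity)
    intro x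
    have h7 := frost_two hμ hξ ξ 0 x (by norm_num : (0:ℝ) < 1)
    norm_num at h7 ⊢
    rw [Real.inv_rpow hξ'.le, ← Real.rpow_neg hξ'.le] at h7
    exact h7
  calc ∫ t in Icc (1:ℝ) 2, ‖cm μ (t * ξ)‖ ^ 2 ≤ ∫ t, 2 * (tri 4 t * ‖cm μ (t * ξ)‖ ^ 2) :=
        h1.trans h2
    _ = 2 * ∫ t, tri 4 t * ‖cm μ (t * ξ)‖ ^ 2 := by rw [integral_const_mul]
    _ ≤ 2 * (CZ * 4 * (C0 * |ξ| ^ (-s))) := by rw [h3]; linarith
    _ = _ := by ring

end Pool.Agent.V7H80.Sum
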