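import Pool.Agent.V7H80.Sum.B3

/-!
Selection of the first dilations.
-/

set_option maxHeartbeats 1000000

namespace Pool.Agent.V7H80.Sum

open MeasureTheory Set Filter Topology
open scoped ENNReal NNReal

/-- the weight -/
noncomputable def wN (N ξ : ℝ) : ℝ := tri (2 * N) ξ - tri N ξ

lemma continuous_wN (N : ℝ) : Continuous (wN N) := by
  unfold wN
  exact (continuous_tri _).sub (continuous_tri _)

lemma wN_neg (N ξ : ℝ) : wN N (-ξ) = wN N ξ := by
  unfold wN; rw [tri_neg, tri_neg]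

lemma wN_zero {N ξ : ℝ} (hN : 0 < N) (h : 2 * N ≤ |ξ|) : wN N ξ = 0 := by
  unfold wN
  rw [tri_eq_zero (by linarith) h, tri_eq_zero hN (by linarith), sub_zero]

lemma wN_compact {N : ℝ} (hN : 0 < N) : HasCompactSupport (wN N) := by
  apply HasCompactSupport.intro (isCompact_Icc (a := -(2 * N)) (b := 2 * N))
  intro x hx
  apply wN_zero hN
  by_contra hcon
  push Not at hcon
  rw [abs_lt] at hcon
  exact hx ⟨hcon.1.le, hcon.2.le⟩

lemma wN_integrable {N : ℝ} (hN : 0 < N) : Integrable (wN N) :=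
  (continuous_wN N).integrable_of_hasCompactSupport (wN_compact hN)

lemma wN_cases {N : ℝ} (hN : 0 < N) (ξ : ℝ) :
    (|ξ| ≤ N ∧ wN N ξ = |ξ| / (2 * N)) ∨ (N ≤ |ξ| ∧ |ξ| ≤ 2 * N ∧ wN N ξ = 1 - |ξ| / (2 * N)) ∨
      (2 * N ≤ |ξ| ∧ wN N ξ = 0) := by
  rcases le_total (|ξ|) N with h1 | h1
  · left
    refine ⟨h1, ?_⟩
    unfold wN tri
    have h2 : |ξ| / N ≤ 1 := by rwa [div_le_one hN]
    have h3 : |ξ| / (2 * N) ≤ 1 := by rw [div_le_one (by linarith)]; linarith
    rw [max_eq_right (by linarith), max_eq_right (by linarith)]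
    field_simp
    ring
  · right
    rcases le_total (|ξ|) (2 * N) with h2 | h2
    · left
      refine ⟨h1, h2, ?_⟩
      unfold wN
      rw [tri_eq_zero hN h1, sub_zero]
      unfold tri
      have h3 : |ξ| / (2 * N) ≤ 1 := by rw [div_le_one (by linarith)]; linarith
      rw [max_eq_right (by linarith)]
    · right
      exact ⟨h2, wN_zero hN h2⟩

lemma wN_nonneg {N : ℝ} (hN : 0 < N) (ξ : ℝ) : 0 ≤ wN N ξ := by
  rcases wN_cases hN ξ with ⟨_, h⟩ | ⟨_, h1, h⟩ | ⟨_, h⟩
  · rw [h]; positivity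
  · rw [h]
    have h3 : |ξ| / (2 * N) ≤ 1 := by rw [div_le_one (by linarith)]; linarith
    linarith
  · rw [h]

lemma wN_le_lin {N : ℝ} (hN : 0 < N) (ξ : ℝ) : wN N ξ ≤ |ξ| / (2 * N) := by
  rcases wN_cases hN ξ with ⟨_, h⟩ | ⟨h0, h1, h⟩ | ⟨_, h⟩
  · rw [h]
  · rw [h]
    have h3 : 1 / 2 ≤ |ξ| / (2 * N) := by rw [div_le_div_iff₀ (by norm_num) (by linarith)]; linarith
    linarith
  · rw [h]; positivity

lemma wN_le_tri {N : ℝ} (hN : 0 < N) (ξ : ℝ) : wN N ξ ≤ tri (4 * N) ξ := by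
  rcases wN_cases hN ξ with ⟨h0, h⟩ | ⟨h0, h1, h⟩ | ⟨_, h⟩
  · rw [h]
    unfold tri
    refine le_trans ?_ (le_max_right _ _)
    have h3 : |ξ| / (2 * N) ≤ 1 / 2 := by rw [div_le_div_iff₀ (by linarith) (by norm_num)]; linarith
    have h4 : |ξ| / (4 * N) ≤ 1 / 4 := by rw [div_le_div_iff₀ (by linarith) (by norm_num)]; linarith
    linarith
  · rw [h]
    unfold tri
    refine le_trans ?_ (le_max_right _ _)
    have h3 : 1 / 2 ≤ |ξ| / (2 * N) := by rw [div_le_div_iff₀ (by norm_num) (by linarith)]; linarith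
    have h4 : |ξ| / (4 * N) ≤ 1 / 2 := by rw [div_le_div_iff₀ (by linarith) (by norm_num)]; linarith
    linarith
  · rw [h]; exact tri_nonneg _ _

lemma wN_int_bound {N A p : ℝ} (hN : 0 < N) (hA : 0 ≤ A) (hp : p < 2) {F : ℝ → ℝ}
    (hFc : Continuous F) (hFe : ∀ ξ, F (-ξ) = F ξ) (hF : ∀ ξ, ξ ≠ 0 → F ξ ≤ A * |ξ| ^ (-p)) :
    ∫ ξ, wN N ξ * F ξ ≤ A * (4 / (2 - p)) * N ^ (1 - p) * (2 : ℝ) ^ (-p) := by
  have h2p : 0 < 2 - p := by linarith
  have h1 : ∀ ξ : ℝ, wN N ξ * F ξ = (fun x => wN N x * F x) |ξ| := by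
    intro ξ
    simp only
    rcases abs_cases ξ with h | h
    · rw [h.1]
    · rw [h.1, wN_neg, hFe]
  calc ∫ ξ, wN N ξ * F ξ = ∫ ξ, (fun x => wN N x * F x) |ξ| := by simp only [← h1]
    _ = 2 * ∫ x in Ioi (0:ℝ), wN N x * F x := integral_comp_abs (f := fun x => wN N x * F x)
    _ = 2 * ∫ x in Ioc (0:ℝ) (2 * N), wN N x * F x := by
        congr 1
        apply setIntegral_eq_of_subset_of_forall_sdiff_eq_zero measurableSet_Ioi
          (Ioc_subset_Ioi_self : Ioc (0:ℝ) (2 * N) ⊆ Ioi 0)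
        intro x hx
        have h2 : 2 * N < x := by
          by_contra hcon
          exact hx.2 ⟨hx.1, not_lt.mp hcon⟩
        rw [wN_zero hN (h2.le.trans (le_abs_self x)), zero_mul]
    _ ≤ 2 * ∫ x in Ioc (0:ℝ) (2 * N), A / (2 * N) * x ^ (1 - p) := by
        refine mul_le_mul_of_nonneg_left ?_ zero_le_two
        apply setIntegral_mono_on
        · have : Continuous fun x => wN N x * F x := (continuous_wN N).mul hFc
          exact (this.continuousOn.integrableOn_compact isCompact_Icc).mono_set Ioc_subset_Icc_self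
        · have := (intervalIntegral.intervalIntegrable_rpow' (a := 0) (b := 2 * N)
            (r := 1 - p) (by linarith)).const_mul (A / (2 * N))
          exact (intervalIntegrable_iff_integrableOn_Ioc_of_le (by linarith)).mp this
        · exact measurableSet_Ioc
        · intro x hx
          have hx0 : 0 < x := hx.1
          have h3 := wN_le_lin hN x
          have h4 := hF x hx0.ne'
          rw [abs_of_pos hx0] at h3 h4
          calc wN N x * F x ≤ wN N x * (A * x ^ (-p)) :=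
                mul_le_mul_of_nonneg_left h4 (wN_nonneg hN x)
            _ ≤ (x / (2 * N)) * (A * x ^ (-p)) :=
                mul_le_mul_of_nonneg_right h3 (by positivity)
            _ = A / (2 * N) * (x ^ (1:ℝ) * x ^ (-p)) := by rw [Real.rpow_one]; ring
            _ = A / (2 * N) * x ^ (1 - p) := by
                rw [← Real.rpow_add hx0, sub_eq_add_neg]
    _ = A * (4 / (2 - p)) * N ^ (1 - p) * (2 : ℝ) ^ (-p) := by
        rw [integral_const_mul, ← intervalIntegral.integral_of_le (by linarith),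
          integral_rpow (Or.inl (by linarith))]
        have e : 1 - p + 1 = 2 - p := by ring
        rw [e, Real.zero_rpow h2p.ne', sub_zero]
        have e2 : (2 * N) ^ (2 - p) = 4 * (2 : ℝ) ^ (-p) * (N * N ^ (1 - p)) := by
          rw [Real.mul_rpow (by norm_num) hN.le]
          have e3 : (2 : ℝ) ^ (2 - p) = 4 * (2 : ℝ) ^ (-p) := by
            rw [sub_eq_add_neg, Real.rpow_add (by norm_num)]
            norm_num
          have e4 : N ^ (2 - p) = N * N ^ (1 - p) := by
            have : 2 - p = 1 + (1 - p) := by ring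
            rw [this, Real.rpow_add hN, Real.rpow_one]
          rw [e3, e4]
        rw [e2]
        field_simp

variable {μ : Measure ℝ}

/-- the average of the square -/
noncomputable def qa (μ : Measure ℝ) (ξ : ℝ) : ℝ := ∫ t in Icc (1:ℝ) 2, ‖cm μ (t * ξ)‖ ^ 2

lemma qa_nonneg (ξ : ℝ) : 0 ≤ qa μ ξ := integral_nonneg fun t => by positivity

lemma qa_neg [IsProbabilityMeasure μ] (ξ : ℝ) : qa μ (-ξ) = qa μ ξ := by
  unfold qa
  refine integral_congr_ae (Eventually.of_forall fun t => ?_)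
  simp only
  rw [mul_neg, ← cm_conj, RCLike.norm_conj]

lemma continuous_qa [IsProbabilityMeasure μ] : Continuous (qa μ) := by
  unfold qa
  apply continuous_of_dominated (bound := fun _ => 1)
  · intro ξ
    have := continuous_cm (μ := μ)
    exact (by fun_prop : Continuous fun t => ‖cm μ (t * ξ)‖ ^ 2).aestronglyMeasurable
  · intro ξ
    refine Eventually.of_forall fun t => ?_
    rw [Real.norm_of_nonneg (by positivity)]
    exact pow_le_one₀ (norm_nonneg _) (norm_cm_le _)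
  · simp
  · refine Eventually.of_forall fun t => ?_
    have := continuous_cm (μ := μ)
    fun_prop

/-- the law of a uniform dilation -/
noncomputable def Q12 : Measure ℝ := volume.restrict (Icc 1 2)

instance : IsProbabilityMeasure Q12 := by
  constructor
  unfold Q12
  rw [Measure.restrict_apply_univ, Real.volume_Icc]
  norm_num

lemma swap_prod [IsProbabilityMeasure μ] (m : ℕ) {w : ℝ → ℝ} (hw : Integrable w) :
    Integrable (fun t' : Fin m → ℝ => ∫ ξ, w ξ * ∏ i, ‖cm μ (t' i * ξ)‖ ^ 2)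
      (Measure.pi fun _ : Fin m => Q12) ∧
    ∫ t' : Fin m → ℝ, (∫ ξ, w ξ * ∏ i, ‖cm μ (t' i * ξ)‖ ^ 2) ∂(Measure.pi fun _ : Fin m => Q12) =
      ∫ ξ, w ξ * qa μ ξ ^ m := by
  have hint : Integrable (fun z : (Fin m → ℝ) × ℝ => w z.2 * ∏ i, ‖cm μ (z.1 i * z.2)‖ ^ 2)
      ((Measure.pi fun _ : Fin m => Q12).prod volume) := by
    have h2 : Integrable (fun z : (Fin m → ℝ) × ℝ => w z.2)
        ((Measure.pi fun _ : Fin m => Q12).prod volume) := hw.comp_snd _
    refine h2.mul_bdd (c := 1) ?_ ?_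
    · have := continuous_cm (μ := μ)
      exact (by fun_prop : Continuous fun z : (Fin m → ℝ) × ℝ =>
        ∏ i, ‖cm μ (z.1 i * z.2)‖ ^ 2).aestronglyMeasurable
    · refine Eventually.of_forall fun z => ?_
      rw [Real.norm_of_nonneg (Finset.prod_nonneg fun i _ => by positivity)]
      exact Finset.prod_le_one (fun i _ => by positivity)
        (fun i _ => pow_le_one₀ (norm_nonneg _) (norm_cm_le _))
  refine ⟨hint.integral_prod_left, ?_⟩
  rw [integral_integral_swap hint]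
  refine integral_congr_ae (Eventually.of_forall fun ξ => ?_)
  simp only
  rw [integral_const_mul, integral_fintype_prod_eq_pow (fun t : ℝ => ‖cm μ (t * ξ)‖ ^ 2),
    Fintype.card_fin]
  rfl

lemma exists_good [IsProbabilityMeasure μ] {C0 s : ℝ} (hC0 : 0 ≤ C0)
    (hμ : ∀ z r, 0 < r → μ (Metric.closedBall z r) ≤ ENNReal.ofReal (C0 * r ^ s)) (m : ℕ)
    (hsm : s * m < 2) {c : ℝ} (hc : 0 < c) :
    ∃ C' : ℝ, 0 < C' ∧ ∃ t' : Fin m → ℝ, (∀ i, t' i ∈ Icc (1:ℝ) 2) ∧
      ∀ j : ℕ, ∫ ξ, wN (2 ^ j) ξ * ∏ i, ‖cm μ (t' i * ξ)‖ ^ 2 ≤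
        C' * ((2 : ℝ) ^ j) ^ (1 - s * m + c) := by
  set Pm : Measure (Fin m → ℝ) := Measure.pi fun _ : Fin m => Q12 with hPm
  set A : ℝ := (8 * CZ * C0) ^ m * (4 / (2 - s * m)) * (2 : ℝ) ^ (-(s * m)) with hA
  have hCZ := CZ_pos
  have h2p : 0 < 2 - s * m := by linarith
  have hA0 : 0 ≤ A := by positivity
  have h2j : ∀ j : ℕ, (0 : ℝ) < 2 ^ j := fun j => by positivity
  -- the bound on the averages
  have hav : ∀ j : ℕ, ∫ ξ, wN (2 ^ j) ξ * qa μ ξ ^ m ≤ A * ((2 : ℝ) ^ j) ^ (1 - s * m) := by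
    intro j
    have := wN_int_bound (h2j j) (A := (8 * CZ * C0) ^ m) (p := s * m) (by positivity) hsm
      (F := fun ξ => qa μ ξ ^ m) (continuous_qa.pow m) (fun ξ => by simp only [qa_neg]) ?_
    · refine this.trans (le_of_eq ?_)
      rw [hA]; ring
    · intro ξ hξ
      have hξ' : 0 < |ξ| := abs_pos.mpr hξ
      calc qa μ ξ ^ m ≤ (8 * CZ * C0 * |ξ| ^ (-s)) ^ m :=
            pow_le_pow_left₀ (qa_nonneg ξ) (avg_sq hC0 hμ hξ) m
        _ = (8 * CZ * C0) ^ m * |ξ| ^ (-(s * m)) := by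
            rw [mul_pow, ← Real.rpow_natCast (|ξ| ^ (-s)) m, ← Real.rpow_mul hξ'.le]
            congr 2
            ring
  set g : ℕ → (Fin m → ℝ) → ℝ := fun j t' => ∫ ξ, wN (2 ^ j) ξ * ∏ i, ‖cm μ (t' i * ξ)‖ ^ 2 with hg
  have hg0 : ∀ j t', 0 ≤ g j t' := fun j t' => integral_nonneg fun ξ =>
    mul_nonneg (wN_nonneg (h2j j) ξ) (Finset.prod_nonneg fun i _ => by positivity)
  have hgi : ∀ j, Integrable (g j) Pm := fun j => (swap_prod m (wN_integrable (h2j j))).1
  have hgint : ∀ j, ∫ t', g j t' ∂Pm ≤ A * ((2 : ℝ) ^ j) ^ (1 - s * m) := fun j => by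
    rw [hg, hPm, (swap_prod m (wN_integrable (h2j j))).2]
    exact hav j
  set a : ℕ → ℝ := fun j => ((2 : ℝ) ^ j) ^ (-(1 - s * m + c)) with ha
  have ha0 : ∀ j, 0 < a j := fun j => Real.rpow_pos_of_pos (h2j j) _
  set ρ : ℝ := (2 : ℝ) ^ (-c) with hρ
  have hρ0 : 0 < ρ := by positivity
  have hρ1 : ρ < 1 := Real.rpow_lt_one_of_one_lt_of_neg (by norm_num) (by linarith)
  have hag : ∀ j, a j * ∫ t', g j t' ∂Pm ≤ A * ρ ^ j := by
    intro j
    calc a j * ∫ t', g j t' ∂Pm ≤ a j * (A * ((2 : ℝ) ^ j) ^ (1 - s * m)) :=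
          mul_le_mul_of_nonneg_left (hgint j) (ha0 j).le
      _ = A * (((2 : ℝ) ^ j) ^ (-(1 - s * m + c)) * ((2 : ℝ) ^ j) ^ (1 - s * m)) := by
          rw [ha]; ring
      _ = A * ρ ^ j := by
          rw [← Real.rpow_add (h2j j)]
          congr 1
          have : -(1 - s * ↑m + c) + (1 - s * ↑m) = -c := by ring
          rw [this, hρ, ← Real.rpow_natCast, ← Real.rpow_natCast, ← Real.rpow_mul (by norm_num),
            ← Real.rpow_mul (by norm_num)]
          congr 1
          ring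
  -- the total function
  have hmeas : ∀ j, AEMeasurable (fun t' => ENNReal.ofReal (a j * g j t')) Pm := fun j =>
    ((hgi j).const_mul (a j)).aemeasurable.ennreal_ofReal
  have htot : ∫⁻ t', ∑' j, ENNReal.ofReal (a j * g j t') ∂Pm ≤ ENNReal.ofReal (A / (1 - ρ)) := by
    rw [lintegral_tsum hmeas]
    calc ∑' j, ∫⁻ t', ENNReal.ofReal (a j * g j t') ∂Pm ≤ ∑' j, ENNReal.ofReal (A * ρ ^ j) := by
          refine ENNReal.tsum_le_tsum fun j => ?_
          rw [← ofReal_integral_eq_lintegral_ofReal ((hgi j).const_mul (a j))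
            (Eventually.of_forall fun t' => mul_nonneg (ha0 j).le (hg0 j t'))]
          apply ENNReal.ofReal_le_ofReal
          rw [integral_const_mul]
          exact hag j
      _ = ENNReal.ofReal (A / (1 - ρ)) := by
          rw [← ENNReal.ofReal_tsum_of_nonneg (fun j => by positivity)
            ((summable_geometric_of_lt_one hρ0.le hρ1).mul_left A), tsum_mul_left,
            tsum_geometric_of_lt_one hρ0.le hρ1, div_eq_mul_inv]
  -- the null set
  have hnull : Pm {t' | ∀ i, t' i ∈ Icc (1:ℝ) 2}ᶜ = 0 := by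
    have h1 : {t' : Fin m → ℝ | ∀ i, t' i ∈ Icc (1:ℝ) 2} = Set.pi univ fun _ => Icc (1:ℝ) 2 := by
      ext t'; simp [Set.mem_pi, Pi.le_def, forall_and]
    have h2 : Pm (Set.pi univ fun _ => Icc (1:ℝ) 2) = 1 := by
      rw [hPm, Measure.pi_pi]
      have : Q12 (Icc 1 2) = 1 := by
        unfold Q12
        rw [Measure.restrict_apply_self, Real.volume_Icc]
        norm_num
      simp [this]
    rw [h1, prob_compl_eq_zero_iff (MeasurableSet.univ_pi fun _ => measurableSet_Icc)]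
    exact h2
  obtain ⟨t', ht1, ht2⟩ := exists_notMem_null_le_lintegral
    (AEMeasurable.ennreal_tsum hmeas) hnull
  have ht1' : ∀ i, t' i ∈ Icc (1:ℝ) 2 := by
    by_contra hcon
    exact ht1 hcon
  refine ⟨A / (1 - ρ) + 1, by have : 0 < 1 - ρ := by linarith
                              positivity, t', ht1', fun j => ?_⟩
  have h3 : ENNReal.ofReal (a j * g j t') ≤ ENNReal.ofReal (A / (1 - ρ)) :=
    (ENNReal.le_tsum j).trans (ht2.trans htot)
  have h1ρ : 0 < 1 - ρ := by linarith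
  rw [ENNReal.ofReal_le_ofReal_iff (by positivity)] at h3
  have h4 : g j t' = ((2 : ℝ) ^ j) ^ (1 - s * m + c) * (a j * g j t') := by
    rw [ha]
    simp only
    rw [← mul_assoc, ← Real.rpow_add (h2j j), add_neg_cancel, Real.rpow_zero, one_mul]
  show g j t' ≤ _
  rw [h4, mul_comm]
  refine mul_le_mul_of_nonneg_right ?_ (by positivity)
  linarith

end Pool.Agent.V7H80.Sum
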