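import Pool.Agent.V7H80.Sum.B4

/-!
The `T T*` argument.
-/

set_option maxHeartbeats 1000000

namespace Pool.Agent.V7H80.Sum

open MeasureTheory Set Filter Topology
open scoped ENNReal NNReal

variable {μ : Measure ℝ}

/-- the increment -/
noncomputable def FN (μ : Measure ℝ) (G : ℝ → ℂ) (N t x : ℝ) : ℂ :=
  ∫ ξ, (wN N ξ : ℂ) * (ex (ξ * x) * (G ξ * (starRingEnd ℂ) (cm μ (ξ * t))))

lemma exists_phase (F : ℂ) : ∃ θ : ℂ, ‖θ‖ = 1 ∧ θ * F = (‖F‖ : ℂ) := by
  by_cases h : F = 0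
  · exact ⟨1, by simp, by simp [h]⟩
  · have hn : (‖F‖ : ℂ) ≠ 0 := by
      simpa using h
    refine ⟨(starRingEnd ℂ) F / ‖F‖, ?_, ?_⟩
    · rw [norm_div, RCLike.norm_conj]
      simp only [Complex.norm_real, norm_norm]
      exact div_self (norm_ne_zero_iff.mpr h)
    · rw [div_mul_eq_mul_div, mul_comm, Complex.mul_conj, Complex.normSq_eq_norm_sq]
      push_cast
      field_simp

lemma cs_weight {w f g : ℝ → ℝ} (hw0 : ∀ ξ, 0 ≤ w ξ)
    (h1 : Integrable fun ξ => w ξ * f ξ ^ 2) (h2 : Integrable fun ξ => w ξ * g ξ ^ 2)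
    (h3 : Integrable fun ξ => w ξ * (f ξ * g ξ)) :
    (∫ ξ, w ξ * (f ξ * g ξ)) ^ 2 ≤ (∫ ξ, w ξ * f ξ ^ 2) * (∫ ξ, w ξ * g ξ ^ 2) := by
  set A := ∫ ξ, w ξ * (f ξ * g ξ) with hA
  set I := ∫ ξ, w ξ * f ξ ^ 2 with hI
  set H := ∫ ξ, w ξ * g ξ ^ 2 with hH
  have key : ∀ x : ℝ, 0 ≤ I * (x * x) + (-2 * A) * x + H := by
    intro x
    have e : I * (x * x) + (-2 * A) * x + H = ∫ ξ, w ξ * (x * f ξ - g ξ) ^ 2 := by
      have e1 : ∀ ξ, w ξ * (x * f ξ - g ξ) ^ 2 =
          (x * x) * (w ξ * f ξ ^ 2) + (-2 * x) * (w ξ * (f ξ * g ξ)) + w ξ * g ξ ^ 2 := by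
        intro ξ; ring
      simp only [e1]
      rw [integral_add, integral_add, integral_const_mul, integral_const_mul]
      · rw [← hA, ← hI, ← hH]; ring
      · exact h1.const_mul _
      · exact h3.const_mul _
      · exact (h1.const_mul _).add (h3.const_mul _)
      · exact h2
    rw [e]
    exact integral_nonneg fun ξ => mul_nonneg (hw0 ξ) (sq_nonneg _)
  have := discrim_le_zero key
  unfold discrim at this
  nlinarith

theorem tt_star [IsProbabilityMeasure μ] {κ : Type*} [Fintype κ] {G : ℝ → ℂ}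
    (hG : Continuous G) {N : ℝ} (hN : 0 < N) (t x : κ → ℝ) {lam : ℝ} (hlam : 0 ≤ lam)
    (hF : ∀ i, lam ≤ ‖FN μ G N (t i) (x i)‖) (B : κ → κ → ℝ) (hB0 : ∀ i j, 0 ≤ B i j)
    (hB : ∀ i j y, (μ.prod μ) {z : ℝ × ℝ | |t j * z.1 - t i * z.2 - y| ≤ 1 / N} ≤
      ENNReal.ofReal (B i j)) :
    ((Fintype.card κ : ℝ) * lam) ^ 2 ≤
      (∫ ξ, wN N ξ * ‖G ξ‖ ^ 2) * (CZ * (4 * N) * ∑ i, ∑ j, B i j) := by
  have hcm := continuous_cm (μ := μ)
  have hex := continuous_ex
  have hwc := continuous_wN N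
  have hw0 := wN_nonneg hN
  have h4N : 0 < 4 * N := by linarith
  -- compact support integrability
  have hintC : ∀ {g : ℝ → ℂ}, Continuous g → Integrable fun ξ => (wN N ξ : ℂ) * g ξ := by
    intro g hg
    apply Continuous.integrable_of_hasCompactSupport (by fun_prop)
    exact ((wN_compact hN).comp_left (g := fun x : ℝ => (x : ℂ)) Complex.ofReal_zero).mul_right
  have hintR : ∀ {g : ℝ → ℝ}, Continuous g → Integrable fun ξ => wN N ξ * g ξ := by
    intro g hg
    apply Continuous.integrable_of_hasCompactSupport (by fun_prop)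
    exact (wN_compact hN).mul_right
  have htc := continuous_tri (4 * N)
  have hintT : ∀ {g : ℝ → ℂ}, Continuous g → Integrable fun ξ => (tri (4 * N) ξ : ℂ) * g ξ := by
    intro g hg
    apply Continuous.integrable_of_hasCompactSupport (by fun_prop)
    exact ((tri_compact h4N).comp_left (g := fun x : ℝ => (x : ℂ)) Complex.ofReal_zero).mul_right
  have hintTR : ∀ {g : ℝ → ℝ}, Continuous g → Integrable fun ξ => tri (4 * N) ξ * g ξ := by
    intro g hg
    apply Continuous.integrable_of_hasCompactSupport (by fun_prop)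
    exact (tri_compact h4N).mul_right
  choose θ hθ1 hθ2 using fun i => exists_phase (FN μ G N (t i) (x i))
  set e : κ → ℝ → ℂ := fun i ξ => ex (ξ * x i) * (starRingEnd ℂ) (cm μ (ξ * t i)) with he
  have hec : ∀ i, Continuous (e i) := fun i => by
    have : Continuous fun ξ => (starRingEnd ℂ) (cm μ (ξ * t i)) :=
      Complex.continuous_conj.comp (by fun_prop)
    exact (by fun_prop : Continuous fun ξ : ℝ => ex (ξ * x i)).mul this
  set h : ℝ → ℂ := fun ξ => ∑ i, θ i * e i ξ with hh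
  have hhc : Continuous h := by
    rw [hh]
    exact continuous_finset_sum _ fun i _ => continuous_const.mul (hec i)
  -- step 1
  have hsum : ((∑ i, ‖FN μ G N (t i) (x i)‖ : ℝ) : ℂ) = ∫ ξ, (wN N ξ : ℂ) * (G ξ * h ξ) := by
    push_cast
    have e1 : ∀ i, (‖FN μ G N (t i) (x i)‖ : ℂ) = ∫ ξ, (wN N ξ : ℂ) * (G ξ * (θ i * e i ξ)) := by
      intro i
      rw [← hθ2 i]
      unfold FN
      rw [← integral_const_mul]
      refine integral_congr_ae (Eventually.of_forall fun ξ => ?_)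
      simp only [he]
      ring
    simp only [e1]
    rw [← integral_finset_sum]
    · refine integral_congr_ae (Eventually.of_forall fun ξ => ?_)
      simp only [hh]
      rw [Finset.mul_sum, Finset.mul_sum]
    · intro i _
      exact hintC (hG.mul (continuous_const.mul (hec i)))
  set A : ℝ := ∫ ξ, wN N ξ * (‖G ξ‖ * ‖h ξ‖) with hA
  have hA1 : (Fintype.card κ : ℝ) * lam ≤ A := by
    have h1 : (Fintype.card κ : ℝ) * lam ≤ ∑ i, ‖FN μ G N (t i) (x i)‖ := by
      calc (Fintype.card κ : ℝ) * lam = ∑ _i : κ, lam := by simp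
        _ ≤ _ := Finset.sum_le_sum fun i _ => hF i
    refine h1.trans ?_
    have h2 : ∑ i, ‖FN μ G N (t i) (x i)‖ = ‖((∑ i, ‖FN μ G N (t i) (x i)‖ : ℝ) : ℂ)‖ := by
      rw [Complex.norm_real, Real.norm_of_nonneg (Finset.sum_nonneg fun i _ => norm_nonneg _)]
    rw [h2, hsum]
    refine (norm_integral_le_integral_norm _).trans (le_of_eq ?_)
    refine integral_congr_ae (Eventually.of_forall fun ξ => ?_)
    simp only
    rw [norm_mul, norm_mul, Complex.norm_real, Real.norm_of_nonneg (hw0 ξ)]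
  have hcs := cs_weight (w := wN N) (f := fun ξ => ‖G ξ‖) (g := fun ξ => ‖h ξ‖) hw0
    (hintR (by fun_prop)) (hintR (by fun_prop)) (hintR (by fun_prop))
  have hI0 : 0 ≤ ∫ ξ, wN N ξ * ‖G ξ‖ ^ 2 :=
    integral_nonneg fun ξ => mul_nonneg (hw0 ξ) (sq_nonneg _)
  have hH1 : ∫ ξ, wN N ξ * ‖h ξ‖ ^ 2 ≤ ∫ ξ, tri (4 * N) ξ * ‖h ξ‖ ^ 2 := by
    apply integral_mono (hintR (by fun_prop)) (hintTR (by fun_prop))
    intro ξ
    exact mul_le_mul_of_nonneg_right (wN_le_tri hN ξ) (sq_nonneg _)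
  -- step 2: expand
  have hH2 : ∫ ξ, tri (4 * N) ξ * ‖h ξ‖ ^ 2 ≤ CZ * (4 * N) * ∑ i, ∑ j, B i j := by
    have hT0 : 0 ≤ ∫ ξ, tri (4 * N) ξ * ‖h ξ‖ ^ 2 :=
      integral_nonneg fun ξ => mul_nonneg (tri_nonneg _ _) (sq_nonneg _)
    have e1 : ((∫ ξ, tri (4 * N) ξ * ‖h ξ‖ ^ 2 : ℝ) : ℂ) = ∑ i, ∑ j, (θ i * (starRingEnd ℂ) (θ j)) *
        ((∫ z : ℝ × ℝ, phi (4 * N) ((x i - x j) + t j * z.1 - t i * z.2) ∂(μ.prod μ) : ℝ) : ℂ) := by
      rw [← integral_complex_ofReal]
      have e2 : ∀ ξ : ℝ, ((tri (4 * N) ξ * ‖h ξ‖ ^ 2 : ℝ) : ℂ) = ∑ i, ∑ j,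
          (θ i * (starRingEnd ℂ) (θ j)) * ((tri (4 * N) ξ : ℂ) * (ex (ξ * (x i - x j)) *
            (cm μ (ξ * t j) * (starRingEnd ℂ) (cm μ (ξ * t i))))) := by
        intro ξ
        have e3 : ((‖h ξ‖ ^ 2 : ℝ) : ℂ) = h ξ * (starRingEnd ℂ) (h ξ) := by
          rw [Complex.mul_conj, Complex.normSq_eq_norm_sq]
        push_cast at e3 ⊢
        rw [e3]
        simp only [hh, map_sum, map_mul]
        rw [Finset.sum_mul_sum, Finset.mul_sum]
        refine Finset.sum_congr rfl fun i _ => ?_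
        rw [Finset.mul_sum]
        refine Finset.sum_congr rfl fun j _ => ?_
        simp only [he, map_mul, ex_conj, Complex.conj_conj]
        have e4 : ex (ξ * (x i - x j)) = ex (ξ * x i) * ex (-(ξ * x j)) := by
          rw [← ex_add]; congr 1; ring
        rw [e4]
        ring
      simp only [e2]
      have hterm : ∀ i j, Integrable fun ξ : ℝ => (θ i * (starRingEnd ℂ) (θ j)) *
          ((tri (4 * N) ξ : ℂ) * (ex (ξ * (x i - x j)) *
            (cm μ (ξ * t j) * (starRingEnd ℂ) (cm μ (ξ * t i))))) := by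
        intro i j
        apply Integrable.const_mul
        apply hintT
        have h1 : Continuous fun ξ => (starRingEnd ℂ) (cm μ (ξ * t i)) :=
          Complex.continuous_conj.comp (by fun_prop)
        have h2 : Continuous fun ξ : ℝ => ex (ξ * (x i - x j)) := by fun_prop
        have h3 : Continuous fun ξ : ℝ => cm μ (ξ * t j) := by fun_prop
        exact h2.mul (h3.mul h1)
      rw [integral_finset_sum _ fun i _ => integrable_finset_sum _ fun j _ => hterm i j]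
      refine Finset.sum_congr rfl fun i _ => ?_
      rw [integral_finset_sum _ fun j _ => hterm i j]
      refine Finset.sum_congr rfl fun j _ => ?_
      rw [integral_const_mul, id_tri h4N]
    have e5 : ∫ ξ, tri (4 * N) ξ * ‖h ξ‖ ^ 2 = ‖((∫ ξ, tri (4 * N) ξ * ‖h ξ‖ ^ 2 : ℝ) : ℂ)‖ := by
      rw [Complex.norm_real, Real.norm_of_nonneg hT0]
    rw [e5, e1, Finset.mul_sum]
    refine (norm_sum_le _ _).trans (Finset.sum_le_sum fun i _ => ?_)
    rw [Finset.mul_sum]
    refine (norm_sum_le _ _).trans (Finset.sum_le_sum fun j _ => ?_)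
    rw [norm_mul, norm_mul, RCLike.norm_conj, hθ1, hθ1, one_mul, one_mul, Complex.norm_real,
      Real.norm_of_nonneg (integral_nonneg fun z => phi_nonneg h4N _)]
    apply kernel_bound (μ.prod μ) (by fun_prop) h4N (hB0 i j)
    intro y
    have e6 : (4 : ℝ) / (4 * N) = 1 / N := by field_simp
    rw [e6]
    refine le_trans (measure_mono ?_) (hB i j (y - (x i - x j)))
    intro z hz
    have hz' : |(x i - x j) + t j * z.1 - t i * z.2 - y| ≤ 1 / N := hz
    show |t j * z.1 - t i * z.2 - (y - (x i - x j))| ≤ 1 / N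
    have e7 : t j * z.1 - t i * z.2 - (y - (x i - x j)) = (x i - x j) + t j * z.1 - t i * z.2 - y := by
      ring
    rw [e7]; exact hz'
  calc ((Fintype.card κ : ℝ) * lam) ^ 2 ≤ A ^ 2 := pow_le_pow_left₀ (by positivity) hA1 2
    _ ≤ (∫ ξ, wN N ξ * ‖G ξ‖ ^ 2) * (∫ ξ, wN N ξ * ‖h ξ‖ ^ 2) := hcs
    _ ≤ _ := mul_le_mul_of_nonneg_left (hH1.trans hH2) hI0

end Pool.Agent.V7H80.Sum
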