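import Pool.Agent.V7H80.Sum.C5

/-!
The incidence theorem, conclusion.
-/

set_option maxHeartbeats 2000000

namespace Pool.Agent.V7H80.Sum

open Finset

section

variable {α ι : Type*} [Fintype α] [Fintype ι]
variable {m x : α → ℝ} {K n s : ℝ} {τ v : ι → ℝ}

/-- the exponent -/
noncomputable def expE (s : ℝ) : ℝ := (94 + 44 / (1 - s) + 4 / s) / (1 - s)

theorem Conf.bound (h : Conf m x K n s τ v) : n ≤ K ^ expE s := by
  by_contra hcon
  push Not at hcon
  have hn := h.n0
  have hK := h.K0
  have hD := h.D0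
  have hs0 := h.hs0
  have hs1 := h.hs1
  have h1s : 0 < 1 - s := by linarith
  have hK1 : 1 ≤ K := by linarith [h.hK]
  have hE1 : 94 + 44 / (1 - s) + 4 / s ≤ expE s := by
    unfold expE
    rw [le_div_iff₀ h1s]
    have : 0 ≤ 94 + 44 / (1 - s) + 4 / s := by positivity
    nlinarith
  have h44 : 0 ≤ 44 / (1 - s) := by positivity
  have h4s : 0 ≤ 4 / s := by positivity
  have hbig : K ^ 46 ≤ n := by
    refine le_trans ?_ hcon.le
    rw [← Real.rpow_natCast]
    apply Real.rpow_le_rpow_of_exponent_le hK1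
    push_cast
    linarith
  obtain ⟨c, d, hL⟩ := h.exists_affine hbig
  set Λ : ℝ := K ^ (44 / (1 - s)) with hΛ
  have hΛ1 : 1 ≤ Λ := Real.one_le_rpow hK1 h44
  set lam : ℝ := K ^ 46 * Λ with hlam
  have hlam1 : 1 ≤ lam := by
    have : 1 ≤ K ^ 46 := one_le_pow₀ hK1
    nlinarith
  set Γ : ℝ := K ^ (4 / s) with hΓ
  have hΓ1 : 1 ≤ Γ := Real.one_le_rpow hK1 h4s
  have hΓ0 : 0 < Γ := by linarith
  have hΓs : Γ ^ s = K ^ 4 := by
    rw [hΓ, ← Real.rpow_mul hK.le, div_mul_cancel₀ _ hs0.ne']
    exact_mod_cast Real.rpow_natCast K 4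
  set g : ℝ := n / Γ with hg
  have hg0 : 0 < g := by positivity
  have hg1 : 1 ≤ g := by
    rw [hg, le_div_iff₀ hΓ0, one_mul]
    refine le_trans ?_ hcon.le
    apply Real.rpow_le_rpow_of_exponent_le hK1
    linarith
  set D : ℝ := n ^ (-s) with hDdef
  have hgs : g ^ s * D = 1 / K ^ 4 := by
    rw [hg, Real.div_rpow hn.le hΓ0.le, hΓs, hDdef, Real.rpow_neg hn.le]
    have : n ^ s ≠ 0 := (Real.rpow_pos_of_pos hn s).ne'
    field_simp
  -- lower bound for the far part
  have hfar : ∀ l, D / (2 * K) ≤ ∑ i, ∑ j, m i * m j *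
      (ind (g ≤ |x i - d|) * ind (|τ l * x i + v l - x j| ≤ 1)) := by
    intro l
    have hnear : ∑ i, ∑ j, m i * m j * (ind (|x i - d| ≤ g) * ind (|τ l * x i + v l - x j| ≤ 1)) ≤
        D / (2 * K) := by
      calc ∑ i, ∑ j, m i * m j * (ind (|x i - d| ≤ g) * ind (|τ l * x i + v l - x j| ≤ 1))
          = ∑ i, (m i * ind (|x i - d| ≤ g)) * ∑ j, m j * ind (|x j - (τ l * x i + v l)| ≤ 1) := by
            refine Finset.sum_congr rfl fun i _ => ?_
            rw [Finset.mul_sum]
            refine Finset.sum_congr rfl fun j _ => ?_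
            rw [abs_sub_comm (x j)]
            ring
        _ ≤ ∑ i, (m i * ind (|x i - d| ≤ g)) * (K * (1 * D)) :=
            Finset.sum_le_sum fun i _ => mul_le_mul_of_nonneg_left (h.hF1 _ 1 le_rfl)
              (mul_nonneg (h.hm _) (ind_nonneg _))
        _ = (∑ i, m i * ind (|x i - d| ≤ g)) * (K * D) := by rw [← Finset.sum_mul, one_mul]
        _ ≤ (K * (g ^ s * D)) * (K * D) :=
            mul_le_mul_of_nonneg_right (h.hF _ _ hg1) (by positivity)
        _ = D / K ^ 2 := by rw [hgs]; field_simp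
        _ ≤ D / (2 * K) := by
            apply div_le_div_of_nonneg_left hD.le (by positivity)
            nlinarith [h.hK]
    have hS := h.hS l
    have hsplit : ∑ i, ∑ j, m i * m j * ind (|τ l * x i + v l - x j| ≤ 1) ≤
        ∑ i, ∑ j, m i * m j * (ind (|x i - d| ≤ g) * ind (|τ l * x i + v l - x j| ≤ 1)) +
        ∑ i, ∑ j, m i * m j * (ind (g ≤ |x i - d|) * ind (|τ l * x i + v l - x j| ≤ 1)) := by
      rw [← Finset.sum_add_distrib]
      refine Finset.sum_le_sum fun i _ => ?_
      rw [← Finset.sum_add_distrib]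
      refine Finset.sum_le_sum fun j _ => ?_
      rw [← mul_add, ← add_mul]
      refine mul_le_mul_of_nonneg_left ?_ (mul_nonneg (h.hm _) (h.hm _))
      have h1 : 1 ≤ ind (|x i - d| ≤ g) + ind (g ≤ |x i - d|) := by
        rcases le_total (|x i - d|) g with h1 | h1
        · rw [ind_true h1]; linarith [ind_nonneg (g ≤ |x i - d|)]
        · rw [ind_true h1]; linarith [ind_nonneg (|x i - d| ≤ g)]
      have h2 := ind_nonneg (|τ l * x i + v l - x j| ≤ 1)
      nlinarith
    have e : D / K = D / (2 * K) + D / (2 * K) := by field_simp; ring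
    linarith
  -- sum over `L`
  have hlow : (n / K ^ 44) * (D / (2 * K)) ≤ ∑ l, ind (|v l - (c - d * τ l)| ≤ lam) *
      ∑ i, ∑ j, m i * m j * (ind (g ≤ |x i - d|) * ind (|τ l * x i + v l - x j| ≤ 1)) := by
    calc (n / K ^ 44) * (D / (2 * K)) ≤ (∑ l, ind (|v l - (c - d * τ l)| ≤ lam)) * (D / (2 * K)) :=
          mul_le_mul_of_nonneg_right hL (by positivity)
      _ = ∑ l, ind (|v l - (c - d * τ l)| ≤ lam) * (D / (2 * K)) := by rw [Finset.sum_mul]
      _ ≤ _ := Finset.sum_le_sum fun l _ => mul_le_mul_of_nonneg_left (hfar l) (ind_nonneg _)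
  have hup : ∑ l, ind (|v l - (c - d * τ l)| ≤ lam) *
      ∑ i, ∑ j, m i * m j * (ind (g ≤ |x i - d|) * ind (|τ l * x i + v l - x j| ≤ 1)) ≤
      K * ((1 + lam) / g * n + 1) := by
    calc _ = ∑ i, ∑ j, m i * m j * ∑ l, (ind (|v l - (c - d * τ l)| ≤ lam) *
          (ind (g ≤ |x i - d|) * ind (|τ l * x i + v l - x j| ≤ 1))) := by
          simp only [Finset.mul_sum]
          rw [Finset.sum_comm]
          refine Finset.sum_congr rfl fun i _ => ?_
          rw [Finset.sum_comm]
          refine Finset.sum_congr rfl fun j _ => ?_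
          refine Finset.sum_congr rfl fun l _ => ?_
          ring
      _ ≤ ∑ i, ∑ j, m i * m j * (K * ((1 + lam) / g * n + 1)) := by
          refine Finset.sum_le_sum fun i _ => Finset.sum_le_sum fun j _ => ?_
          refine mul_le_mul_of_nonneg_left ?_ (mul_nonneg (h.hm _) (h.hm _))
          refine le_trans ?_ (h.hsep ((x j - c) / (x i - d)) ((1 + lam) / g) (by positivity))
          refine Finset.sum_le_sum fun l _ => ?_
          rw [ind_mul_ind, ind_mul_ind]
          apply ind_mono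
          rintro ⟨h1, h2, h3⟩
          have h4 : 0 < |x i - d| := lt_of_lt_of_le hg0 h2
          have hne : x i - d ≠ 0 := abs_pos.mp h4
          have e : τ l - (x j - c) / (x i - d) =
              ((τ l * x i + v l - x j) - (v l - (c - d * τ l))) / (x i - d) := by
            field_simp; ring
          rw [e, abs_div]
          have h5 := abs_sub (τ l * x i + v l - x j) (v l - (c - d * τ l))
          calc |τ l * x i + v l - x j - (v l - (c - d * τ l))| / |x i - d| ≤
                (1 + lam) / |x i - d| := div_le_div_of_nonneg_right (by linarith) h4.le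
            _ ≤ (1 + lam) / g := div_le_div_of_nonneg_left (by linarith) hg0 h2
      _ = K * ((1 + lam) / g * n + 1) := by
          have : ∀ i, ∑ j, m i * m j * (K * ((1 + lam) / g * n + 1)) =
              m i * (K * ((1 + lam) / g * n + 1)) := by
            intro i
            rw [← Finset.sum_mul, ← Finset.mul_sum, h.hm1, mul_one]
          simp only [this]
          rw [← Finset.sum_mul, h.hm1, one_mul]
  have h5 : K * ((1 + lam) / g * n + 1) ≤ 3 * K * (lam * Γ) := by
    have e : (1 + lam) / g * n = (1 + lam) * Γ := by rw [hg]; field_simp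
    rw [e]
    have h6 : 1 ≤ lam * Γ := by nlinarith
    have h7 : (1 + lam) * Γ ≤ 2 * (lam * Γ) := by nlinarith
    nlinarith
  have h8 : (n / K ^ 44) * (D / (2 * K)) ≤ 3 * K * (lam * Γ) := hlow.trans (hup.trans h5)
  have h9 : n * D ≤ 6 * K ^ 92 * (Λ * Γ) := by
    have e1 : n * D = (2 * K ^ 45) * ((n / K ^ 44) * (D / (2 * K))) := by field_simp
    rw [e1]
    calc (2 * K ^ 45) * ((n / K ^ 44) * (D / (2 * K))) ≤ (2 * K ^ 45) * (3 * K * (lam * Γ)) :=
          mul_le_mul_of_nonneg_left h8 (by positivity)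
      _ = _ := by rw [hlam]; ring
  have h10 : n * D = n ^ (1 - s) := by
    rw [hDdef, sub_eq_add_neg, Real.rpow_add hn, Real.rpow_one]
  have h11 : 6 * K ^ 92 * (Λ * Γ) < K ^ (94 + 44 / (1 - s) + 4 / s) := by
    rw [Real.rpow_add hK, Real.rpow_add hK, ← hΛ, ← hΓ]
    have e2 : K ^ (94 : ℝ) = K ^ 94 := by exact_mod_cast Real.rpow_natCast K 94
    rw [e2]
    have h12 : 6 * K ^ 92 < K ^ 94 := by
      calc 6 * K ^ 92 < K ^ 2 * K ^ 92 := by
            refine mul_lt_mul_of_pos_right ?_ (by positivity)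
            nlinarith [h.hK]
        _ = K ^ 94 := by ring
    have h13 : 0 < Λ * Γ := by positivity
    calc 6 * K ^ 92 * (Λ * Γ) < K ^ 94 * (Λ * Γ) := mul_lt_mul_of_pos_right h12 h13
      _ = _ := by ring
  have h14 : K ^ (94 + 44 / (1 - s) + 4 / s) < n ^ (1 - s) := by
    have e3 : K ^ (94 + 44 / (1 - s) + 4 / s) = (K ^ expE s) ^ (1 - s) := by
      rw [← Real.rpow_mul hK.le]
      congr 1
      unfold expE
      field_simp
    rw [e3]
    exact Real.rpow_lt_rpow (by positivity) hcon h1s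
  linarith

end

end Pool.Agent.V7H80.Sum
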