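import Pool.Agent.V7H80.Sum.B5
import Pool.Agent.V7H80.Sum.C6

/-!
Discretisation of a Frostman measure.
-/

set_option maxHeartbeats 1000000

namespace Pool.Agent.V7H80.Sum

open MeasureTheory Set Filter Topology
open scoped ENNReal NNReal

variable {μ : Measure ℝ}

/-- cells -/
def cel (N p : ℕ) : Set ℝ := {a | a ∈ Icc (0:ℝ) 1 ∧ ⌊a * N⌋₊ = p}

lemma cel_meas (N p : ℕ) : MeasurableSet (cel N p) := by
  have h1 : Measurable fun a : ℝ => ⌊a * N⌋₊ := Nat.measurable_floor.comp (by fun_prop)
  exact measurableSet_Icc.inter (h1 (measurableSet_singleton p))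

lemma cel_near {N p : ℕ} (hN : 0 < N) {a : ℝ} (ha : a ∈ cel N p) :
    |a - p / N| ≤ 1 / N := by
  have hN' : (0 : ℝ) < N := by exact_mod_cast hN
  have h0 : 0 ≤ a * N := mul_nonneg ha.1.1 hN'.le
  have h1 := Nat.floor_le h0
  have h2 := Nat.lt_floor_add_one (a * N)
  rw [ha.2] at h1 h2
  have e : a - p / N = (a * N - p) / N := by field_simp
  rw [e, abs_div, abs_of_pos hN']
  apply div_le_div_of_nonneg_right _ hN'.le
  rw [abs_le]; constructor <;> linarith

lemma cel_cover {N : ℕ} {a : ℝ} (ha : a ∈ Icc (0:ℝ) 1) : ∃ p : Fin (N + 1), a ∈ cel N p := by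
  have h : ⌊a * N⌋₊ < N + 1 := by
    apply Nat.lt_succ_of_le
    have : a * N ≤ N := by
      have h1 : (0 : ℝ) ≤ N := Nat.cast_nonneg N
      have := mul_le_mul_of_nonneg_right ha.2 h1
      linarith
    exact (Nat.floor_le_floor this).trans (by simp)
  exact ⟨⟨⌊a * N⌋₊, h⟩, ha, rfl⟩

lemma cel_disj {N p q : ℕ} (h : p ≠ q) : Disjoint (cel N p) (cel N q) := by
  rw [Set.disjoint_left]
  intro a ha hb
  exact h (ha.2.symm.trans hb.2)

lemma sum_cel_eq [IsProbabilityMeasure μ] (N : ℕ) (T : Finset (Fin (N + 1))) :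
    ∑ p ∈ T, μ.real (cel N p) = μ.real (⋃ p ∈ T, cel N p) := by
  rw [measureReal_biUnion_finset]
  · intro p _ q _ hpq
    exact cel_disj (fun h => hpq (Fin.ext h))
  · intro p _
    exact cel_meas _ _

theorem discretise [IsProbabilityMeasure μ] (hsupp : μ (Icc (0:ℝ) 1)ᶜ = 0) {C0 s : ℝ}
    (hs0 : 0 < s) (hs1 : s < 1) (hC0 : 0 ≤ C0)
    (hμ : ∀ z r, 0 < r → μ (Metric.closedBall z r) ≤ ENNReal.ofReal (C0 * r ^ s))
    {N : ℕ} (hN : 4 ≤ N) {K : ℝ} (hK : 10 ^ 6 ≤ K) (hKC : 2 * C0 ≤ K)
    {ι : Type*} [Fintype ι] (t x : ι → ℝ) (ht : ∀ i, t i ∈ Icc (1:ℝ) 2)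
    (hinj : Function.Injective fun i => ⌊t i * N⌋) {u : ℝ} (hu : u ∈ Icc (1:ℝ) 2)
    {η : ℝ} (hη0 : 0 ≤ η)
    (hrich : ∀ i, ENNReal.ofReal η <
      (μ.prod μ) {z : ℝ × ℝ | |t i * z.1 - u * z.2 - x i| ≤ 1 / N})
    (hcard : (N / 4 : ℝ) / K ≤ Fintype.card ι) (hη : (N / 4 : ℝ) ^ (-s) / K ≤ η) :
    (N / 4 : ℝ) ≤ K ^ expE s := by
  have hN0 : 0 < N := by omega
  have hN' : (0 : ℝ) < N := by exact_mod_cast hN0
  have hN4 : (4 : ℝ) ≤ N := by exact_mod_cast hN
  have hK0 : 0 < K := by linarith [(by norm_num : (0:ℝ) < 10 ^ 6)]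
  have hu0 : 0 < u := by linarith [hu.1]
  set n : ℝ := (N : ℝ) / 4 with hn
  have hn0 : 0 < n := by positivity
  have hconf : Conf (α := Fin (N + 1)) (ι := ι) (fun p => μ.real (cel N p))
      (fun p => ((p : ℕ) : ℝ) / 4) K n s (fun i => t i / u) (fun i => -(x i / u) * n) := by
    constructor
    · exact fun i => measureReal_nonneg
    · have := sum_cel_eq (μ := μ) N Finset.univ
      rw [this]
      have h1 : Icc (0:ℝ) 1 ⊆ ⋃ p ∈ (Finset.univ : Finset (Fin (N + 1))), cel N p := by
        intro a ha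
        obtain ⟨p, hp⟩ := cel_cover (N := N) ha
        exact mem_iUnion₂.mpr ⟨p, Finset.mem_univ p, hp⟩
      have h2 : μ (Icc (0:ℝ) 1) = 1 := (prob_compl_eq_zero_iff measurableSet_Icc).mp hsupp
      have h3 : μ (⋃ p ∈ (Finset.univ : Finset (Fin (N + 1))), cel N p) = 1 :=
        le_antisymm prob_le_one (h2 ▸ measure_mono h1)
      rw [measureReal_def, h3]; simp
    · exact hs0
    · exact hs1
    · exact hK
    · rw [hn]; linarith
    · intro p
      refine ⟨by positivity, ?_⟩
      have : ((p : ℕ) : ℝ) ≤ N := by exact_mod_cast Nat.lt_succ_iff.mp p.2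
      rw [hn]; linarith
    · intro z r hr
      classical
      set T : Finset (Fin (N + 1)) := Finset.univ.filter fun p => |((p : ℕ) : ℝ) / 4 - z| ≤ r with hT
      have e1 : ∑ p : Fin (N + 1), μ.real (cel N p) * ind (|((p : ℕ) : ℝ) / 4 - z| ≤ r) =
          ∑ p ∈ T, μ.real (cel N p) := by
        rw [hT, Finset.sum_filter]
        refine Finset.sum_congr rfl fun p _ => ?_
        by_cases h : |((p : ℕ) : ℝ) / 4 - z| ≤ r
        · rw [ind_true h, mul_one, if_pos h]
        · rw [ind_false h, mul_zero, if_neg h]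
      rw [e1, sum_cel_eq]
      have h1 : (⋃ p ∈ T, cel N p) ⊆ Metric.closedBall (4 * z / N) (5 * r / N) := by
        intro a ha
        obtain ⟨p, hp, hap⟩ := mem_iUnion₂.mp ha
        have h2 : |((p : ℕ) : ℝ) / 4 - z| ≤ r := (Finset.mem_filter.mp hp).2
        have h3 := cel_near hN0 hap
        rw [Metric.mem_closedBall, Real.dist_eq]
        have e : a - 4 * z / N = (a - (p : ℕ) / N) + (4 / N) * (((p : ℕ) : ℝ) / 4 - z) := by
          field_simp
          ring
        rw [e]
        refine (abs_add_le _ _).trans ?_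
        rw [abs_mul, abs_of_pos (by positivity : (0:ℝ) < 4 / N)]
        calc |a - (p : ℕ) / N| + 4 / N * |((p : ℕ) : ℝ) / 4 - z| ≤ 1 / N + 4 / N * r :=
              add_le_add h3 (mul_le_mul_of_nonneg_left h2 (by positivity))
          _ ≤ r / N + 4 / N * r := by
              apply add_le_add _ le_rfl
              exact div_le_div_of_nonneg_right hr hN'.le
          _ = 5 * r / N := by ring
      have h4 : μ (⋃ p ∈ T, cel N p) ≤ ENNReal.ofReal (C0 * (5 * r / N) ^ s) :=
        (measure_mono h1).trans (hμ _ _ (by positivity))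
      have h5 : μ.real (⋃ p ∈ T, cel N p) ≤ C0 * (5 * r / N) ^ s := by
        rw [measureReal_def]
        exact ENNReal.toReal_le_of_le_ofReal (by positivity) h4
      refine h5.trans ?_
      have e2 : 5 * r / N = (5 / 4) * (r / n) := by rw [hn]; field_simp
      rw [e2, Real.mul_rpow (by norm_num) (by positivity), Real.div_rpow (by linarith) hn0.le,
        Real.rpow_neg hn0.le, ← div_eq_mul_inv]
      have h6 : (5 / 4 : ℝ) ^ s ≤ 2 := by
        calc (5 / 4 : ℝ) ^ s ≤ (5 / 4 : ℝ) ^ (1 : ℝ) :=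
              Real.rpow_le_rpow_of_exponent_le (by norm_num) hs1.le
          _ ≤ 2 := by rw [Real.rpow_one]; norm_num
      have h7 : 0 ≤ r ^ s / n ^ s := by positivity
      calc C0 * ((5 / 4 : ℝ) ^ s * (r ^ s / n ^ s)) ≤ C0 * (2 * (r ^ s / n ^ s)) :=
            mul_le_mul_of_nonneg_left (mul_le_mul_of_nonneg_right h6 h7) hC0
        _ = (2 * C0) * (r ^ s / n ^ s) := by ring
        _ ≤ K * (r ^ s / n ^ s) := mul_le_mul_of_nonneg_right hKC h7
    · intro i
      constructor
      · rw [div_le_div_iff₀ (by norm_num) hu0]; linarith [(ht i).1, hu.2]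
      · rw [div_le_iff₀ hu0]; linarith [(ht i).2, hu.1]
    · intro z r hr
      classical
      set T : Finset ι := Finset.univ.filter fun i => |t i / u - z| ≤ r with hT
      have e1 : ∑ i, ind (|t i / u - z| ≤ r) = (T.card : ℝ) := by
        rw [hT, Finset.card_filter]
        push_cast
        refine Finset.sum_congr rfl fun p _ => ?_
        by_cases h : |t p / u - z| ≤ r
        · rw [ind_true h, if_pos h]
        · rw [ind_false h, if_neg h]
      rw [e1]
      set aa : ℝ := u * z * N - (2 * r * N + 1) with haa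
      set bb : ℝ := u * z * N + (2 * r * N + 1) with hbb
      have hmap : ∀ i ∈ T, ⌊t i * N⌋ ∈ Finset.Icc ⌈aa⌉ ⌊bb⌋ := by
        intro i hi
        have h1 : |t i / u - z| ≤ r := (Finset.mem_filter.mp hi).2
        have h2 : |t i - u * z| ≤ 2 * r := by
          have e : t i - u * z = u * (t i / u - z) := by field_simp
          rw [e, abs_mul, abs_of_pos hu0]
          exact mul_le_mul hu.2 h1 (abs_nonneg _) (by norm_num)
        have h3 : |t i * N - u * z * N| ≤ 2 * r * N := by
          rw [← sub_mul, abs_mul, abs_of_pos hN']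
          exact mul_le_mul_of_nonneg_right h2 hN'.le
        rw [abs_le] at h3
        have h4 := Int.floor_le (t i * N)
        have h5 := Int.lt_floor_add_one (t i * N)
        rw [Finset.mem_Icc]
        constructor
        · rw [Int.ceil_le]; linarith
        · rw [Int.le_floor]; linarith
      have h6 : T.card ≤ (Finset.Icc ⌈aa⌉ ⌊bb⌋).card :=
        Finset.card_le_card_of_injOn _ hmap (hinj.injOn)
      have h7 : ((Finset.Icc ⌈aa⌉ ⌊bb⌋).card : ℝ) ≤ bb - aa + 1 := by
        rw [Int.card_Icc]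
        have h8 := Int.le_ceil aa
        have h9 := Int.floor_le bb
        have h10 : aa ≤ bb := by
          rw [haa, hbb]
          have : 0 ≤ 2 * r * N + 1 := by positivity
          linarith
        rcases le_or_gt 0 (⌊bb⌋ + 1 - ⌈aa⌉) with h | h
        · have : (((⌊bb⌋ + 1 - ⌈aa⌉).toNat : ℕ) : ℝ) = ((⌊bb⌋ + 1 - ⌈aa⌉ : ℤ) : ℝ) := by
            exact_mod_cast congrArg (Int.cast (R := ℝ)) (Int.toNat_of_nonneg h)
          rw [this]
          push_cast
          linarith
        · rw [Int.toNat_of_nonpos h.le]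
          push_cast
          linarith
      have h8 : (T.card : ℝ) ≤ bb - aa + 1 := le_trans (by exact_mod_cast h6) h7
      refine h8.trans ?_
      have e2 : bb - aa + 1 = 16 * (r * n) + 3 := by rw [haa, hbb, hn]; ring
      rw [e2]
      have h9 : 0 ≤ r * n := by positivity
      have h10 : (16 : ℝ) ≤ K := by linarith
      nlinarith
    · exact hcard
    · intro i
      refine hη.trans ?_
      classical
      set E : Set (ℝ × ℝ) := {z : ℝ × ℝ | |t i * z.1 - u * z.2 - x i| ≤ 1 / N} with hE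
      set v : ℝ := -(x i / u) * n with hv
      set Sq : Set (ℝ × ℝ) := Icc (0:ℝ) 1 ×ˢ Icc (0:ℝ) 1 with hSq
      have hnull : (μ.prod μ) Sqᶜ = 0 := by
        have h1 : Sqᶜ ⊆ ((Icc (0:ℝ) 1)ᶜ ×ˢ univ) ∪ (univ ×ˢ (Icc (0:ℝ) 1)ᶜ) := by
          intro z hz
          by_cases h : z.1 ∈ Icc (0:ℝ) 1
          · right
            exact ⟨mem_univ _, fun h2 => hz ⟨h, h2⟩⟩
          · left
            exact ⟨h, mem_univ _⟩
        refine measure_mono_null h1 (measure_union_null ?_ ?_)
        · rw [Measure.prod_prod, hsupp, zero_mul]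
        · rw [Measure.prod_prod, hsupp, mul_zero]
      have hcov : E ⊆ (⋃ p : Fin (N + 1) × Fin (N + 1),
          if |t i / u * (((p.1 : ℕ) : ℝ) / 4) + v - ((p.2 : ℕ) : ℝ) / 4| ≤ 1 then
            cel N p.1 ×ˢ cel N p.2 else ∅) ∪ Sqᶜ := by
        intro z hz
        by_cases hzs : z ∈ Sq
        · left
          obtain ⟨p, hp⟩ := cel_cover (N := N) hzs.1
          obtain ⟨q, hq⟩ := cel_cover (N := N) hzs.2
          refine mem_iUnion.mpr ⟨(p, q), ?_⟩
          have h1 := cel_near hN0 hp
          have h2 := cel_near hN0 hq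
          have h3 : |t i * z.1 - u * z.2 - x i| ≤ 1 / N := hz
          have h4 : |(t i / u) * z.1 - z.2 - x i / u| ≤ 1 / N := by
            have e : (t i / u) * z.1 - z.2 - x i / u = (t i * z.1 - u * z.2 - x i) / u := by
              field_simp
            rw [e, abs_div, abs_of_pos hu0, div_le_iff₀ hu0]
            refine h3.trans ?_
            have : 0 < 1 / (N : ℝ) := by positivity
            nlinarith [hu.1]
          have h5 : |t i / u| ≤ 2 := by
            rw [abs_of_pos (by have := (ht i).1; positivity), div_le_iff₀ hu0]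
            linarith [(ht i).2, hu.1]
          have h6 : |t i / u * (((p : ℕ) : ℝ) / 4) + v - ((q : ℕ) : ℝ) / 4| ≤ 1 := by
            have e : t i / u * (((p : ℕ) : ℝ) / 4) + v - ((q : ℕ) : ℝ) / 4 =
                n * (((t i / u) * z.1 - z.2 - x i / u) - (t i / u) * (z.1 - (p : ℕ) / N) +
                  (z.2 - (q : ℕ) / N)) := by
              rw [hv, hn]; field_simp; ring
            rw [e, abs_mul, abs_of_pos hn0]
            have h7 : |(t i / u) * (z.1 - (p : ℕ) / N)| ≤ 2 * (1 / N) := by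
              rw [abs_mul]
              exact mul_le_mul h5 h1 (abs_nonneg _) (by norm_num)
            have h8 := abs_add_le (((t i / u) * z.1 - z.2 - x i / u) -
              (t i / u) * (z.1 - (p : ℕ) / N)) (z.2 - (q : ℕ) / N)
            have h9 := abs_sub ((t i / u) * z.1 - z.2 - x i / u) ((t i / u) * (z.1 - (p : ℕ) / N))
            calc n * |((t i / u) * z.1 - z.2 - x i / u) - (t i / u) * (z.1 - (p : ℕ) / N) +
                  (z.2 - (q : ℕ) / N)| ≤ n * (4 * (1 / N)) :=
                  mul_le_mul_of_nonneg_left (by linarith) hn0.le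
              _ = 1 := by rw [hn]; field_simp
          simp only
          rw [if_pos h6]
          exact ⟨hp, hq⟩
        · right; exact hzs
      have hle : (μ.prod μ) E ≤ ∑ p : Fin (N + 1) × Fin (N + 1),
          ENNReal.ofReal (μ.real (cel N p.1) * μ.real (cel N p.2) *
            ind (|t i / u * (((p.1 : ℕ) : ℝ) / 4) + v - ((p.2 : ℕ) : ℝ) / 4| ≤ 1)) := by
        refine (measure_mono hcov).trans ((measure_union_le _ _).trans ?_)
        rw [hnull, add_zero]
        refine (measure_iUnion_fintype_le _ _).trans (Finset.sum_le_sum fun p _ => ?_)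
        by_cases h : |t i / u * (((p.1 : ℕ) : ℝ) / 4) + v - ((p.2 : ℕ) : ℝ) / 4| ≤ 1
        · rw [if_pos h, ind_true h, mul_one, Measure.prod_prod,
            ENNReal.ofReal_mul measureReal_nonneg, measureReal_def, measureReal_def,
            ENNReal.ofReal_toReal (measure_ne_top _ _), ENNReal.ofReal_toReal (measure_ne_top _ _)]
        · rw [if_neg h, measure_empty]; exact zero_le
      rw [← ENNReal.ofReal_sum_of_nonneg (fun p _ => mul_nonneg
        (mul_nonneg measureReal_nonneg measureReal_nonneg) (ind_nonneg _))] at hle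
      have h10 := (hrich i).trans_le hle
      rw [ENNReal.ofReal_lt_ofReal_iff_of_nonneg hη0] at h10
      rw [Fintype.sum_prod_type] at h10
      exact h10.le
  exact hconf.bound

end Pool.Agent.V7H80.Sum
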