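import Pool.Agent.V7H80.Sum.B6

/-!
The key estimate: the exceptional set of the last dilation is small.
-/

set_option maxHeartbeats 1000000

namespace Pool.Agent.V7H80.Sum

open MeasureTheory Set Filter Topology
open scoped ENNReal NNReal

variable {μ : Measure ℝ}

/-- rich pairs -/
def Rich (μ : Measure ℝ) (N η t u : ℝ) : Prop :=
  ∃ y, ENNReal.ofReal η < (μ.prod μ) {z : ℝ × ℝ | |t * z.1 - u * z.2 - y| ≤ 1 / N}

theorem key_aux [IsProbabilityMeasure μ] (hsupp : μ (Icc (0:ℝ) 1)ᶜ = 0) {C0 s : ℝ}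
    (hs0 : 0 < s) (hs1 : s < 1) (hC0 : 0 < C0)
    (hμ : ∀ z r, 0 < r → μ (Metric.closedBall z r) ≤ ENNReal.ofReal (C0 * r ^ s))
    {m : ℕ} {ε : ℝ} (hε : 0 < ε) (hs : s * (m + 1) = 2 - ε * (m + 1))
    (hω : ε * (m + 6) * expE s ≤ 1 / 2) {C' : ℝ} (hC' : 0 < C')
    {N : ℕ} (hN16 : 16 < N)
    (hN1 : 10 ^ 6 + 2 * C0 ≤ (N : ℝ) ^ ε)
    (hN2 : C0 / (4 * (1 / (8 * C' * CZ))) ≤ (N : ℝ) ^ ε)
    (hN3 : 4 / (1 / (8 * C' * CZ)) ≤ (N : ℝ) ^ ε)
    {G : ℝ → ℂ} (hG : Continuous G)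
    (hI : ∫ ξ, wN N ξ * ‖G ξ‖ ^ 2 ≤ C' * (N : ℝ) ^ (1 - s * m + ε)) :
    volume {t : ℝ | t ∈ Icc (1:ℝ) 2 ∧ ∃ x, (N : ℝ) ^ (-ε) < ‖FN μ G N t x‖} ≤
      ENNReal.ofReal ((N : ℝ) ^ (-ε)) := by
  by_contra hcon
  push Not at hcon
  classical
  set T : Set ℝ := {t : ℝ | t ∈ Icc (1:ℝ) 2 ∧ ∃ x, (N : ℝ) ^ (-ε) < ‖FN μ G N t x‖} with hT
  have hCZ := CZ_pos
  have hN0 : 0 < N := by omega
  have hN' : (0 : ℝ) < N := by exact_mod_cast hN0
  have hN16' : (16 : ℝ) < N := by exact_mod_cast hN16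
  have hN1' : (1 : ℝ) ≤ N := by linarith
  set lam : ℝ := (N : ℝ) ^ (-ε) with hlam
  have hlam0 : 0 < lam := Real.rpow_pos_of_pos hN' _
  set κ0 : ℝ := 1 / (8 * C' * CZ) with hκ0
  have hκ00 : 0 < κ0 := by positivity
  -- cells met by T
  let κ := {k : Fin (2 * N + 1) // ∃ t ∈ T, ⌊t * N⌋₊ = (k : ℕ)}
  set M : ℝ := (Fintype.card κ : ℝ) with hM
  have hMlow : N * lam < M := by
    have hcov : T ⊆ ⋃ k : κ, Icc (((k.1 : ℕ) : ℝ) / N) ((((k.1 : ℕ) : ℝ) + 1) / N) := by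
      intro t ht
      have ht12 := ht.1
      have h0 : 0 ≤ t * N := mul_nonneg (by linarith [ht12.1]) hN'.le
      have hlt : ⌊t * N⌋₊ < 2 * N + 1 := by
        apply Nat.lt_succ_of_le
        have h1 : t * N ≤ ((2 * N : ℕ) : ℝ) := by
          push_cast
          exact mul_le_mul_of_nonneg_right ht12.2 hN'.le
        exact (Nat.floor_le_floor h1).trans (by rw [Nat.floor_natCast])
      refine mem_iUnion.mpr ⟨⟨⟨⌊t * N⌋₊, hlt⟩, t, ht, rfl⟩, ?_⟩
      have h1 := Nat.floor_le h0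
      have h2 := Nat.lt_floor_add_one (t * N)
      simp only
      constructor
      · rw [div_le_iff₀ hN']; exact h1
      · rw [le_div_iff₀ hN']; exact h2.le
    have h1 : volume T ≤ ENNReal.ofReal (M * (1 / N)) := by
      refine (measure_mono hcov).trans ((measure_iUnion_fintype_le _ _).trans ?_)
      have h2 : ∀ k : κ, volume (Icc (((k.1 : ℕ) : ℝ) / N) ((((k.1 : ℕ) : ℝ) + 1) / N)) =
          ENNReal.ofReal (1 / N) := by
        intro k
        rw [Real.volume_Icc]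
        congr 1
        ring
      simp only [h2]
      rw [Finset.sum_const, nsmul_eq_mul, Finset.card_univ, hM,
        ENNReal.ofReal_mul (by positivity), ENNReal.ofReal_natCast]
    have h3 := hcon.trans_le h1
    rw [ENNReal.ofReal_lt_ofReal_iff_of_nonneg hlam0.le, mul_one_div, lt_div_iff₀ hN'] at h3
    linarith
  have hMpos : 0 < M := lt_trans (by positivity) hMlow
  have hch : ∀ k : κ, ∃ t x : ℝ, t ∈ Icc (1:ℝ) 2 ∧ lam < ‖FN μ G N t x‖ ∧ ⌊t * N⌋₊ = (k.1 : ℕ) := by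
    rintro ⟨k, t, ht, htk⟩
    obtain ⟨x, hx⟩ := ht.2
    exact ⟨t, x, ht.1, hx, htk⟩
  choose t x ht12 hx htk using hch
  set η : ℝ := κ0 * (N : ℝ) ^ (-s - ε * (m + 4)) with hη
  have hη0 : 0 < η := by positivity
  set B0 : ℝ := C0 * (N : ℝ) ^ (-s) with hB0
  have hB00 : 0 < B0 := by positivity
  set X : ℝ := C' * (N : ℝ) ^ (1 - s * m + ε) * (CZ * (4 * N)) with hX
  have hX0 : 0 < X := by positivity
  have hXη : X * η = lam ^ 2 / 2 := by
    have e1 : (N : ℝ) ^ (1 - s * m + ε) * N * (N : ℝ) ^ (-s - ε * (m + 4)) = lam ^ 2 := by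
      rw [hlam, ← Real.rpow_natCast ((N : ℝ) ^ (-ε)) 2, ← Real.rpow_mul hN'.le]
      nth_rewrite 2 [← Real.rpow_one (N : ℝ)]
      rw [← Real.rpow_add hN', ← Real.rpow_add hN']
      congr 1
      push_cast
      have : s * m = 2 - ε * (m + 1) - s := by linarith
      rw [this]
      ring
    rw [hX, hη, hκ0, ← e1]
    field_simp
    ring
  -- T T*
  set R : ℝ := ∑ i : κ, ∑ j : κ, ind (Rich μ N η (t j) (t i)) with hR
  have htt := tt_star (μ := μ) hG hN' t x hlam0.le (fun i => (hx i).le)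
    (fun i j => η + B0 * ind (Rich μ N η (t j) (t i)))
    (fun i j => add_nonneg hη0.le (mul_nonneg hB00.le (ind_nonneg _))) (by
      intro i j y
      by_cases hr : Rich μ N η (t j) (t i)
      · have h1 := frost_two hμ (by linarith [(ht12 j).1] : t j ≠ 0) (t i) 0 y
          (by positivity : (0:ℝ) < 1 / N)
        simp only [zero_add] at h1
        refine h1.trans (ENNReal.ofReal_le_ofReal ?_)
        rw [ind_true hr, mul_one]
        have h2 : (1 / (N : ℝ) / |t j|) ^ s ≤ (1 / (N : ℝ)) ^ s := by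
          apply Real.rpow_le_rpow (by positivity) _ hs0.le
          rw [abs_of_pos (by linarith [(ht12 j).1])]
          rw [div_le_iff₀ (by linarith [(ht12 j).1])]
          have : 0 < 1 / (N : ℝ) := by positivity
          nlinarith [(ht12 j).1]
        have h3 : (1 / (N : ℝ)) ^ s = (N : ℝ) ^ (-s) := by
          rw [one_div, Real.inv_rpow hN'.le, Real.rpow_neg hN'.le]
        rw [h3] at h2
        calc C0 * (1 / (N : ℝ) / |t j|) ^ s ≤ C0 * (N : ℝ) ^ (-s) :=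
              mul_le_mul_of_nonneg_left h2 hC0.le
          _ = B0 := rfl
          _ ≤ η + B0 := by linarith
      · rw [ind_false hr, mul_zero, add_zero]
        unfold Rich at hr
        push Not at hr
        exact hr y)
  have hsumB : ∑ i : κ, ∑ j : κ, (η + B0 * ind (Rich μ N η (t j) (t i))) = M ^ 2 * η + B0 * R := by
    simp only [Finset.sum_add_distrib, Finset.sum_const, nsmul_eq_mul, Finset.card_univ,
      ← Finset.mul_sum]
    rw [← hM, ← hR]
    ring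
  rw [hsumB] at htt
  have h1 : M ^ 2 * η ≤ B0 * R := by
    have hR0 : 0 ≤ R := Finset.sum_nonneg fun i _ => Finset.sum_nonneg fun j _ => ind_nonneg _
    have h2 : (M * lam) ^ 2 ≤ X * (M ^ 2 * η + B0 * R) := by
      refine htt.trans ?_
      rw [hX]
      have h3 : 0 ≤ CZ * (4 * N) * (M ^ 2 * η + B0 * R) := by positivity
      calc (∫ ξ, wN N ξ * ‖G ξ‖ ^ 2) * (CZ * (4 * N) * (M ^ 2 * η + B0 * R)) ≤
            (C' * (N : ℝ) ^ (1 - s * m + ε)) * (CZ * (4 * N) * (M ^ 2 * η + B0 * R)) :=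
            mul_le_mul_of_nonneg_right hI h3
        _ = _ := by ring
    have h4 : X * (M ^ 2 * η) ≤ X * (B0 * R) := by
      have e : X * (M ^ 2 * η) = M ^ 2 * (lam ^ 2 / 2) := by rw [← hXη]; ring
      have e2 : X * (M ^ 2 * η + B0 * R) = M ^ 2 * (lam ^ 2 / 2) + X * (B0 * R) := by
        rw [← hXη]; ring
      rw [e2] at h2
      rw [e]
      nlinarith
    exact le_of_mul_le_mul_left h4 hX0
  -- choose `i`
  have hne : Nonempty κ := by
    rw [← Fintype.card_pos_iff]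
    have : (0 : ℝ) < (Fintype.card κ : ℝ) := hMpos
    exact_mod_cast this
  obtain ⟨i, hi⟩ : ∃ i : κ, M * η / B0 ≤ ∑ j : κ, ind (Rich μ N η (t j) (t i)) := by
    by_contra hc
    push Not at hc
    have h2 : R < ∑ _i : κ, M * η / B0 :=
      Finset.sum_lt_sum_of_nonempty Finset.univ_nonempty fun i _ => hc i
    rw [Finset.sum_const, nsmul_eq_mul, Finset.card_univ, ← hM] at h2
    have h3 : B0 * R < B0 * (M * (M * η / B0)) := mul_lt_mul_of_pos_left h2 hB00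
    have e : B0 * (M * (M * η / B0)) = M ^ 2 * η := by field_simp
    linarith
  let ι := {j : κ // Rich μ N η (t j) (t i)}
  have hcardι : M * η / B0 ≤ (Fintype.card ι : ℝ) := by
    refine hi.trans (le_of_eq ?_)
    rw [Fintype.card_subtype, Finset.card_filter]
    push_cast
    refine Finset.sum_congr rfl fun j _ => ?_
    by_cases h : Rich μ N η (t j) (t i)
    · rw [ind_true h, if_pos h]
    · rw [ind_false h, if_neg h]
  have hchy : ∀ j : ι, ∃ y, ENNReal.ofReal η <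
      (μ.prod μ) {z : ℝ × ℝ | |t j.1 * z.1 - t i * z.2 - y| ≤ 1 / N} := fun j => j.2
  choose y hy using hchy
  set ω : ℝ := ε * (m + 6) with hωdef
  set K : ℝ := (N : ℝ) ^ ω with hKdef
  have hm0 : (0 : ℝ) ≤ m := Nat.cast_nonneg m
  have hωε : ε ≤ ω := by rw [hωdef]; nlinarith
  have hKε : (N : ℝ) ^ ε ≤ K := Real.rpow_le_rpow_of_exponent_le hN1' hωε
  have hinj : Function.Injective fun j : ι => ⌊t j.1 * N⌋ := by
    intro j1 j2 h
    have h2 : ⌊t j1.1 * N⌋₊ = ⌊t j2.1 * N⌋₊ := by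
      have h3 : ⌊t j1.1 * (N : ℝ)⌋ = ⌊t j2.1 * (N : ℝ)⌋ := h
      rw [← Int.floor_toNat, ← Int.floor_toNat, h3]
    rw [htk, htk] at h2
    exact Subtype.ext (Subtype.ext (Fin.ext h2))
  have hfin := discretise hsupp hs0 hs1 hC0.le hμ (N := N) (by omega) (K := K)
    (by linarith) (by linarith [(by norm_num : (0:ℝ) < 10 ^ 6)]) (fun j : ι => t j.1) y
    (fun j => ht12 j.1) hinj (ht12 i) hη0.le hy ?_ ?_
  · -- final contradiction
    have h2 : K ^ expE s ≤ (N : ℝ) ^ (1 / 2 : ℝ) := by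
      rw [hKdef, ← Real.rpow_mul hN'.le]
      exact Real.rpow_le_rpow_of_exponent_le hN1' hω
    have h3 : (N : ℝ) / 4 ≤ (N : ℝ) ^ (1 / 2 : ℝ) := hfin.trans h2
    have h4 : (N : ℝ) ^ (1 / 2 : ℝ) * (N : ℝ) ^ (1 / 2 : ℝ) = N := by
      rw [← Real.rpow_add hN']; norm_num
    have h5 : 0 < (N : ℝ) ^ (1 / 2 : ℝ) := Real.rpow_pos_of_pos hN' _
    have h6 : 4 < (N : ℝ) ^ (1 / 2 : ℝ) := by
      by_contra hc
      push Not at hc
      nlinarith
    nlinarith
  · -- card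
    refine le_trans ?_ hcardι
    have h2 : N * lam * η / B0 ≤ M * η / B0 := by
      apply div_le_div_of_nonneg_right _ hB00.le
      exact mul_le_mul_of_nonneg_right hMlow.le hη0.le
    refine le_trans ?_ h2
    have e1 : N * lam * η / B0 = (κ0 / C0) * ((N : ℝ) ^ (1 - ε * (m + 5))) := by
      have e2 : (N : ℝ) ^ (1 - ε * (m + 5)) * (N : ℝ) ^ (-s) =
          N * (N : ℝ) ^ (-ε) * (N : ℝ) ^ (-s - ε * (m + 4)) := by
        nth_rewrite 3 [← Real.rpow_one (N : ℝ)]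
        rw [← Real.rpow_add hN', ← Real.rpow_add hN', ← Real.rpow_add hN']
        congr 1
        ring
      have h3 : (N : ℝ) ^ (-s) ≠ 0 := (Real.rpow_pos_of_pos hN' _).ne'
      rw [hη, hB0, hlam, div_eq_iff (by positivity)]
      have e3 : κ0 / C0 * (N : ℝ) ^ (1 - ε * (m + 5)) * (C0 * (N : ℝ) ^ (-s)) =
          κ0 * ((N : ℝ) ^ (1 - ε * (m + 5)) * (N : ℝ) ^ (-s)) := by
        field_simp
      rw [e3, e2]
      ring
    have e4 : (N : ℝ) / 4 / K = (1 / 4) * ((N : ℝ) ^ (1 - ε * (m + 5)) * (N : ℝ) ^ (-ε)) := by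
      rw [hKdef, hωdef]
      have e5 : (N : ℝ) ^ (1 - ε * (m + 5)) * (N : ℝ) ^ (-ε) * (N : ℝ) ^ (ε * (m + 6)) = N := by
        rw [← Real.rpow_add hN', ← Real.rpow_add hN']
        have : 1 - ε * (↑m + 5) + -ε + ε * (↑m + 6) = 1 := by ring
        rw [this, Real.rpow_one]
      rw [div_eq_iff (by positivity)]
      linarith
    rw [e1, e4]
    have h5 : (N : ℝ) ^ (-ε) ≤ 4 * κ0 / C0 := by
      rw [Real.rpow_neg hN'.le]
      rw [inv_le_comm₀ (by positivity) (by positivity)]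
      refine le_trans (le_of_eq ?_) hN2
      field_simp
    have h6 : 0 ≤ (N : ℝ) ^ (1 - ε * (m + 5)) := by positivity
    calc (1 / 4) * ((N : ℝ) ^ (1 - ε * (m + 5)) * (N : ℝ) ^ (-ε)) ≤
          (1 / 4) * ((N : ℝ) ^ (1 - ε * (m + 5)) * (4 * κ0 / C0)) := by
          refine mul_le_mul_of_nonneg_left (mul_le_mul_of_nonneg_left h5 h6) (by norm_num)
      _ = _ := by ring
  · -- mass
    rw [hKdef, hωdef, hη, div_le_iff₀ (by positivity), Real.div_rpow hN'.le (by norm_num)]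
    have e1 : κ0 * (N : ℝ) ^ (-s - ε * (m + 4)) * (N : ℝ) ^ (ε * (m + 6)) =
        κ0 * ((N : ℝ) ^ (-s) * ((N : ℝ) ^ ε * (N : ℝ) ^ ε)) := by
      rw [mul_assoc, ← Real.rpow_add hN', ← Real.rpow_add hN', ← Real.rpow_add hN']
      congr 2
      ring
    rw [e1]
    have h2 : (4 : ℝ) ^ (-s) ≥ 1 / 4 := by
      rw [Real.rpow_neg (by norm_num), ← one_div]
      apply one_div_le_one_div_of_le (by positivity)
      calc (4 : ℝ) ^ s ≤ (4 : ℝ) ^ (1 : ℝ) := Real.rpow_le_rpow_of_exponent_le (by norm_num) hs1.le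
        _ = 4 := Real.rpow_one _
    have h3 : 0 < (N : ℝ) ^ (-s) := Real.rpow_pos_of_pos hN' _
    have h4 : (N : ℝ) ^ (-s) / (4 : ℝ) ^ (-s) ≤ 4 * (N : ℝ) ^ (-s) := by
      rw [div_le_iff₀ (by positivity)]
      nlinarith
    refine h4.trans ?_
    have h5 : 4 ≤ κ0 * (N : ℝ) ^ ε := by
      rw [div_le_iff₀ hκ00] at hN3
      linarith
    have h6 : 1 ≤ (N : ℝ) ^ ε := Real.one_le_rpow hN1' hε.le
    have h7 : 4 ≤ κ0 * ((N : ℝ) ^ ε * (N : ℝ) ^ ε) := by nlinarith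
    calc 4 * (N : ℝ) ^ (-s) ≤ (κ0 * ((N : ℝ) ^ ε * (N : ℝ) ^ ε)) * (N : ℝ) ^ (-s) :=
          mul_le_mul_of_nonneg_right h7 h3.le
      _ = _ := by ring

end Pool.Agent.V7H80.Sum
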