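import Pool.Agent.V7H80.Sum.B5

/-!
The interior criterion.
-/

set_option maxHeartbeats 1000000

namespace Pool.Agent.V7H80.Sum

open MeasureTheory Set Filter Topology
open scoped ENNReal NNReal

variable {μ : Measure ℝ}

/-- smoothed density -/
noncomputable def DD (μ : Measure ℝ) {d : ℕ} (t : Fin d → ℝ) (L x : ℝ) : ℝ :=
  ∫ a : Fin d → ℝ, phi L (x - ∑ i, t i * a i) ∂(Measure.pi fun _ : Fin d => μ)

lemma ex_sum {ι : Type*} (s : Finset ι) (f : ι → ℝ) : ex (∑ i ∈ s, f i) = ∏ i ∈ s, ex (f i) := by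
  unfold ex
  rw [← Complex.exp_sum]
  push_cast
  rw [Finset.sum_mul]

lemma DD_eq [IsProbabilityMeasure μ] {d : ℕ} (t : Fin d → ℝ) {L : ℝ} (hL : 0 < L) (x : ℝ) :
    (DD μ t L x : ℂ) =
      ∫ ξ, (tri L ξ : ℂ) * (ex (ξ * x) * ∏ i, (starRingEnd ℂ) (cm μ (ξ * t i))) := by
  have h1 := fubini_ex (Measure.pi fun _ : Fin d => μ) (h := fun a => x - ∑ i, t i * a i)
    (by fun_prop) ((continuous_tri L).integrable_of_hasCompactSupport (tri_compact hL))
  have h2 : ∫ a : Fin d → ℝ, (∫ ξ, (tri L ξ : ℂ) * ex (ξ * (x - ∑ i, t i * a i)))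
      ∂(Measure.pi fun _ : Fin d => μ) = (DD μ t L x : ℂ) := by
    unfold DD
    rw [← integral_complex_ofReal]
    refine integral_congr_ae (Eventually.of_forall fun a => ?_)
    simp only
    rw [phi_complex L hL]
  rw [← h2, ← h1]
  refine integral_congr_ae (Eventually.of_forall fun ξ => ?_)
  simp only
  congr 1
  have h3 : ∀ a : Fin d → ℝ, ex (ξ * (x - ∑ i, t i * a i)) =
      ex (ξ * x) * ∏ i, ex (-(ξ * t i) * a i) := by
    intro a
    rw [← ex_sum, ← ex_add]
    congr 1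
    rw [mul_sub, Finset.mul_sum, sub_eq_add_neg, ← Finset.sum_neg_distrib]
    congr 1
    refine Finset.sum_congr rfl fun i _ => ?_
    ring
  simp only [h3]
  rw [integral_const_mul, integral_fintype_prod_eq_prod (fun i (a : ℝ) => ex (-(ξ * t i) * a))]
  congr 1
  refine Finset.prod_congr rfl fun i _ => ?_
  rw [cm_conj]
  rfl

lemma DD_diff [IsProbabilityMeasure μ] {m : ℕ} (t' : Fin m → ℝ) (τ : ℝ) {N : ℝ} (hN : 0 < N)
    (x : ℝ) :
    ((DD μ (Fin.cons τ t' : Fin (m + 1) → ℝ) (2 * N) x -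
      DD μ (Fin.cons τ t' : Fin (m + 1) → ℝ) N x : ℝ) : ℂ) =
      FN μ (fun ξ => ∏ i, (starRingEnd ℂ) (cm μ (ξ * t' i))) N τ x := by
  push_cast
  rw [DD_eq _ (by linarith : 0 < 2 * N), DD_eq _ hN]
  have hcm := continuous_cm (μ := μ)
  have hex := continuous_ex
  have hc : Continuous fun ξ => (ex (ξ * x) *
      ∏ i, (starRingEnd ℂ) (cm μ (ξ * (Fin.cons τ t' : Fin (m + 1) → ℝ) i))) := by
    have h1 : ∀ i, Continuous fun ξ =>
        (starRingEnd ℂ) (cm μ (ξ * (Fin.cons τ t' : Fin (m + 1) → ℝ) i)) := fun i =>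
      Complex.continuous_conj.comp (by fun_prop)
    have h2 : Continuous fun ξ : ℝ => ex (ξ * x) := by fun_prop
    exact h2.mul (continuous_finsetProd _ fun i _ => h1 i)
  have hint : ∀ L : ℝ, 0 < L → Integrable fun ξ => (tri L ξ : ℂ) * (ex (ξ * x) *
      ∏ i, (starRingEnd ℂ) (cm μ (ξ * (Fin.cons τ t' : Fin (m + 1) → ℝ) i))) := by
    intro L hL
    have htc := continuous_tri L
    have h1 : Continuous fun ξ => (tri L ξ : ℂ) := by fun_prop
    apply (h1.mul hc).integrable_of_hasCompactSupport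
    exact ((tri_compact hL).comp_left (g := fun x : ℝ => (x : ℂ)) Complex.ofReal_zero).mul_right
  rw [← integral_sub (hint _ (by linarith)) (hint _ hN)]
  unfold FN
  refine integral_congr_ae (Eventually.of_forall fun ξ => ?_)
  simp only [Fin.prod_univ_succ, Fin.cons_zero, Fin.cons_succ, wN]
  push_cast
  ring

lemma DD_continuous [IsProbabilityMeasure μ] {d : ℕ} (t : Fin d → ℝ) {L : ℝ} (hL : 0 < L) :
    Continuous (DD μ t L) := by
  unfold DD
  have hp := continuous_phi hL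
  apply continuous_of_dominated (bound := fun _ => L)
  · intro x
    exact (by fun_prop : Continuous fun a : Fin d → ℝ =>
      phi L (x - ∑ i, t i * a i)).aestronglyMeasurable
  · intro x
    refine Eventually.of_forall fun a => ?_
    rw [Real.norm_of_nonneg (phi_nonneg hL _)]
    exact phi_le_L hL _
  · exact integrable_const L
  · exact Eventually.of_forall fun a => by fun_prop

lemma pi_ae [IsProbabilityMeasure μ] {d : ℕ} {K : Set ℝ} (hK : μ Kᶜ = 0) :
    ∀ᵐ a ∂(Measure.pi fun _ : Fin d => μ), ∀ i, a i ∈ K := by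
  rw [ae_all_iff]
  intro i
  have h1 : ∀ᵐ y ∂μ, y ∈ K := by
    rw [ae_iff]; exact hK
  exact (Measure.quasiMeasurePreserving_eval (fun _ : Fin d => μ) i).ae h1

lemma DD_lower [IsProbabilityMeasure μ] (hsupp : μ (Icc (0:ℝ) 1)ᶜ = 0) {d : ℕ} (t : Fin d → ℝ)
    (ht : ∀ i, t i ∈ Icc (1:ℝ) 2) {N : ℕ} (hN : 0 < N) :
    ∃ x, 1 / (2 * (2 * d + 1)) ≤ DD μ t N x := by
  have hN' : (0 : ℝ) < N := by exact_mod_cast hN
  have hN1 : (1 : ℝ) ≤ N := by exact_mod_cast hN
  set P : Measure (Fin d → ℝ) := Measure.pi fun _ : Fin d => μ with hP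
  set S : (Fin d → ℝ) → ℝ := fun a => ∑ i, t i * a i with hS
  have hSm : Measurable S := by fun_prop
  have hcell : ∀ k : ℕ, MeasurableSet {a : Fin d → ℝ | 0 ≤ S a ∧ ⌊S a * N⌋₊ = k} := by
    intro k
    have h1 : Measurable fun a => ⌊S a * N⌋₊ := Nat.measurable_floor.comp (by fun_prop)
    exact (measurableSet_le measurable_const hSm).inter (h1 (measurableSet_singleton k))
  have hcov : P (⋃ k : Fin (2 * d * N + 1), {a : Fin d → ℝ | 0 ≤ S a ∧ ⌊S a * N⌋₊ = (k : ℕ)}) = 1 := by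
    have h1 : ∀ᵐ a ∂P, a ∈ ⋃ k : Fin (2 * d * N + 1),
        {a : Fin d → ℝ | 0 ≤ S a ∧ ⌊S a * N⌋₊ = (k : ℕ)} := by
      filter_upwards [pi_ae (d := d) hsupp] with a ha
      have h0 : 0 ≤ S a := Finset.sum_nonneg fun i _ =>
        mul_nonneg (by linarith [(ht i).1]) (ha i).1
      have h2 : S a ≤ 2 * d := by
        calc S a ≤ ∑ _i : Fin d, (2 : ℝ) := Finset.sum_le_sum fun i _ => by
              have := (ht i).2
              have := (ht i).1
              have := (ha i).1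
              have := (ha i).2
              nlinarith
          _ = 2 * d := by simp; ring
      have h3 : ⌊S a * N⌋₊ < 2 * d * N + 1 := by
        apply Nat.lt_succ_of_le
        have h4 : S a * N ≤ ((2 * d * N : ℕ) : ℝ) := by
          push_cast
          exact mul_le_mul_of_nonneg_right h2 hN'.le
        exact (Nat.floor_le_floor h4).trans (by rw [Nat.floor_natCast])
      exact mem_iUnion.mpr ⟨⟨_, h3⟩, h0, rfl⟩
    have h2 := prob_compl_eq_zero_iff (μ := P) (MeasurableSet.iUnion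
      fun k : Fin (2 * d * N + 1) => hcell k)
    rw [← h2]
    exact h1
  obtain ⟨k, hk⟩ : ∃ k : Fin (2 * d * N + 1), 1 / ((2 * d + 1) * N : ℝ) ≤
      P.real {a : Fin d → ℝ | 0 ≤ S a ∧ ⌊S a * N⌋₊ = (k : ℕ)} := by
    by_contra hc
    push Not at hc
    have h1 : ∑ k : Fin (2 * d * N + 1), P.real {a : Fin d → ℝ | 0 ≤ S a ∧ ⌊S a * N⌋₊ = (k : ℕ)} <
        ∑ _k : Fin (2 * d * N + 1), 1 / ((2 * d + 1) * N : ℝ) :=
      Finset.sum_lt_sum_of_nonempty Finset.univ_nonempty fun k _ => hc k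
    rw [Finset.sum_const, nsmul_eq_mul, Finset.card_univ, Fintype.card_fin] at h1
    have h2 : (1 : ℝ) ≤ ∑ k : Fin (2 * d * N + 1),
        P.real {a : Fin d → ℝ | 0 ≤ S a ∧ ⌊S a * N⌋₊ = (k : ℕ)} := by
      have h3 : P.real (⋃ k : Fin (2 * d * N + 1),
          {a : Fin d → ℝ | 0 ≤ S a ∧ ⌊S a * N⌋₊ = (k : ℕ)}) = 1 := by
        rw [measureReal_def, hcov]; simp
      rw [← h3]
      exact measureReal_iUnion_fintype_le _
    have h4 : (((2 * d * N + 1 : ℕ) : ℝ)) * (1 / ((2 * d + 1) * N : ℝ)) ≤ 1 := by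
      rw [mul_one_div, div_le_one (by positivity)]
      push_cast
      nlinarith
    linarith
  refine ⟨(k : ℕ) / N, ?_⟩
  unfold DD
  have hphic := continuous_phi hN'
  have hint : Integrable (fun a : Fin d → ℝ => phi N ((k : ℕ) / N - ∑ i, t i * a i)) P := by
    apply Integrable.of_bound (C := (N : ℝ))
    · exact (by fun_prop : Continuous fun a : Fin d → ℝ =>
        phi N ((k : ℕ) / N - ∑ i, t i * a i)).aestronglyMeasurable
    · refine Eventually.of_forall fun a => ?_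
      rw [Real.norm_of_nonneg (phi_nonneg hN' _)]
      exact phi_le_L hN' _
  calc 1 / (2 * (2 * d + 1)) = (N / 2 : ℝ) * (1 / ((2 * d + 1) * N : ℝ)) := by field_simp
    _ ≤ (N / 2 : ℝ) * P.real {a : Fin d → ℝ | 0 ≤ S a ∧ ⌊S a * N⌋₊ = (k : ℕ)} :=
        mul_le_mul_of_nonneg_left hk (by positivity)
    _ = ∫ _a in {a : Fin d → ℝ | 0 ≤ S a ∧ ⌊S a * N⌋₊ = (k : ℕ)}, (N / 2 : ℝ) ∂P := by
        rw [setIntegral_const, smul_eq_mul, mul_comm]
    _ ≤ ∫ a in {a : Fin d → ℝ | 0 ≤ S a ∧ ⌊S a * N⌋₊ = (k : ℕ)},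
          phi N ((k : ℕ) / N - ∑ i, t i * a i) ∂P := by
        apply setIntegral_mono_on
        · exact (integrable_const _).integrableOn
        · exact hint.integrableOn
        · exact hcell k
        · rintro a ⟨h0, hak⟩
          apply phi_ge hN'
          have h0' : 0 ≤ S a * N := mul_nonneg h0 hN'.le
          have h1 := Nat.floor_le h0'
          have h2 := Nat.lt_floor_add_one (S a * N)
          rw [hak] at h1 h2
          have e : ((k : ℕ) : ℝ) / N - ∑ i, t i * a i = ((k : ℕ) - S a * N) / N := by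
            rw [hS]; field_simp
          rw [e, abs_div, abs_of_pos hN']
          apply div_le_div_of_nonneg_right _ hN'.le
          rw [abs_le]; constructor <;> linarith
    _ ≤ ∫ a, phi N ((k : ℕ) / N - ∑ i, t i * a i) ∂P :=
        setIntegral_le_integral hint (Eventually.of_forall fun a => phi_nonneg hN' _)

theorem interior_criterion [IsProbabilityMeasure μ] {K : Set ℝ} (hK : IsCompact K)
    (hK01 : K ⊆ Icc (0:ℝ) 1) (hμK : μ Kᶜ = 0) {d : ℕ} (t : Fin d → ℝ)
    (ht : ∀ i, t i ∈ Icc (1:ℝ) 2) {ρ : ℝ} (hρ0 : 0 < ρ) (hρ1 : ρ < 1) (j1 : ℕ)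
    (hj : ∀ j, j1 ≤ j → ∀ x, |DD μ t (2 ^ (j + 1)) x - DD μ t (2 ^ j) x| ≤ ρ ^ j) :
    ∃ U : Set ℝ, IsOpen U ∧ U.Nonempty ∧
      U ⊆ {x | ∃ a : Fin d → ℝ, (∀ i, a i ∈ K) ∧ x = ∑ i, t i * a i} := by
  have hsupp : μ (Icc (0:ℝ) 1)ᶜ = 0 := measure_mono_null (compl_subset_compl.mpr hK01) hμK
  set c0 : ℝ := 1 / (2 * (2 * d + 1)) with hc0
  have hc00 : 0 < c0 := by positivity
  have h1ρ : 0 < 1 - ρ := by linarith
  -- choose J
  obtain ⟨J, hJ1, hJ2⟩ : ∃ J, j1 ≤ J ∧ ρ ^ J / (1 - ρ) ≤ c0 / 4 := by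
    have h1 : Tendsto (fun J => ρ ^ J / (1 - ρ)) atTop (𝓝 0) := by
      have := (tendsto_pow_atTop_nhds_zero_of_lt_one hρ0.le hρ1).div_const (1 - ρ)
      simpa using this
    have h2 := (h1.eventually (gt_mem_nhds (by positivity : 0 < c0 / 4))).and
      (eventually_ge_atTop j1)
    obtain ⟨J, hJ1, hJ2⟩ := h2.exists
    exact ⟨J, hJ2, hJ1.le⟩
  have htel : ∀ k x, |DD μ t (2 ^ (J + k)) x - DD μ t (2 ^ J) x| ≤
      ρ ^ J * (1 - ρ ^ k) / (1 - ρ) := by
    intro k x
    induction k with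
    | zero => simp
    | succ k ih =>
      have h1 := hj (J + k) (by omega) x
      have h2 : |DD μ t (2 ^ (J + (k + 1))) x - DD μ t (2 ^ J) x| ≤
          |DD μ t (2 ^ (J + k + 1)) x - DD μ t (2 ^ (J + k)) x| +
          |DD μ t (2 ^ (J + k)) x - DD μ t (2 ^ J) x| := by
        have := abs_add_le (DD μ t (2 ^ (J + k + 1)) x - DD μ t (2 ^ (J + k)) x)
          (DD μ t (2 ^ (J + k)) x - DD μ t (2 ^ J) x)
        rwa [sub_add_sub_cancel] at this
      refine h2.trans ((add_le_add h1 ih).trans (le_of_eq ?_))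
      rw [pow_add, pow_succ]
      field_simp
      ring
  have htel' : ∀ k x, DD μ t (2 ^ J) x - c0 / 4 ≤ DD μ t (2 ^ (J + k)) x := by
    intro k x
    have h1 := htel k x
    have h2 : ρ ^ J * (1 - ρ ^ k) / (1 - ρ) ≤ ρ ^ J / (1 - ρ) := by
      apply div_le_div_of_nonneg_right _ h1ρ.le
      have : 0 < ρ ^ k := by positivity
      have : 0 < ρ ^ J := by positivity
      nlinarith
    rw [abs_le] at h1
    linarith [h1.1]
  have h2J : (0 : ℝ) < 2 ^ J := by positivity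
  refine ⟨{x | c0 / 2 < DD μ t (2 ^ J) x}, ?_, ?_, ?_⟩
  · exact isOpen_lt continuous_const (DD_continuous t h2J)
  · obtain ⟨x, hx⟩ := DD_lower hsupp t ht (N := 2 ^ J) (by positivity)
    refine ⟨x, ?_⟩
    push_cast at hx
    show c0 / 2 < DD μ t (2 ^ J) x
    rw [← hc0] at hx
    linarith
  · intro x hx
    have hx' : c0 / 2 < DD μ t (2 ^ J) x := hx
    by_contra hcon
    -- the sumset is compact
    set Z : Set ℝ := {x | ∃ a : Fin d → ℝ, (∀ i, a i ∈ K) ∧ x = ∑ i, t i * a i} with hZ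
    have hZc : IsCompact Z := by
      have h1 : Z = (fun a : Fin d → ℝ => ∑ i, t i * a i) '' (Set.pi univ fun _ => K) := by
        ext y
        simp only [hZ, mem_ofPred_eq, mem_image, Set.mem_pi, mem_univ, true_imp_iff]
        constructor
        · rintro ⟨a, ha, rfl⟩
          exact ⟨a, ha, rfl⟩
        · rintro ⟨a, ha, rfl⟩
          exact ⟨a, ha, rfl⟩
      rw [h1]
      exact (isCompact_univ_pi fun _ => hK).image (by fun_prop)
    obtain ⟨δ, hδ0, hδ⟩ := Metric.isOpen_iff.mp hZc.isClosed.isOpen_compl x hcon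
    have hup : ∀ k : ℕ, DD μ t (2 ^ (J + k)) x ≤ 4 / ((2 : ℝ) ^ (J + k) * δ ^ 2) := by
      intro k
      have hL : (0 : ℝ) < 2 ^ (J + k) := by positivity
      unfold DD
      have h1 : ∀ᵐ a ∂(Measure.pi fun _ : Fin d => μ),
          ‖phi (2 ^ (J + k)) (x - ∑ i, t i * a i)‖ ≤ 4 / ((2 : ℝ) ^ (J + k) * δ ^ 2) := by
        filter_upwards [pi_ae (d := d) hμK] with a ha
        rw [Real.norm_of_nonneg (phi_nonneg hL _), le_div_iff₀ (by positivity)]
        have h2 : δ ≤ |x - ∑ i, t i * a i| := by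
          by_contra hc
          push Not at hc
          have h3 : ∑ i, t i * a i ∈ Metric.ball x δ := by
            rw [Metric.mem_ball, Real.dist_eq, abs_sub_comm]; exact hc
          exact hδ h3 ⟨a, ha, rfl⟩
        have h4 : δ ^ 2 ≤ (x - ∑ i, t i * a i) ^ 2 := by
          rw [← sq_abs (x - ∑ i, t i * a i)]
          exact pow_le_pow_left₀ hδ0.le h2 2
        have h5 := phi_mul_sq_le hL (x - ∑ i, t i * a i)
        have h6 := phi_nonneg hL (x - ∑ i, t i * a i)
        refine le_trans ?_ h5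
        exact mul_le_mul_of_nonneg_left (mul_le_mul_of_nonneg_left h4 hL.le) h6
      have h2 := norm_integral_le_of_norm_le_const h1
      refine (le_abs_self _).trans (h2.trans ?_)
      simp
    have hlim : Tendsto (fun k : ℕ => 4 / ((2 : ℝ) ^ (J + k) * δ ^ 2)) atTop (𝓝 0) := by
      have h1 : Tendsto (fun k : ℕ => (4 / (2 ^ J * δ ^ 2)) * ((1 / 2 : ℝ) ^ k)) atTop (𝓝 0) := by
        have := (tendsto_pow_atTop_nhds_zero_of_lt_one (by norm_num : (0:ℝ) ≤ 1/2)
          (by norm_num : (1/2 : ℝ) < 1)).const_mul (4 / ((2:ℝ) ^ J * δ ^ 2))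
        simpa using this
      refine h1.congr fun k => ?_
      rw [pow_add, one_div, inv_pow]
      field_simp
    obtain ⟨k, hk⟩ := (hlim.eventually (gt_mem_nhds (by positivity : 0 < c0 / 4))).exists
    have h1 := htel' k x
    have h2 := hup k
    linarith

end Pool.Agent.V7H80.Sum
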