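import Pool.Agent.V7H80.Sum.A4
import Pool.Agent.V7H80.Sum.B7
import Pool.Agent.V7H80.Sum.B8

/-!
Assembly: measures on the unit interval.
-/

set_option maxHeartbeats 1000000

namespace Pool.Agent.V7H80.Sum

open MeasureTheory Set Filter Topology
open scoped ENNReal NNReal

theorem measure_case {μ : Measure ℝ} [IsProbabilityMeasure μ] {K : Set ℝ} (hK : IsCompact K)
    (hK01 : K ⊆ Icc (0:ℝ) 1) (hμK : μ Kᶜ = 0) {C0 s : ℝ}
    (hs0 : 0 < s) (hs1 : s < 1) (hC0 : 0 < C0)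
    (hμ : ∀ z r, 0 < r → μ (Metric.closedBall z r) ≤ ENNReal.ofReal (C0 * r ^ s))
    {m : ℕ} {ε : ℝ} (hε : 0 < ε) (hs : s * (m + 1) = 2 - ε * (m + 1))
    (hω : ε * (m + 6) * expE s ≤ 1 / 2) :
    ∃ t : Fin (m + 1) → ℝ, (∀ i, t i ∈ Icc (1:ℝ) 2) ∧ ∃ U : Set ℝ, IsOpen U ∧ U.Nonempty ∧
      U ⊆ {x | ∃ a : Fin (m + 1) → ℝ, (∀ i, a i ∈ K) ∧ x = ∑ i, t i * a i} := by
  have hsupp : μ (Icc (0:ℝ) 1)ᶜ = 0 := measure_mono_null (compl_subset_compl.mpr hK01) hμK
  have hm0 : (0 : ℝ) ≤ m := Nat.cast_nonneg m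
  have hsm : s * m < 2 := by nlinarith
  obtain ⟨C', hC', t', ht', hgood⟩ := exists_good hC0.le hμ m hsm hε
  set G : ℝ → ℂ := fun ξ => ∏ i, (starRingEnd ℂ) (cm μ (ξ * t' i)) with hG
  have hcm := continuous_cm (μ := μ)
  have hGc : Continuous G := by
    rw [hG]
    refine continuous_finsetProd _ fun i _ => ?_
    exact Complex.continuous_conj.comp (by fun_prop)
  have hGn : ∀ ξ, ‖G ξ‖ ^ 2 = ∏ i, ‖cm μ (t' i * ξ)‖ ^ 2 := by
    intro ξ
    simp only [hG]
    rw [norm_prod, ← Finset.prod_pow]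
    refine Finset.prod_congr rfl fun i _ => ?_
    rw [RCLike.norm_conj, mul_comm]
  set ρ : ℝ := (2 : ℝ) ^ (-ε) with hρ
  have hρ0 : 0 < ρ := by positivity
  have hρ1 : ρ < 1 := Real.rpow_lt_one_of_one_lt_of_neg (by norm_num) (by linarith)
  have h1ρ : 0 < 1 - ρ := by linarith
  have hρj : ∀ j : ℕ, ((2 : ℝ) ^ j) ^ (-ε) = ρ ^ j := by
    intro j
    rw [hρ, ← Real.rpow_natCast, ← Real.rpow_natCast, ← Real.rpow_mul (by norm_num),
      ← Real.rpow_mul (by norm_num), mul_comm]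
  -- large j
  have hbig : ∀ c : ℝ, ∀ᶠ j : ℕ in atTop, c ≤ (((2 : ℝ) ^ j)) ^ ε := by
    intro c
    have h1 : Tendsto (fun j : ℕ => ((2 : ℝ) ^ ε) ^ j) atTop atTop :=
      tendsto_pow_atTop_atTop_of_one_lt (Real.one_lt_rpow (by norm_num) hε)
    filter_upwards [h1.eventually_ge_atTop c] with j hj
    refine hj.trans (le_of_eq ?_)
    rw [← Real.rpow_natCast, ← Real.rpow_natCast, ← Real.rpow_mul (by norm_num),
      ← Real.rpow_mul (by norm_num), mul_comm]
  have hρlim : ∀ᶠ j : ℕ in atTop, ρ ^ j / (1 - ρ) < 1 := by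
    have h1 : Tendsto (fun J => ρ ^ J / (1 - ρ)) atTop (𝓝 0) := by
      have := (tendsto_pow_atTop_nhds_zero_of_lt_one hρ0.le hρ1).div_const (1 - ρ)
      simpa using this
    exact h1.eventually (gt_mem_nhds zero_lt_one)
  obtain ⟨j0, hj0⟩ := ((hbig (10 ^ 6 + 2 * C0)).and
    ((hbig (C0 / (4 * (1 / (8 * C' * CZ))))).and (hbig (4 / (1 / (8 * C' * CZ)))))).exists_forall_of_atTop
  obtain ⟨j1, hj1a, hj1b⟩ : ∃ j1, max j0 5 ≤ j1 ∧ ρ ^ j1 / (1 - ρ) < 1 := by
    obtain ⟨j1, h1, h2⟩ := ((eventually_ge_atTop (max j0 5)).and hρlim).exists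
    exact ⟨j1, h1, h2⟩
  set T : ℕ → Set ℝ := fun j => {t : ℝ | t ∈ Icc (1:ℝ) 2 ∧ ∃ x, ρ ^ j < ‖FN μ G (2 ^ j) t x‖} with hT
  have hTj : ∀ j, j1 ≤ j → volume (T j) ≤ ENNReal.ofReal (ρ ^ j) := by
    intro j hj
    obtain ⟨h1, h2, h3⟩ := hj0 j ((le_max_left _ _).trans (hj1a.trans hj))
    have h5 : 5 ≤ j := (le_max_right _ _).trans (hj1a.trans hj)
    have h16 : 16 < 2 ^ j := by
      calc 16 < 2 ^ 5 := by norm_num
        _ ≤ 2 ^ j := Nat.pow_le_pow_right (by norm_num) h5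
    have hcast : (((2 ^ j : ℕ)) : ℝ) = (2 : ℝ) ^ j := by push_cast; rfl
    have hk := key_aux (μ := μ) hsupp hs0 hs1 hC0 hμ hε hs hω hC' (N := 2 ^ j) h16
      (by rw [hcast]; exact h1) (by rw [hcast]; exact h2) (by rw [hcast]; exact h3)
      (G := G) hGc (by
        rw [hcast]
        simp only [hGn]
        exact hgood j)
    rw [hcast, hρj] at hk
    exact hk
  -- choose τ
  obtain ⟨τ, hτ, hτT⟩ : ∃ τ ∈ Icc (1:ℝ) 2, ∀ j, j1 ≤ j → τ ∉ T j := by
    by_contra hcon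
    push Not at hcon
    have h1 : Icc (1:ℝ) 2 ⊆ ⋃ k : ℕ, T (j1 + k) := by
      intro τ hτ
      obtain ⟨j, hj, hjT⟩ := hcon τ hτ
      obtain ⟨k, rfl⟩ := Nat.exists_eq_add_of_le hj
      exact mem_iUnion.mpr ⟨k, hjT⟩
    have h2 : volume (⋃ k : ℕ, T (j1 + k)) ≤ ENNReal.ofReal (ρ ^ j1 / (1 - ρ)) := by
      refine (measure_iUnion_le _).trans ?_
      calc ∑' k, volume (T (j1 + k)) ≤ ∑' k : ℕ, ENNReal.ofReal (ρ ^ j1 * ρ ^ k) := by
            refine ENNReal.tsum_le_tsum fun k => ?_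
            rw [← pow_add]
            exact hTj _ (by omega)
        _ = ENNReal.ofReal (ρ ^ j1 / (1 - ρ)) := by
            rw [← ENNReal.ofReal_tsum_of_nonneg (fun k => by positivity)
              ((summable_geometric_of_lt_one hρ0.le hρ1).mul_left _), tsum_mul_left,
              tsum_geometric_of_lt_one hρ0.le hρ1, div_eq_mul_inv]
    have h3 := (measure_mono h1).trans h2
    rw [Real.volume_Icc] at h3
    rw [ENNReal.ofReal_le_ofReal_iff (by positivity)] at h3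
    linarith
  refine ⟨Fin.cons τ t', ?_, ?_⟩
  · intro i
    refine Fin.cases ?_ (fun i => ?_) i
    · rw [Fin.cons_zero]; exact hτ
    · rw [Fin.cons_succ]; exact ht' i
  · apply interior_criterion hK hK01 hμK (Fin.cons τ t') _ hρ0 hρ1 j1
    · intro j hj x
      have h2j : (0 : ℝ) < 2 ^ j := by positivity
      have h1 := DD_diff (μ := μ) t' τ h2j x
      have h2 : ‖FN μ G (2 ^ j) τ x‖ ≤ ρ ^ j := by
        by_contra hc
        push Not at hc
        exact hτT j hj ⟨hτ, x, hc⟩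
      rw [pow_succ, mul_comm ((2:ℝ) ^ j) 2]
      rw [← Real.norm_eq_abs, ← Complex.norm_real, h1]
      exact h2
    · intro i
      refine Fin.cases ?_ (fun i => ?_) i
      · rw [Fin.cons_zero]; exact hτ
      · rw [Fin.cons_succ]; exact ht' i

/-- the admissible loss of dimension -/
noncomputable def epsd (m : ℕ) : ℝ := 1 / (2 * (m + 6) * (678 + 12 * (m + 1)))

lemma epsd_pos (m : ℕ) : 0 < epsd m := by unfold epsd; positivity

theorem main (m : ℕ) (hm : 2 ≤ m) {A : Set ℝ} (hA : MeasurableSet A)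
    (hdim : ENNReal.ofReal (2 / (m + 1) - epsd m) < dimH A) :
    ∃ t : Fin (m + 1) → ℝ, t 0 = 1 ∧
      (interior {x | ∃ a : Fin (m + 1) → ℝ, (∀ i, a i ∈ A) ∧ x = ∑ i, t i * a i}).Nonempty := by
  have hm2 : (2 : ℝ) ≤ m := by exact_mod_cast hm
  set ε : ℝ := epsd m with hεd
  have hε : 0 < ε := epsd_pos m
  have hεle : ε ≤ 1 / (m + 1) := by
    rw [hεd]; unfold epsd
    apply one_div_le_one_div_of_le (by positivity)
    nlinarith
  set s : ℝ := 2 / (m + 1) - ε with hs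
  have hs_low : 1 / (m + 1) ≤ s := by
    rw [hs]
    have : (2 : ℝ) / (m + 1) = 1 / (m + 1) + 1 / (m + 1) := by ring
    linarith
  have hs0 : 0 < s := lt_of_lt_of_le (by positivity) hs_low
  have hs_up : s ≤ 2 / 3 := by
    have h1 : (2 : ℝ) / (m + 1) ≤ 2 / 3 := by
      rw [div_le_div_iff₀ (by positivity) (by norm_num)]; linarith
    rw [hs]; linarith
  have hs1 : s < 1 := by linarith
  have hsm : s * (m + 1) = 2 - ε * (m + 1) := by
    rw [hs]; field_simp
  have hE : expE s ≤ 678 + 12 * (m + 1) := by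
    unfold expE
    have h1s : 1 / 3 ≤ 1 - s := by linarith
    have h1s0 : 0 < 1 - s := by linarith
    rw [div_le_iff₀ h1s0]
    have h44 : 44 / (1 - s) ≤ 132 := by
      rw [div_le_iff₀ h1s0]; linarith
    have h4s : 4 / s ≤ 4 * (m + 1) := by
      rw [div_le_iff₀ hs0]
      have h3 : 4 * ((m : ℝ) + 1) * (1 / (m + 1)) ≤ 4 * (m + 1) * s :=
        mul_le_mul_of_nonneg_left hs_low (by positivity)
      have h4 : 4 * ((m : ℝ) + 1) * (1 / (m + 1)) = 4 := by field_simp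
      linarith
    have h5 : (678 + 12 * ((m : ℝ) + 1)) * (1 / 3) ≤ (678 + 12 * (m + 1)) * (1 - s) :=
      mul_le_mul_of_nonneg_left h1s (by positivity)
    linarith
  have hω : ε * (m + 6) * expE s ≤ 1 / 2 := by
    calc ε * (m + 6) * expE s ≤ ε * (m + 6) * (678 + 12 * (m + 1)) :=
          mul_le_mul_of_nonneg_left hE (by positivity)
      _ = 1 / 2 := by
          rw [hεd]; unfold epsd
          field_simp
  obtain ⟨k, K, μ, C, hKc, hKA, hKk, hμp, hμK, hC, hμ⟩ := Cap.frostman_borel hA hs0 hs1.le hdim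
  -- translate
  set f : ℝ → ℝ := fun x => x - k with hf
  have hfm : Measurable f := by fun_prop
  have hfc : Continuous f := by fun_prop
  set μ' : Measure ℝ := μ.map f with hμ'
  have : IsProbabilityMeasure μ' := Measure.isProbabilityMeasure_map hfm.aemeasurable
  set K' : Set ℝ := f '' K with hK'
  have hK'c : IsCompact K' := hKc.image hfc
  have hK'01 : K' ⊆ Icc (0:ℝ) 1 := by
    rintro _ ⟨x, hx, rfl⟩
    have := hKk hx
    constructor
    · simp only [hf]; linarith [this.1]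
    · simp only [hf]; linarith [this.2]
  have hμ'K' : μ' K'ᶜ = 0 := by
    rw [hμ', Measure.map_apply hfm hK'c.measurableSet.compl]
    refine measure_mono_null ?_ hμK
    intro x hx hxK
    exact hx ⟨x, hxK, rfl⟩
  have hμ'F : ∀ z r, 0 < r → μ' (Metric.closedBall z r) ≤ ENNReal.ofReal (C * r ^ s) := by
    intro z r hr
    rw [hμ', Measure.map_apply hfm Metric.isClosed_closedBall.measurableSet]
    refine le_trans (measure_mono ?_) (hμ (z + k) r hr)
    intro x hx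
    have hx' : dist (f x) z ≤ r := hx
    rw [Metric.mem_closedBall, Real.dist_eq]
    rw [Real.dist_eq] at hx'
    have e : x - (z + k) = f x - z := by simp only [hf]; ring
    rw [e]; exact hx'
  obtain ⟨t, ht, U, hUo, ⟨u, hu⟩, hU⟩ :=
    measure_case hK'c hK'01 hμ'K' hs0 hs1 hC hμ'F hε hsm hω
  have ht0 : 0 < t 0 := by linarith [(ht 0).1]
  refine ⟨fun i => t i / t 0, div_self ht0.ne', ?_⟩
  set V : Set ℝ := {x | t 0 * x - k * ∑ i, t i ∈ U} with hV
  have hVo : IsOpen V := hUo.preimage (by fun_prop : Continuous fun x : ℝ => t 0 * x - k * ∑ i, t i)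
  refine ⟨(u + k * ∑ i, t i) / t 0, ?_⟩
  rw [mem_interior]
  refine ⟨V, ?_, hVo, ?_⟩
  · intro x hx
    obtain ⟨a, ha, hxa⟩ := hU hx
    refine ⟨fun i => a i + k, fun i => ?_, ?_⟩
    · obtain ⟨b, hb, hba⟩ := ha i
      have h9 : a i + k = b := by rw [← hba]; simp only [hf]; ring
      show a i + k ∈ A
      rw [h9]
      exact hKA hb
    · have h1 : t 0 * x = ∑ i, t i * (a i + k) := by
        have h2 : ∑ i, t i * (a i + k) = ∑ i, t i * a i + k * ∑ i, t i := by
          rw [Finset.mul_sum, ← Finset.sum_add_distrib]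
          refine Finset.sum_congr rfl fun i _ => ?_
          ring
        rw [h2]; linarith
      have h3 : ∑ i, t i / t 0 * (a i + k) = (∑ i, t i * (a i + k)) / t 0 := by
        rw [Finset.sum_div]
        refine Finset.sum_congr rfl fun i _ => ?_
        ring
      rw [h3, ← h1]
      field_simp
  · show t 0 * ((u + k * ∑ i, t i) / t 0) - k * ∑ i, t i ∈ U
    have : t 0 * ((u + k * ∑ i, t i) / t 0) - k * ∑ i, t i = u := by
      field_simp
      ring
    rw [this]; exact hu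

end Pool.Agent.V7H80.Sum
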