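import Mathlib

/-!
Finite Cauchy-Schwarz inequalities used in the incidence argument.
-/

set_option maxHeartbeats 1000000

namespace Pool.Agent.V7H80.Sum

open Finset

open Classical in
/-- real indicator of a proposition -/
noncomputable def ind (P : Prop) : ℝ := if P then 1 else 0

lemma ind_nonneg (P : Prop) : 0 ≤ ind P := by
  unfold ind; split <;> norm_num

lemma ind_le_one (P : Prop) : ind P ≤ 1 := by
  unfold ind; split <;> norm_num

lemma ind_true {P : Prop} (h : P) : ind P = 1 := by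
  unfold ind; simp [h]

lemma ind_false {P : Prop} (h : ¬ P) : ind P = 0 := by
  unfold ind; simp [h]

lemma ind_mono {P Q : Prop} (h : P → Q) : ind P ≤ ind Q := by
  by_cases hP : P
  · rw [ind_true hP, ind_true (h hP)]
  · rw [ind_false hP]; exact ind_nonneg Q

lemma ind_mul_ind (P Q : Prop) : ind P * ind Q = ind (P ∧ Q) := by
  by_cases hP : P <;> by_cases hQ : Q <;>
    simp [ind_true, ind_false, hP, hQ]

lemma ind_mul_self (P : Prop) : ind P * ind P = ind P := by
  rw [ind_mul_ind]; simp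

/-- `ind P * a ≤ ind P * b` if `a ≤ b` under `P` -/
lemma ind_mul_le {P : Prop} {a b : ℝ} (h : P → a ≤ b) : ind P * a ≤ ind P * b := by
  by_cases hP : P
  · rw [ind_true hP]; simpa using h hP
  · rw [ind_false hP]; simp

/-- The tensor Cauchy-Schwarz inequality with classes. -/
lemma tensor_cs {P C Y Z : Type*} [Fintype P] [Fintype C] [Fintype Y] [Fintype Z]
    (q : P → C) (w : Y → ℝ) (w' : Z → ℝ) (hw : ∀ y, 0 ≤ w y) (hw' : ∀ z, 0 ≤ w' z)
    (f : P → Y → ℝ) (g : P → Z → ℝ) :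
    (∑ p, (∑ y, w y * f p y) * (∑ z, w' z * g p z)) ^ 2 ≤
      ((Fintype.card C : ℝ) * ((∑ y, w y) * (∑ z, w' z))) *
      ∑ p, ∑ p', ind (q p = q p') *
        ((∑ y, w y * (f p y * f p' y)) * (∑ z, w' z * (g p z * g p' z))) := by
  classical
  set F : C × Y × Z → ℝ := fun a => ∑ p, ind (q p = a.1) * (f p a.2.1 * g p a.2.2) with hF
  have hcs := Finset.sum_sq_le_sum_mul_sum_of_sq_le_mul (Finset.univ : Finset (C × Y × Z))
    (r := fun a => w a.2.1 * w' a.2.2 * F a)
    (f := fun a => w a.2.1 * w' a.2.2)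
    (g := fun a => w a.2.1 * w' a.2.2 * (F a) ^ 2)
    (fun a _ => mul_nonneg (hw _) (hw' _))
    (fun a _ => mul_nonneg (mul_nonneg (hw _) (hw' _)) (sq_nonneg _))
    (fun a _ => (by ring : _ = _).le)
  have h1 : ∑ a : C × Y × Z, w a.2.1 * w' a.2.2 * F a =
      ∑ p, (∑ y, w y * f p y) * (∑ z, w' z * g p z) := by
    simp only [hF, Finset.mul_sum]
    rw [Finset.sum_comm]
    refine Finset.sum_congr rfl fun p _ => ?_
    rw [Fintype.sum_prod_type]
    have : ∀ c : C, ∑ b : Y × Z, w (c, b).2.1 * w' (c, b).2.2 *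
        (ind (q p = (c, b).1) * (f p (c, b).2.1 * g p (c, b).2.2)) =
        ind (q p = c) * ∑ b : Y × Z, w b.1 * w' b.2 * (f p b.1 * g p b.2) := by
      intro c
      rw [Finset.mul_sum]
      refine Finset.sum_congr rfl fun b _ => ?_
      ring
    simp only [this]
    rw [← Finset.sum_mul]
    have h2 : ∑ c : C, ind (q p = c) = 1 := by
      rw [Finset.sum_eq_single (q p)]
      · exact ind_true rfl
      · intro b _ hb
        exact ind_false (fun h => hb h.symm)
      · intro h; exact absurd (Finset.mem_univ _) h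
    rw [h2, one_mul, Fintype.sum_prod_type, Finset.sum_comm]
    refine Finset.sum_congr rfl fun z _ => ?_
    rw [Finset.sum_mul]
    refine Finset.sum_congr rfl fun y _ => ?_
    ring
  have h3 : ∑ a : C × Y × Z, w a.2.1 * w' a.2.2 =
      (Fintype.card C : ℝ) * ((∑ y, w y) * (∑ z, w' z)) := by
    rw [Fintype.sum_prod_type]
    have : ∑ b : Y × Z, w b.1 * w' b.2 = (∑ y, w y) * (∑ z, w' z) := by
      rw [Fintype.sum_prod_type, Finset.sum_mul]
      refine Finset.sum_congr rfl fun y _ => ?_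
      rw [Finset.mul_sum]
    simp only [this, Finset.sum_const, nsmul_eq_mul, Finset.card_univ]
  have h4 : ∑ a : C × Y × Z, w a.2.1 * w' a.2.2 * (F a) ^ 2 =
      ∑ p, ∑ p', ind (q p = q p') *
        ((∑ y, w y * (f p y * f p' y)) * (∑ z, w' z * (g p z * g p' z))) := by
    have e1 : ∀ a : C × Y × Z, w a.2.1 * w' a.2.2 * (F a) ^ 2 =
        ∑ p, ∑ p', (ind (q p = a.1) * ind (q p' = a.1)) *
          ((w a.2.1 * (f p a.2.1 * f p' a.2.1)) * (w' a.2.2 * (g p a.2.2 * g p' a.2.2))) := by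
      intro a
      simp only [hF]
      rw [sq, Finset.sum_mul_sum, Finset.mul_sum]
      refine Finset.sum_congr rfl fun p _ => ?_
      rw [Finset.mul_sum]
      refine Finset.sum_congr rfl fun p' _ => ?_
      ring
    simp only [e1]
    rw [Finset.sum_comm]
    refine Finset.sum_congr rfl fun p _ => ?_
    rw [Finset.sum_comm]
    refine Finset.sum_congr rfl fun p' _ => ?_
    rw [Fintype.sum_prod_type]
    have : ∀ c : C, ∑ b : Y × Z, (ind (q p = (c, b).1) * ind (q p' = (c, b).1)) *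
          ((w (c, b).2.1 * (f p (c, b).2.1 * f p' (c, b).2.1)) *
            (w' (c, b).2.2 * (g p (c, b).2.2 * g p' (c, b).2.2))) =
        (ind (q p = c) * ind (q p' = c)) *
          ∑ b : Y × Z, (w b.1 * (f p b.1 * f p' b.1)) * (w' b.2 * (g p b.2 * g p' b.2)) := by
      intro c
      rw [Finset.mul_sum]
    simp only [this]
    rw [← Finset.sum_mul]
    have h2 : ∑ c : C, ind (q p = c) * ind (q p' = c) = ind (q p = q p') := by
      rw [Finset.sum_eq_single (q p)]
      · rw [ind_true rfl, one_mul]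
        by_cases h : q p = q p'
        · rw [ind_true h, ind_true h.symm]
        · rw [ind_false h, ind_false (fun h' => h h'.symm)]
      · intro b _ hb
        rw [ind_false (fun h => hb h.symm), zero_mul]
      · intro h; exact absurd (Finset.mem_univ _) h
    rw [h2, Fintype.sum_prod_type, Finset.sum_mul]
    congr 1
    refine Finset.sum_congr rfl fun y _ => ?_
    rw [Finset.mul_sum]
  rw [h1, h3, h4] at hcs
  exact hcs

section Kernel

variable {α ι : Type*} [Fintype α] [Fintype ι]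

/-- row sums -/
noncomputable def bR (m : α → ℝ) (R : ι → α → α → ℝ) (u : ι) (i : α) : ℝ := ∑ j, m j * R u i j

/-- composition kernel -/
noncomputable def HR (m : α → ℝ) (R : ι → α → α → ℝ) (k l : ι) (i i' : α) : ℝ :=
  ∑ j, m j * (R k i j * R l i' j)

/-- the function attached to a pair -/
noncomputable def XR (m : α → ℝ) (R : ι → α → α → ℝ) (k l : ι) (z : ι × α) : ℝ :=
  ∑ i, m i * (bR m R z.1 i * HR m R k l i z.2)

lemma bR_nonneg {m : α → ℝ} {R : ι → α → α → ℝ} (hm : ∀ i, 0 ≤ m i) (hR : ∀ k i j, 0 ≤ R k i j)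
    (u : ι) (i : α) : 0 ≤ bR m R u i :=
  Finset.sum_nonneg fun j _ => mul_nonneg (hm j) (hR _ _ _)

lemma HR_nonneg {m : α → ℝ} {R : ι → α → α → ℝ} (hm : ∀ i, 0 ≤ m i) (hR : ∀ k i j, 0 ≤ R k i j)
    (k l : ι) (i i' : α) : 0 ≤ HR m R k l i i' :=
  Finset.sum_nonneg fun j _ => mul_nonneg (hm j) (mul_nonneg (hR _ _ _) (hR _ _ _))

lemma XR_nonneg {m : α → ℝ} {R : ι → α → α → ℝ} (hm : ∀ i, 0 ≤ m i) (hR : ∀ k i j, 0 ≤ R k i j)
    (k l : ι) (z : ι × α) : 0 ≤ XR m R k l z :=
  Finset.sum_nonneg fun j _ =>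
    mul_nonneg (hm j) (mul_nonneg (bR_nonneg hm hR _ _) (HR_nonneg hm hR _ _ _ _))

/-- Lower bound for the `L¹` norm of `XR`. -/
lemma XR_lower {m : α → ℝ} {R R' : ι → α → α → ℝ} (hm : ∀ i, 0 ≤ m i)
    (hR' : ∀ k i j, 0 ≤ R' k i j) (hRR : ∀ k i j, R' k i j ≤ R k i j) (θ : ℝ)
    (hc : ∀ k i j, R' k i j ≠ 0 → θ ≤ ∑ u, bR m R u i) (k l : ι) :
    θ * ∑ j, m j * ((∑ i, m i * R' k i j) * (∑ i, m i * R' l i j)) ≤
      ∑ z : ι × α, m z.2 * XR m R k l z := by
  have hR : ∀ k i j, 0 ≤ R k i j := fun k i j => (hR' k i j).trans (hRR k i j)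
  have e1 : ∑ z : ι × α, m z.2 * XR m R k l z =
      ∑ j, ∑ i, ∑ i', m j * (m i * m i') * ((∑ u, bR m R u i) * (R k i j * R l i' j)) := by
    unfold XR HR
    rw [Fintype.sum_prod_type]
    calc ∑ u : ι, ∑ i' : α, m i' * ∑ i, m i * (bR m R u i * ∑ j, m j * (R k i j * R l i' j))
        = ∑ u : ι, ∑ i' : α, ∑ i, ∑ j, m j * (m i * m i') * (bR m R u i * (R k i j * R l i' j)) := by
          refine Finset.sum_congr rfl fun u _ => Finset.sum_congr rfl fun i' _ => ?_
          rw [Finset.mul_sum]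
          refine Finset.sum_congr rfl fun i _ => ?_
          rw [Finset.mul_sum, Finset.mul_sum, Finset.mul_sum]
          refine Finset.sum_congr rfl fun j _ => ?_
          ring
      _ = ∑ i' : α, ∑ i, ∑ j, ∑ u : ι, m j * (m i * m i') * (bR m R u i * (R k i j * R l i' j)) := by
          rw [Finset.sum_comm]
          refine Finset.sum_congr rfl fun i' _ => ?_
          rw [Finset.sum_comm]
          refine Finset.sum_congr rfl fun i _ => ?_
          rw [Finset.sum_comm]
      _ = ∑ i' : α, ∑ j, ∑ i, m j * (m i * m i') * ((∑ u, bR m R u i) * (R k i j * R l i' j)) := by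
          refine Finset.sum_congr rfl fun i' _ => ?_
          rw [Finset.sum_comm]
          refine Finset.sum_congr rfl fun j _ => Finset.sum_congr rfl fun i _ => ?_
          rw [Finset.sum_mul, Finset.mul_sum]
      _ = _ := by
          rw [Finset.sum_comm]
          refine Finset.sum_congr rfl fun j _ => ?_
          rw [Finset.sum_comm]
  rw [e1, Finset.mul_sum]
  refine Finset.sum_le_sum fun j _ => ?_
  have e2 : θ * (m j * ((∑ i, m i * R' k i j) * (∑ i, m i * R' l i j))) =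
      ∑ i, ∑ i', m j * (m i * m i') * (θ * (R' k i j * R' l i' j)) := by
    rw [Finset.sum_mul_sum, Finset.mul_sum, Finset.mul_sum]
    refine Finset.sum_congr rfl fun i _ => ?_
    rw [Finset.mul_sum, Finset.mul_sum]
    refine Finset.sum_congr rfl fun i' _ => ?_
    ring
  rw [e2]
  refine Finset.sum_le_sum fun i _ => Finset.sum_le_sum fun i' _ => ?_
  refine mul_le_mul_of_nonneg_left ?_ (mul_nonneg (hm _) (mul_nonneg (hm _) (hm _)))
  by_cases h : R' k i j = 0
  · rw [h]
    have : 0 ≤ (∑ u, bR m R u i) := Finset.sum_nonneg fun u _ => bR_nonneg hm hR _ _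
    have := mul_nonneg this (mul_nonneg (hR k i j) (hR l i' j))
    simpa using this
  · have h1 := hc k i j h
    have h2 : R' k i j * R' l i' j ≤ R k i j * R l i' j :=
      mul_le_mul (hRR _ _ _) (hRR _ _ _) (hR' _ _ _) (hR _ _ _)
    have h3 : 0 ≤ ∑ u, bR m R u i := Finset.sum_nonneg fun u _ => bR_nonneg hm hR _ _
    have h4 : 0 ≤ R' k i j * R' l i' j := mul_nonneg (hR' _ _ _) (hR' _ _ _)
    calc θ * (R' k i j * R' l i' j) ≤ (∑ u, bR m R u i) * (R' k i j * R' l i' j) :=
          mul_le_mul_of_nonneg_right h1 h4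
      _ ≤ _ := mul_le_mul_of_nonneg_left h2 h3

/-- The main lower bound: for a kernel `r`, the classes `q`, `J'` is large. -/
lemma energy_lower {C : Type*} [Fintype C] (q : ι × ι → C) {m : α → ℝ} {r : ι → α → α → ℝ}
    (hm : ∀ i, 0 ≤ m i) (hm1 : ∑ i, m i = 1) (hr : ∀ k i j, 0 ≤ r k i j)
    (hι : 0 < Fintype.card ι) (T : ℝ) (hT0 : 0 ≤ T)
    (hT : T = ∑ k, ∑ i, ∑ j, m i * m j * r k i j) :
    T ^ 12 ≤ 2 ^ 16 * (Fintype.card ι : ℝ) ^ 6 * (Fintype.card C : ℝ) *
      ∑ p : ι × ι, ∑ p' : ι × ι, ind (q p = q p') *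
        ((∑ z : ι × α, m z.2 * (XR m r p.1 p.2 z * XR m r p'.1 p'.2 z)) *
         (∑ z : ι × α, m z.2 * (XR m (fun k i j => r k j i) p.2 p.1 z *
            XR m (fun k i j => r k j i) p'.2 p'.1 z))) := by
  set rT : ι → α → α → ℝ := fun k i j => r k j i with hrT
  have hrT0 : ∀ k i j, 0 ≤ rT k i j := fun k i j => hr k j i
  set M : ℝ := (Fintype.card ι : ℝ) with hM
  have hMpos : 0 < M := by rw [hM]; exact_mod_cast hι
  set θ : ℝ := T / 4 with hθ
  set c : α → ℝ := fun i => ∑ u, bR m r u i with hc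
  set c' : α → ℝ := fun j => ∑ u, bR m rT u j with hc'
  set r' : ι → α → α → ℝ := fun k i j => r k i j * (ind (θ ≤ c i) * ind (θ ≤ c' j)) with hr'
  set r'T : ι → α → α → ℝ := fun k i j => r' k j i with hr'T
  have hr'0 : ∀ k i j, 0 ≤ r' k i j := fun k i j =>
    mul_nonneg (hr _ _ _) (mul_nonneg (ind_nonneg _) (ind_nonneg _))
  have hr'le : ∀ k i j, r' k i j ≤ r k i j := by
    intro k i j
    have h1 : ind (θ ≤ c i) * ind (θ ≤ c' j) ≤ 1 := by
      have := mul_le_mul (ind_le_one (θ ≤ c i)) (ind_le_one (θ ≤ c' j)) (ind_nonneg _) zero_le_one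
      simpa using this
    calc r' k i j ≤ r k i j * 1 := mul_le_mul_of_nonneg_left h1 (hr _ _ _)
      _ = r k i j := mul_one _
  -- total of `r'`
  have hsumc : ∑ i, m i * c i = T := by
    rw [hT]
    simp only [hc, bR]
    rw [Finset.sum_comm]
    refine Finset.sum_congr rfl fun i _ => ?_
    rw [Finset.mul_sum]
    refine Finset.sum_congr rfl fun k _ => ?_
    rw [Finset.mul_sum]
    refine Finset.sum_congr rfl fun j _ => ?_
    ring
  have hcpart : ∑ k, ∑ i, ∑ j, m i * m j * (r k i j * ind (¬ θ ≤ c i)) ≤ θ := by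
    have e : ∑ k, ∑ i, ∑ j, m i * m j * (r k i j * ind (¬ θ ≤ c i)) =
        ∑ i, m i * (ind (¬ θ ≤ c i) * c i) := by
      rw [Finset.sum_comm]
      refine Finset.sum_congr rfl fun i _ => ?_
      simp only [hc, bR]
      rw [Finset.mul_sum, Finset.mul_sum]
      refine Finset.sum_congr rfl fun k _ => ?_
      rw [Finset.mul_sum, Finset.mul_sum]
      refine Finset.sum_congr rfl fun j _ => ?_
      ring
    rw [e]
    calc ∑ i, m i * (ind (¬ θ ≤ c i) * c i) ≤ ∑ i, m i * θ := by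
          refine Finset.sum_le_sum fun i _ => mul_le_mul_of_nonneg_left ?_ (hm i)
          by_cases h : θ ≤ c i
          · rw [ind_false (by simpa using h)]
            rw [zero_mul, hθ]; positivity
          · rw [ind_true h, one_mul]
            exact (not_le.mp h).le
      _ = θ := by rw [← Finset.sum_mul, hm1, one_mul]
  have hc'part : ∑ k, ∑ i, ∑ j, m i * m j * (r k i j * ind (¬ θ ≤ c' j)) ≤ θ := by
    have e : ∑ k, ∑ i, ∑ j, m i * m j * (r k i j * ind (¬ θ ≤ c' j)) =
        ∑ j, m j * (ind (¬ θ ≤ c' j) * c' j) := by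
      have : ∀ k, ∑ i, ∑ j, m i * m j * (r k i j * ind (¬ θ ≤ c' j)) =
          ∑ j, ∑ i, m i * m j * (r k i j * ind (¬ θ ≤ c' j)) := fun k => Finset.sum_comm
      simp only [this]
      rw [Finset.sum_comm]
      refine Finset.sum_congr rfl fun j _ => ?_
      simp only [hc', bR, hrT]
      rw [Finset.mul_sum, Finset.mul_sum]
      refine Finset.sum_congr rfl fun k _ => ?_
      rw [Finset.mul_sum, Finset.mul_sum]
      refine Finset.sum_congr rfl fun i _ => ?_
      ring
    rw [e]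
    calc ∑ j, m j * (ind (¬ θ ≤ c' j) * c' j) ≤ ∑ j, m j * θ := by
          refine Finset.sum_le_sum fun i _ => mul_le_mul_of_nonneg_left ?_ (hm i)
          by_cases h : θ ≤ c' i
          · rw [ind_false (by simpa using h)]
            rw [zero_mul, hθ]; positivity
          · rw [ind_true h, one_mul]
            exact (not_le.mp h).le
      _ = θ := by rw [← Finset.sum_mul, hm1, one_mul]
  set S' : ι → ℝ := fun k => ∑ i, ∑ j, m i * m j * r' k i j with hS'
  have hS'0 : ∀ k, 0 ≤ S' k := fun k => Finset.sum_nonneg fun i _ => Finset.sum_nonneg fun j _ =>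
    mul_nonneg (mul_nonneg (hm _) (hm _)) (hr'0 _ _ _)
  have hS'sum : T / 2 ≤ ∑ k, S' k := by
    have h1 : T ≤ ∑ k, S' k + (∑ k, ∑ i, ∑ j, m i * m j * (r k i j * ind (¬ θ ≤ c i)) +
        ∑ k, ∑ i, ∑ j, m i * m j * (r k i j * ind (¬ θ ≤ c' j))) := by
      rw [hT, ← Finset.sum_add_distrib, ← Finset.sum_add_distrib]
      refine Finset.sum_le_sum fun k _ => ?_
      simp only [hS']
      rw [← Finset.sum_add_distrib, ← Finset.sum_add_distrib]
      refine Finset.sum_le_sum fun i _ => ?_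
      rw [← Finset.sum_add_distrib, ← Finset.sum_add_distrib]
      refine Finset.sum_le_sum fun j _ => ?_
      have hmm : 0 ≤ m i * m j := mul_nonneg (hm _) (hm _)
      rw [← mul_add, ← mul_add]
      refine mul_le_mul_of_nonneg_left ?_ hmm
      simp only [hr']
      have hrr := hr k i j
      by_cases h1 : θ ≤ c i
      · by_cases h2 : θ ≤ c' j
        · rw [ind_true h1, ind_true h2, ind_false (by simpa using h1), ind_false (by simpa using h2)]
          simp
        · rw [ind_true h1, ind_false h2, ind_false (by simpa using h1), ind_true h2]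
          simp
      · by_cases h2 : θ ≤ c' j
        · rw [ind_false h1, ind_true h2, ind_true h1, ind_false (by simpa using h2)]
          simp
        · rw [ind_false h1, ind_false h2, ind_true h1, ind_true h2]
          simp [hrr]
    have : θ = T / 4 := hθ
    linarith
  -- second Cauchy-Schwarz
  set aa : ι → α → ℝ := fun k j => ∑ i, m i * r' k i j with haa
  set bb : ι → α → ℝ := fun k i => ∑ j, m j * r' k i j with hbb
  have haaS : ∀ k, ∑ j, m j * aa k j = S' k := by
    intro k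
    simp only [haa, hS']
    rw [Finset.sum_comm]
    refine Finset.sum_congr rfl fun j _ => ?_
    rw [Finset.mul_sum]
    refine Finset.sum_congr rfl fun i _ => ?_
    ring
  have hbbS : ∀ k, ∑ i, m i * bb k i = S' k := by
    intro k
    simp only [hbb, hS']
    refine Finset.sum_congr rfl fun j _ => ?_
    rw [Finset.mul_sum]
    refine Finset.sum_congr rfl fun i _ => ?_
    ring
  have hcs1 := tensor_cs (fun _ : ι => ()) m m hm hm aa bb
  simp only [haaS, hbbS, hm1, Fintype.card_unit, Nat.cast_one, one_mul, mul_one] at hcs1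
  have hcs2 : (∑ k, S' k) ^ 2 ≤ M * ∑ k, S' k * S' k := by
    have := Finset.sum_sq_le_sum_mul_sum_of_sq_le_mul (Finset.univ : Finset ι)
      (r := fun k => S' k) (f := fun _ => (1 : ℝ)) (g := fun k => S' k * S' k)
      (fun _ _ => zero_le_one) (fun k _ => mul_nonneg (hS'0 k) (hS'0 k)) (fun k _ => (by ring : _ = _).le)
    simpa [hM] using this
  have hcs1' : (∑ k, S' k * S' k) ^ 2 ≤ ∑ k, ∑ l, (∑ j, m j * (aa k j * aa l j)) *
      (∑ i, m i * (bb k i * bb l i)) := by
    refine hcs1.trans (le_of_eq ?_)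
    refine Finset.sum_congr rfl fun k _ => Finset.sum_congr rfl fun l _ => ?_
    rw [ind_true trivial, one_mul]
  -- third
  set X1 : ι × ι → ℝ := fun p => ∑ z : ι × α, m z.2 * XR m r p.1 p.2 z with hX1
  set X2 : ι × ι → ℝ := fun p => ∑ z : ι × α, m z.2 * XR m rT p.2 p.1 z with hX2
  have hX1l : ∀ p : ι × ι, θ * ∑ j, m j * (aa p.1 j * aa p.2 j) ≤ X1 p := by
    intro p
    refine XR_lower hm hr'0 hr'le θ ?_ p.1 p.2
    intro k i j h
    by_contra hcon
    apply h
    simp only [hr']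
    rw [ind_false hcon]; simp
  have hX2l : ∀ p : ι × ι, θ * ∑ i, m i * (bb p.1 i * bb p.2 i) ≤ X2 p := by
    intro p
    have := XR_lower (R := rT) (R' := r'T) hm (fun k i j => hr'0 k j i) (fun k i j => hr'le k j i)
      θ ?_ p.2 p.1
    · refine le_trans (le_of_eq ?_) this
      congr 1
      refine Finset.sum_congr rfl fun i _ => ?_
      simp only [hbb, hr'T]
      ring
    · intro k i j h
      by_contra hcon
      apply h
      simp only [hr'T, hr']
      rw [ind_false hcon]; simp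
  have hθ0 : 0 ≤ θ := by rw [hθ]; positivity
  have haa0 : ∀ k j, 0 ≤ aa k j := fun k j => Finset.sum_nonneg fun i _ => mul_nonneg (hm _) (hr'0 _ _ _)
  have hbb0 : ∀ k j, 0 ≤ bb k j := fun k j => Finset.sum_nonneg fun i _ => mul_nonneg (hm _) (hr'0 _ _ _)
  have hQ : θ ^ 2 * (∑ k, S' k * S' k) ^ 2 ≤ ∑ p : ι × ι, X1 p * X2 p := by
    calc θ ^ 2 * (∑ k, S' k * S' k) ^ 2 ≤ θ ^ 2 * ∑ k, ∑ l, (∑ j, m j * (aa k j * aa l j)) *
          (∑ i, m i * (bb k i * bb l i)) := mul_le_mul_of_nonneg_left hcs1' (sq_nonneg _)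
      _ = ∑ p : ι × ι, (θ * ∑ j, m j * (aa p.1 j * aa p.2 j)) *
            (θ * ∑ i, m i * (bb p.1 i * bb p.2 i)) := by
          rw [Fintype.sum_prod_type, Finset.mul_sum]
          refine Finset.sum_congr rfl fun k _ => ?_
          rw [Finset.mul_sum]
          refine Finset.sum_congr rfl fun l _ => ?_
          ring
      _ ≤ _ := by
          refine Finset.sum_le_sum fun p _ => ?_
          have h1 : 0 ≤ θ * ∑ j, m j * (aa p.1 j * aa p.2 j) :=
            mul_nonneg hθ0 (Finset.sum_nonneg fun j _ => mul_nonneg (hm _) (mul_nonneg (haa0 _ _) (haa0 _ _)))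
          have h2 : 0 ≤ θ * ∑ i, m i * (bb p.1 i * bb p.2 i) :=
            mul_nonneg hθ0 (Finset.sum_nonneg fun j _ => mul_nonneg (hm _) (mul_nonneg (hbb0 _ _) (hbb0 _ _)))
          exact mul_le_mul (hX1l p) (hX2l p) h2 (h1.trans (hX1l p))
  have hcs3 := tensor_cs q (fun z : ι × α => m z.2) (fun z : ι × α => m z.2)
    (fun z => hm z.2) (fun z => hm z.2) (fun p => XR m r p.1 p.2) (fun p => XR m rT p.2 p.1)
  have hmass : ∑ z : ι × α, m z.2 = M := by
    rw [Fintype.sum_prod_type]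
    simp only [hm1, Finset.sum_const, nsmul_eq_mul, mul_one, Finset.card_univ]
    rfl
  rw [hmass] at hcs3
  set J : ℝ := ∑ p : ι × ι, ∑ p' : ι × ι, ind (q p = q p') *
        ((∑ z : ι × α, m z.2 * (XR m r p.1 p.2 z * XR m r p'.1 p'.2 z)) *
         (∑ z : ι × α, m z.2 * (XR m rT p.2 p.1 z * XR m rT p'.2 p'.1 z))) with hJ
  have hQsq : (∑ p : ι × ι, X1 p * X2 p) ^ 2 ≤ ((Fintype.card C : ℝ) * (M * M)) * J := hcs3
  set Q : ℝ := ∑ p : ι × ι, X1 p * X2 p with hQdef
  set W : ℝ := ∑ k, S' k * S' k with hW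
  have hW0 : 0 ≤ W := Finset.sum_nonneg fun k _ => mul_nonneg (hS'0 k) (hS'0 k)
  have hTW : T ^ 2 ≤ 4 * M * W := by
    have h1 : (T / 2) ^ 2 ≤ (∑ k, S' k) ^ 2 := pow_le_pow_left₀ (by positivity) hS'sum 2
    nlinarith
  have hT6 : T ^ 6 ≤ 256 * M ^ 2 * Q := by
    have h1 : (T ^ 2) ^ 2 ≤ (4 * M * W) ^ 2 := pow_le_pow_left₀ (by positivity) hTW 2
    have h2 : T ^ 2 * (T ^ 2) ^ 2 ≤ T ^ 2 * (4 * M * W) ^ 2 :=
      mul_le_mul_of_nonneg_left h1 (sq_nonneg T)
    have h3 : T ^ 2 * W ^ 2 ≤ 16 * Q := by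
      have : θ ^ 2 = T ^ 2 / 16 := by rw [hθ]; ring
      rw [this] at hQ
      linarith
    have h4 : M ^ 2 * (T ^ 2 * W ^ 2) ≤ M ^ 2 * (16 * Q) := mul_le_mul_of_nonneg_left h3 (sq_nonneg M)
    nlinarith
  have hT12 : (T ^ 6) ^ 2 ≤ (256 * M ^ 2 * Q) ^ 2 := pow_le_pow_left₀ (by positivity) hT6 2
  have h5 : (256 * M ^ 2) ^ 2 * Q ^ 2 ≤ (256 * M ^ 2) ^ 2 * (((Fintype.card C : ℝ) * (M * M)) * J) :=
    mul_le_mul_of_nonneg_left hQsq (sq_nonneg _)
  calc T ^ 12 = (T ^ 6) ^ 2 := by ring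
    _ ≤ (256 * M ^ 2 * Q) ^ 2 := hT12
    _ = (256 * M ^ 2) ^ 2 * Q ^ 2 := by ring
    _ ≤ _ := h5
    _ = 2 ^ 16 * M ^ 6 * (Fintype.card C : ℝ) * J := by ring

end Kernel

end Pool.Agent.V7H80.Sum
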