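import Pool.Agent.V7H80.Sum.C1

/-!
Geometric upper bounds for the incidence argument.
-/

set_option maxHeartbeats 1000000

namespace Pool.Agent.V7H80.Sum

open Finset

section

variable {α ι : Type*} [Fintype α] [Fintype ι]

/-- the counting function `Psi` -/
noncomputable def Psi (m x : α → ℝ) (σ : ι → ℝ) (y : ℝ) : ℝ :=
  ∑ u, ∑ j, ∑ j', m j * m j' * ind (|x j + σ u * y - x j'| ≤ 140)

lemma HR_upper {m x : α → ℝ} {K D : ℝ} (hm : ∀ i, 0 ≤ m i)
    (hF1 : ∀ z r, 1 ≤ r → ∑ i, m i * ind (|x i - z| ≤ r) ≤ K * (r * D))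
    {σ β : ι → ℝ} (hσ : ∀ k, 1 / 2 ≤ σ k)
    {R : ι → α → α → ℝ} (hR0 : ∀ k i j, 0 ≤ R k i j)
    (hR : ∀ k i j, R k i j ≤ ind (|σ k * x i + β k - x j| ≤ 2)) (k l : ι) (i i' : α) :
    HR m R k l i i' ≤ (2 * K * D) *
      ind (|σ k / σ l * x i + (β k - β l) / σ l - x i'| ≤ 8) := by
  have h1 : ∀ j, m j * (R k i j * R l i' j) ≤
      ind (|σ k / σ l * x i + (β k - β l) / σ l - x i'| ≤ 8) *
      (m j * ind (|x j - (σ k * x i + β k)| ≤ 2)) := by
    intro j
    have hRR : R k i j * R l i' j ≤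
        ind (|σ k * x i + β k - x j| ≤ 2) * ind (|σ l * x i' + β l - x j| ≤ 2) :=
      mul_le_mul (hR _ _ _) (hR _ _ _) (hR0 _ _ _) (ind_nonneg _)
    have h2 : ind (|σ k * x i + β k - x j| ≤ 2) * ind (|σ l * x i' + β l - x j| ≤ 2) ≤
        ind (|σ k / σ l * x i + (β k - β l) / σ l - x i'| ≤ 8) *
          ind (|x j - (σ k * x i + β k)| ≤ 2) := by
      rw [ind_mul_ind, ind_mul_ind]
      apply ind_mono
      rintro ⟨h1, h2⟩
      have hl : 0 < σ l := by linarith [hσ l]
      refine ⟨?_, ?_⟩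
      · have e : σ k / σ l * x i + (β k - β l) / σ l - x i' =
            ((σ k * x i + β k - x j) - (σ l * x i' + β l - x j)) / σ l := by
          field_simp
          ring
        rw [e, abs_div, abs_of_pos hl, div_le_iff₀ hl]
        have h3 := abs_sub (σ k * x i + β k - x j) (σ l * x i' + β l - x j)
        have := hσ l
        linarith
      · rw [abs_sub_comm]; exact h1
    calc m j * (R k i j * R l i' j) ≤ m j * (ind (|σ k / σ l * x i + (β k - β l) / σ l - x i'| ≤ 8) *
          ind (|x j - (σ k * x i + β k)| ≤ 2)) :=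
          mul_le_mul_of_nonneg_left (hRR.trans h2) (hm j)
      _ = _ := by ring
  calc HR m R k l i i' ≤ ∑ j, ind (|σ k / σ l * x i + (β k - β l) / σ l - x i'| ≤ 8) *
      (m j * ind (|x j - (σ k * x i + β k)| ≤ 2)) := Finset.sum_le_sum fun j _ => h1 j
    _ = ind (|σ k / σ l * x i + (β k - β l) / σ l - x i'| ≤ 8) *
      ∑ j, (m j * ind (|x j - (σ k * x i + β k)| ≤ 2)) := by rw [Finset.mul_sum]
    _ ≤ ind (|σ k / σ l * x i + (β k - β l) / σ l - x i'| ≤ 8) * (K * (2 * D)) :=
        mul_le_mul_of_nonneg_left (hF1 _ 2 (by norm_num)) (ind_nonneg _)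
    _ = _ := by ring

/-- Column sums. -/
lemma col_upper {m x : α → ℝ} {K D : ℝ} (hm : ∀ i, 0 ≤ m i)
    (hF1 : ∀ z r, 1 ≤ r → ∑ i, m i * ind (|x i - z| ≤ r) ≤ K * (r * D))
    {σ β : ι → ℝ} (hσ : ∀ k, 1 / 2 ≤ σ k) (u : ι) (t : ℝ) :
    ∑ i, m i * ind (|σ u * x i + β u - t| ≤ 2) ≤ 4 * K * D := by
  have hu : 0 < σ u := by linarith [hσ u]
  calc ∑ i, m i * ind (|σ u * x i + β u - t| ≤ 2)
      ≤ ∑ i, m i * ind (|x i - (t - β u) / σ u| ≤ 4) := by
        refine Finset.sum_le_sum fun i _ => mul_le_mul_of_nonneg_left (ind_mono fun h => ?_) (hm i)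
        have e : x i - (t - β u) / σ u = (σ u * x i + β u - t) / σ u := by
          field_simp
          ring
        rw [e, abs_div, abs_of_pos hu, div_le_iff₀ hu]
        have := hσ u
        linarith
    _ ≤ K * (4 * D) := hF1 _ 4 (by norm_num)
    _ = _ := by ring

lemma inner_upper {m x : α → ℝ} {K D n : ℝ} (hm : ∀ i, 0 ≤ m i) (hK : 0 ≤ K) (hD : 0 ≤ D)
    (hn : 0 < n) (hx : ∀ i, 0 ≤ x i ∧ x i ≤ n)
    (hF1 : ∀ z r, 1 ≤ r → ∑ i, m i * ind (|x i - z| ≤ r) ≤ K * (r * D))
    {σ β : ι → ℝ} (hσ : ∀ k, 1 / 2 ≤ σ k ∧ σ k ≤ 2)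
    {R : ι → α → α → ℝ} (hR0 : ∀ k i j, 0 ≤ R k i j)
    (hR : ∀ k i j, R k i j ≤ ind (|σ k * x i + β k - x j| ≤ 2)) (k l k' l' : ι)
    (hq : |σ k / σ l - σ k' / σ l'| ≤ 1 / n) :
    ∑ z : ι × α, m z.2 * (XR m R k l z * XR m R k' l' z) ≤
      (512 * K ^ 5 * D ^ 5) *
        Psi m x σ (((β k - β l) / σ l - (β k' - β l') / σ l') / (σ k' / σ l')) := by
  set ρ : ℝ := σ k / σ l with hρ
  set ρ' : ℝ := σ k' / σ l' with hρ'
  set w : ℝ := (β k - β l) / σ l with hw
  set w' : ℝ := (β k' - β l') / σ l' with hw'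
  set y : ℝ := (w - w') / ρ' with hy
  have hρ'pos : 1 / 4 ≤ ρ' := by
    rw [hρ', le_div_iff₀ (by linarith [(hσ l').1])]
    have := (hσ l').2
    have := (hσ k').1
    linarith
  have hσ1 : ∀ k, 1 / 2 ≤ σ k := fun k => (hσ k).1
  have hb0 : ∀ u i, 0 ≤ bR m R u i := fun u i => bR_nonneg hm hR0 u i
  have hH0 : ∀ k l i i', 0 ≤ HR m R k l i i' := fun k l i i' => HR_nonneg hm hR0 k l i i'
  -- step 1: expand
  have e1 : ∑ z : ι × α, m z.2 * (XR m R k l z * XR m R k' l' z) =
      ∑ u, ∑ i, ∑ i', (m i * m i' * (bR m R u i * bR m R u i')) *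
        ∑ a, m a * (HR m R k l i a * HR m R k' l' i' a) := by
    rw [Fintype.sum_prod_type]
    refine Finset.sum_congr rfl fun u _ => ?_
    unfold XR
    calc ∑ a : α, m a * ((∑ i, m i * (bR m R u i * HR m R k l i a)) *
          ∑ i', m i' * (bR m R u i' * HR m R k' l' i' a))
        = ∑ a : α, ∑ i, ∑ i', (m i * m i' * (bR m R u i * bR m R u i')) *
            (m a * (HR m R k l i a * HR m R k' l' i' a)) := by
          refine Finset.sum_congr rfl fun a _ => ?_
          rw [Finset.sum_mul_sum, Finset.mul_sum]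
          refine Finset.sum_congr rfl fun i _ => ?_
          rw [Finset.mul_sum]
          refine Finset.sum_congr rfl fun i' _ => ?_
          ring
      _ = ∑ i, ∑ i', ∑ a : α, (m i * m i' * (bR m R u i * bR m R u i')) *
            (m a * (HR m R k l i a * HR m R k' l' i' a)) := by
          rw [Finset.sum_comm]
          refine Finset.sum_congr rfl fun i _ => ?_
          rw [Finset.sum_comm]
      _ = _ := by
          refine Finset.sum_congr rfl fun i _ => Finset.sum_congr rfl fun i' _ => ?_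
          rw [Finset.mul_sum]
  -- step 2: inner bound
  have h2 : ∀ i i', ∑ a, m a * (HR m R k l i a * HR m R k' l' i' a) ≤
      (32 * K ^ 3 * D ^ 3) * ind (|x i - x i' + y| ≤ 68) := by
    intro i i'
    have h21 : ∀ a, m a * (HR m R k l i a * HR m R k' l' i' a) ≤
        ((4 * K ^ 2 * D ^ 2) * ind (|x i - x i' + y| ≤ 68)) *
          (m a * ind (|x a - (ρ * x i + w)| ≤ 8)) := by
      intro a
      have hA := HR_upper hm hF1 hσ1 hR0 hR k l i a
      have hB := HR_upper hm hF1 hσ1 hR0 hR k' l' i' a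
      have hAB : HR m R k l i a * HR m R k' l' i' a ≤
          ((2 * K * D) * ind (|ρ * x i + w - x a| ≤ 8)) *
            ((2 * K * D) * ind (|ρ' * x i' + w' - x a| ≤ 8)) :=
        mul_le_mul hA hB (hH0 _ _ _ _) (mul_nonneg (by positivity) (ind_nonneg _))
      have hI : ind (|ρ * x i + w - x a| ≤ 8) * ind (|ρ' * x i' + w' - x a| ≤ 8) ≤
          ind (|x i - x i' + y| ≤ 68) * ind (|x a - (ρ * x i + w)| ≤ 8) := by
        rw [ind_mul_ind, ind_mul_ind]
        apply ind_mono
        rintro ⟨h1, h2⟩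
        refine ⟨?_, ?_⟩
        · have hρ'0 : 0 < ρ' := by linarith
          have e : x i - x i' + y = ((ρ * x i + w - x a) - (ρ' * x i' + w' - x a) -
              (ρ - ρ') * x i) / ρ' := by
            rw [hy]; field_simp; ring
          rw [e, abs_div, abs_of_pos hρ'0, div_le_iff₀ hρ'0]
          have h3 := abs_sub ((ρ * x i + w - x a) - (ρ' * x i' + w' - x a)) ((ρ - ρ') * x i)
          have h4 := abs_sub (ρ * x i + w - x a) (ρ' * x i' + w' - x a)
          have h5 : |(ρ - ρ') * x i| ≤ 1 := by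
            rw [abs_mul, abs_of_nonneg (hx i).1]
            calc |ρ - ρ'| * x i ≤ (1 / n) * n :=
                  mul_le_mul hq (hx i).2 (hx i).1 (by positivity)
              _ = 1 := by field_simp
          linarith
        · rw [abs_sub_comm]; exact h1
      calc m a * (HR m R k l i a * HR m R k' l' i' a) ≤ m a * (((2 * K * D) * ind (|ρ * x i + w - x a| ≤ 8)) *
            ((2 * K * D) * ind (|ρ' * x i' + w' - x a| ≤ 8))) :=
            mul_le_mul_of_nonneg_left hAB (hm a)
        _ = (m a * (4 * K ^ 2 * D ^ 2)) * (ind (|ρ * x i + w - x a| ≤ 8) *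
            ind (|ρ' * x i' + w' - x a| ≤ 8)) := by ring
        _ ≤ (m a * (4 * K ^ 2 * D ^ 2)) * (ind (|x i - x i' + y| ≤ 68) *
            ind (|x a - (ρ * x i + w)| ≤ 8)) :=
            mul_le_mul_of_nonneg_left hI (mul_nonneg (hm a) (by positivity))
        _ = _ := by ring
    calc ∑ a, m a * (HR m R k l i a * HR m R k' l' i' a)
        ≤ ∑ a, ((4 * K ^ 2 * D ^ 2) * ind (|x i - x i' + y| ≤ 68)) *
          (m a * ind (|x a - (ρ * x i + w)| ≤ 8)) := Finset.sum_le_sum fun a _ => h21 a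
      _ = ((4 * K ^ 2 * D ^ 2) * ind (|x i - x i' + y| ≤ 68)) *
          ∑ a, (m a * ind (|x a - (ρ * x i + w)| ≤ 8)) := by rw [Finset.mul_sum]
      _ ≤ ((4 * K ^ 2 * D ^ 2) * ind (|x i - x i' + y| ≤ 68)) * (K * (8 * D)) :=
          mul_le_mul_of_nonneg_left (hF1 _ 8 (by norm_num))
            (mul_nonneg (by positivity) (ind_nonneg _))
      _ = _ := by ring
  -- step 3: the `b b` bound
  have h3 : ∀ u, ∑ i, ∑ i', (m i * m i' * (bR m R u i * bR m R u i')) *
      ind (|x i - x i' + y| ≤ 68) ≤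
      (16 * K ^ 2 * D ^ 2) * ∑ j, ∑ j', m j * m j' * ind (|x j + σ u * y - x j'| ≤ 140) := by
    intro u
    have e3 : ∑ i, ∑ i', (m i * m i' * (bR m R u i * bR m R u i')) *
      ind (|x i - x i' + y| ≤ 68) = ∑ i, ∑ i', ∑ j, ∑ j', (m j * m j') * (m i * m i' *
        (R u i j * R u i' j' * ind (|x i - x i' + y| ≤ 68))) := by
      refine Finset.sum_congr rfl fun i _ => Finset.sum_congr rfl fun i' _ => ?_
      unfold bR
      rw [Finset.sum_mul_sum, Finset.mul_sum, Finset.sum_mul]
      refine Finset.sum_congr rfl fun j _ => ?_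
      rw [Finset.mul_sum, Finset.sum_mul]
      refine Finset.sum_congr rfl fun j' _ => ?_
      ring
    have e4 : (16 * K ^ 2 * D ^ 2) * ∑ j, ∑ j', m j * m j' * ind (|x j + σ u * y - x j'| ≤ 140) =
        ∑ j, ∑ j', (m j * m j' * ind (|x j + σ u * y - x j'| ≤ 140)) * ((4 * K * D) * (4 * K * D)) := by
      rw [Finset.mul_sum]
      refine Finset.sum_congr rfl fun j _ => ?_
      rw [Finset.mul_sum]
      refine Finset.sum_congr rfl fun j' _ => ?_
      ring
    rw [e3, e4]
    have e5 : ∑ i, ∑ i', ∑ j, ∑ j', (m j * m j') * (m i * m i' *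
        (R u i j * R u i' j' * ind (|x i - x i' + y| ≤ 68))) =
        ∑ j, ∑ j', ∑ i, ∑ i', (m j * m j') * (m i * m i' *
        (R u i j * R u i' j' * ind (|x i - x i' + y| ≤ 68))) := by
      calc _ = ∑ i, ∑ j, ∑ i', ∑ j', (m j * m j') * (m i * m i' *
        (R u i j * R u i' j' * ind (|x i - x i' + y| ≤ 68))) :=
              Finset.sum_congr rfl fun i _ => Finset.sum_comm
        _ = ∑ j, ∑ i, ∑ i', ∑ j', (m j * m j') * (m i * m i' *
        (R u i j * R u i' j' * ind (|x i - x i' + y| ≤ 68))) := Finset.sum_comm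
        _ = ∑ j, ∑ i, ∑ j', ∑ i', (m j * m j') * (m i * m i' *
        (R u i j * R u i' j' * ind (|x i - x i' + y| ≤ 68))) :=
              Finset.sum_congr rfl fun j _ => Finset.sum_congr rfl fun i _ => Finset.sum_comm
        _ = _ := Finset.sum_congr rfl fun j _ => Finset.sum_comm
    rw [e5]
    refine Finset.sum_le_sum fun j _ => Finset.sum_le_sum fun j' _ => ?_
    have h31 : ∀ i i', (m j * m j') * (m i * m i' *
        (R u i j * R u i' j' * ind (|x i - x i' + y| ≤ 68))) ≤
        (m j * m j' * ind (|x j + σ u * y - x j'| ≤ 140)) *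
          ((m i * ind (|σ u * x i + β u - x j| ≤ 2)) *
            (m i' * ind (|σ u * x i' + β u - x j'| ≤ 2))) := by
      intro i i'
      have hRR : R u i j * R u i' j' ≤
          ind (|σ u * x i + β u - x j| ≤ 2) * ind (|σ u * x i' + β u - x j'| ≤ 2) :=
        mul_le_mul (hR _ _ _) (hR _ _ _) (hR0 _ _ _) (ind_nonneg _)
      have hI : R u i j * R u i' j' * ind (|x i - x i' + y| ≤ 68) ≤
          ind (|x j + σ u * y - x j'| ≤ 140) *
            (ind (|σ u * x i + β u - x j| ≤ 2) * ind (|σ u * x i' + β u - x j'| ≤ 2)) := by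
        refine (mul_le_mul_of_nonneg_right hRR (ind_nonneg _)).trans ?_
        rw [ind_mul_ind, ind_mul_ind, ind_mul_ind]
        apply ind_mono
        rintro ⟨⟨h1, h2⟩, h3⟩
        refine ⟨?_, h1, h2⟩
        have e : x j + σ u * y - x j' = -(σ u * x i + β u - x j) + (σ u * x i' + β u - x j') +
            σ u * (x i - x i' + y) := by ring
        rw [e]
        have h4 : |σ u * (x i - x i' + y)| ≤ 2 * 68 := by
          rw [abs_mul, abs_of_nonneg (by linarith [(hσ u).1])]
          exact mul_le_mul (hσ u).2 h3 (abs_nonneg _) (by norm_num)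
        have h5 := abs_add_three (-(σ u * x i + β u - x j)) (σ u * x i' + β u - x j')
          (σ u * (x i - x i' + y))
        rw [abs_neg] at h5
        linarith
      have hmm : 0 ≤ m j * m j' * (m i * m i') :=
        mul_nonneg (mul_nonneg (hm _) (hm _)) (mul_nonneg (hm _) (hm _))
      calc (m j * m j') * (m i * m i' * (R u i j * R u i' j' * ind (|x i - x i' + y| ≤ 68)))
          = (m j * m j' * (m i * m i')) * (R u i j * R u i' j' * ind (|x i - x i' + y| ≤ 68)) := by ring
        _ ≤ (m j * m j' * (m i * m i')) * (ind (|x j + σ u * y - x j'| ≤ 140) *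
            (ind (|σ u * x i + β u - x j| ≤ 2) * ind (|σ u * x i' + β u - x j'| ≤ 2))) :=
            mul_le_mul_of_nonneg_left hI hmm
        _ = _ := by ring
    calc ∑ i, ∑ i', (m j * m j') * (m i * m i' *
        (R u i j * R u i' j' * ind (|x i - x i' + y| ≤ 68)))
        ≤ ∑ i, ∑ i', (m j * m j' * ind (|x j + σ u * y - x j'| ≤ 140)) *
          ((m i * ind (|σ u * x i + β u - x j| ≤ 2)) *
            (m i' * ind (|σ u * x i' + β u - x j'| ≤ 2))) :=
          Finset.sum_le_sum fun i _ => Finset.sum_le_sum fun i' _ => h31 i i'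
      _ = (m j * m j' * ind (|x j + σ u * y - x j'| ≤ 140)) *
          ((∑ i, m i * ind (|σ u * x i + β u - x j| ≤ 2)) *
            (∑ i', m i' * ind (|σ u * x i' + β u - x j'| ≤ 2))) := by
          rw [Finset.sum_mul_sum, Finset.mul_sum]
          refine Finset.sum_congr rfl fun i _ => ?_
          rw [Finset.mul_sum]
      _ ≤ _ := by
          refine mul_le_mul_of_nonneg_left ?_ (mul_nonneg (mul_nonneg (hm _) (hm _)) (ind_nonneg _))
          refine mul_le_mul (col_upper hm hF1 hσ1 u _) (col_upper hm hF1 hσ1 u _) ?_ (by positivity)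
          exact Finset.sum_nonneg fun i _ => mul_nonneg (hm _) (ind_nonneg _)
  rw [e1]
  calc ∑ u, ∑ i, ∑ i', (m i * m i' * (bR m R u i * bR m R u i')) *
        ∑ a, m a * (HR m R k l i a * HR m R k' l' i' a)
      ≤ ∑ u, ∑ i, ∑ i', (m i * m i' * (bR m R u i * bR m R u i')) *
        ((32 * K ^ 3 * D ^ 3) * ind (|x i - x i' + y| ≤ 68)) := by
        refine Finset.sum_le_sum fun u _ => Finset.sum_le_sum fun i _ =>
          Finset.sum_le_sum fun i' _ => ?_
        exact mul_le_mul_of_nonneg_left (h2 i i')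
          (mul_nonneg (mul_nonneg (hm _) (hm _)) (mul_nonneg (hb0 _ _) (hb0 _ _)))
    _ = (32 * K ^ 3 * D ^ 3) * ∑ u, ∑ i, ∑ i', (m i * m i' * (bR m R u i * bR m R u i')) *
        ind (|x i - x i' + y| ≤ 68) := by
        rw [Finset.mul_sum]
        refine Finset.sum_congr rfl fun u _ => ?_
        rw [Finset.mul_sum]
        refine Finset.sum_congr rfl fun i _ => ?_
        rw [Finset.mul_sum]
        refine Finset.sum_congr rfl fun i' _ => ?_
        ring
    _ ≤ (32 * K ^ 3 * D ^ 3) * ∑ u, (16 * K ^ 2 * D ^ 2) *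
        ∑ j, ∑ j', m j * m j' * ind (|x j + σ u * y - x j'| ≤ 140) :=
        mul_le_mul_of_nonneg_left (Finset.sum_le_sum fun u _ => h3 u) (by positivity)
    _ = _ := by
        unfold Psi
        rw [← Finset.mul_sum]
        ring

lemma Psi_trivial {m x : α → ℝ} {K D : ℝ} (hm : ∀ i, 0 ≤ m i) (hm1 : ∑ i, m i = 1)
    (hF1 : ∀ z r, 1 ≤ r → ∑ i, m i * ind (|x i - z| ≤ r) ≤ K * (r * D))
    (σ : ι → ℝ) (y : ℝ) :
    Psi m x σ y ≤ (Fintype.card ι : ℝ) * (140 * (K * D)) := by
  unfold Psi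
  calc ∑ u, ∑ j, ∑ j', m j * m j' * ind (|x j + σ u * y - x j'| ≤ 140)
      ≤ ∑ u : ι, 140 * (K * D) := by
        refine Finset.sum_le_sum fun u _ => ?_
        calc ∑ j, ∑ j', m j * m j' * ind (|x j + σ u * y - x j'| ≤ 140)
            = ∑ j, m j * ∑ j', m j' * ind (|x j' - (x j + σ u * y)| ≤ 140) := by
              refine Finset.sum_congr rfl fun j _ => ?_
              rw [Finset.mul_sum]
              refine Finset.sum_congr rfl fun j' _ => ?_
              rw [abs_sub_comm, mul_assoc]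
          _ ≤ ∑ j, m j * (K * (140 * D)) :=
              Finset.sum_le_sum fun j _ => mul_le_mul_of_nonneg_left (hF1 _ 140 (by norm_num)) (hm j)
          _ = 140 * (K * D) := by rw [← Finset.sum_mul, hm1]; ring
    _ = _ := by simp

lemma Psi_nonneg {m x : α → ℝ} (hm : ∀ i, 0 ≤ m i) (σ : ι → ℝ) (y : ℝ) :
    0 ≤ Psi m x σ y :=
  Finset.sum_nonneg fun u _ => Finset.sum_nonneg fun j _ => Finset.sum_nonneg fun j' _ =>
    mul_nonneg (mul_nonneg (hm _) (hm _)) (ind_nonneg _)

lemma Psi_decay {m x : α → ℝ} {K D n s : ℝ} (hm : ∀ i, 0 ≤ m i) (hm1 : ∑ i, m i = 1)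
    (hK : 0 ≤ K) (hD : 0 ≤ D) (hn : 1 ≤ n) (hs0 : 0 < s) (hs1 : s < 1)
    (hx : ∀ i, 0 ≤ x i ∧ x i ≤ n)
    (hF : ∀ z r, 1 ≤ r → ∑ i, m i * ind (|x i - z| ≤ r) ≤ K * (r ^ s * D))
    {σ : ι → ℝ} (hσ : ∀ k, 1 / 2 ≤ σ k ∧ σ k ≤ 2)
    (hsep : ∀ z r, 0 ≤ r → ∑ u, ind (|σ u - z| ≤ r) ≤ 8 * K * (r * n + 1))
    {y : ℝ} (hy : 1 ≤ |y|) :
    Psi m x σ y * |y| ^ (1 - s) ≤ 479392 * K ^ 2 * (n * D) := by
  have hy0 : 0 < |y| := by linarith
  have hyne : y ≠ 0 := by
    intro h; rw [h, abs_zero] at hy0; exact lt_irrefl _ hy0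
  by_cases hbig : |y| ≤ 282 * n
  · have h1 : Psi m x σ y ≤ ∑ j, ∑ j', (m j * m j' * ind (|x j' - x j| ≤ 142 * |y|)) *
        (8 * K * (140 / |y| * n + 1)) := by
      unfold Psi
      calc ∑ u, ∑ j, ∑ j', m j * m j' * ind (|x j + σ u * y - x j'| ≤ 140)
          = ∑ j, ∑ j', ∑ u, m j * m j' * ind (|x j + σ u * y - x j'| ≤ 140) := by
            rw [Finset.sum_comm]
            refine Finset.sum_congr rfl fun j _ => ?_
            rw [Finset.sum_comm]
        _ ≤ ∑ j, ∑ j', ∑ u, (m j * m j' * ind (|x j' - x j| ≤ 142 * |y|)) *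
              ind (|σ u - (x j' - x j) / y| ≤ 140 / |y|) := by
            refine Finset.sum_le_sum fun j _ => Finset.sum_le_sum fun j' _ =>
              Finset.sum_le_sum fun u _ => ?_
            rw [mul_assoc (m j * m j')]
            refine mul_le_mul_of_nonneg_left ?_ (mul_nonneg (hm _) (hm _))
            rw [ind_mul_ind]
            apply ind_mono
            intro h
            constructor
            · have e : x j' - x j = -(x j + σ u * y - x j') + σ u * y := by ring
              rw [e]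
              have h2 := abs_add_le (-(x j + σ u * y - x j')) (σ u * y)
              rw [abs_neg] at h2
              have h3 : |σ u * y| ≤ 2 * |y| := by
                rw [abs_mul, abs_of_nonneg (by linarith [(hσ u).1])]
                exact mul_le_mul_of_nonneg_right (hσ u).2 hy0.le
              linarith
            · have e : σ u - (x j' - x j) / y = (x j + σ u * y - x j') / y := by
                field_simp; ring
              rw [e, abs_div]
              exact div_le_div_of_nonneg_right h hy0.le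
        _ ≤ _ := by
            refine Finset.sum_le_sum fun j _ => Finset.sum_le_sum fun j' _ => ?_
            rw [← Finset.mul_sum]
            exact mul_le_mul_of_nonneg_left (hsep _ _ (by positivity))
              (mul_nonneg (mul_nonneg (hm _) (hm _)) (ind_nonneg _))
    have h2 : ∑ j, ∑ j', (m j * m j' * ind (|x j' - x j| ≤ 142 * |y|)) *
        (8 * K * (140 / |y| * n + 1)) ≤ (K * ((142 * |y|) ^ s * D)) * (8 * K * (140 / |y| * n + 1)) := by
      have hc : 0 ≤ 8 * K * (140 / |y| * n + 1) := by positivity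
      calc _ = (∑ j, m j * ∑ j', m j' * ind (|x j' - x j| ≤ 142 * |y|)) *
            (8 * K * (140 / |y| * n + 1)) := by
            rw [Finset.sum_mul]
            refine Finset.sum_congr rfl fun j _ => ?_
            rw [Finset.mul_sum, Finset.sum_mul]
            refine Finset.sum_congr rfl fun j' _ => ?_
            ring
        _ ≤ (∑ j, m j * (K * ((142 * |y|) ^ s * D))) * (8 * K * (140 / |y| * n + 1)) := by
            refine mul_le_mul_of_nonneg_right ?_ hc
            exact Finset.sum_le_sum fun j _ =>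
              mul_le_mul_of_nonneg_left (hF _ _ (by linarith)) (hm j)
        _ = _ := by rw [← Finset.sum_mul, hm1, one_mul]
    have h3 : 140 / |y| * n + 1 ≤ 422 * (n / |y|) := by
      have : 1 ≤ 282 * (n / |y|) := by
        rw [← mul_div_assoc, le_div_iff₀ hy0]; linarith
      have e : 140 / |y| * n = 140 * (n / |y|) := by ring
      rw [e]; linarith
    have h4 : (142 * |y|) ^ s ≤ 142 * |y| ^ s := by
      rw [Real.mul_rpow (by norm_num) hy0.le]
      refine mul_le_mul_of_nonneg_right ?_ (by positivity)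
      calc (142 : ℝ) ^ s ≤ (142 : ℝ) ^ (1 : ℝ) :=
            Real.rpow_le_rpow_of_exponent_le (by norm_num) hs1.le
        _ = 142 := Real.rpow_one _
    have h5 : Psi m x σ y ≤ (K * (142 * |y| ^ s * D)) * (8 * K * (422 * (n / |y|))) := by
      refine (h1.trans h2).trans ?_
      refine mul_le_mul ?_ ?_ (by positivity) (by positivity)
      · exact mul_le_mul_of_nonneg_left (mul_le_mul_of_nonneg_right h4 hD) hK
      · exact mul_le_mul_of_nonneg_left h3 (by positivity)
    calc Psi m x σ y * |y| ^ (1 - s) ≤ ((K * (142 * |y| ^ s * D)) * (8 * K * (422 * (n / |y|)))) *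
          |y| ^ (1 - s) := mul_le_mul_of_nonneg_right h5 (by positivity)
      _ = 479392 * K ^ 2 * (n * D) * ((|y| ^ s * |y| ^ (1 - s)) / |y|) := by ring
      _ = 479392 * K ^ 2 * (n * D) := by
          rw [← Real.rpow_add hy0]
          have : s + (1 - s) = 1 := by ring
          rw [this, Real.rpow_one, div_self hy0.ne', mul_one]
  · have h0 : Psi m x σ y = 0 := by
      unfold Psi
      refine Finset.sum_eq_zero fun u _ => Finset.sum_eq_zero fun j _ => Finset.sum_eq_zero fun j' _ => ?_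
      rw [ind_false, mul_zero]
      intro h
      apply hbig
      have e : σ u * y = (x j + σ u * y - x j') + (x j' - x j) := by ring
      have h1 : |σ u * y| ≤ 140 + n := by
        rw [e]
        have h2 := abs_add_le (x j + σ u * y - x j') (x j' - x j)
        have h3 : |x j' - x j| ≤ n := by
          rw [abs_le]; constructor <;> linarith [(hx j).1, (hx j).2, (hx j').1, (hx j').2]
        linarith
      rw [abs_mul, abs_of_nonneg (by linarith [(hσ u).1])] at h1
      have h4 : 1 / 2 * |y| ≤ σ u * |y| := mul_le_mul_of_nonneg_right (hσ u).1 hy0.le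
      linarith
    rw [h0, zero_mul]
    positivity

end

end Pool.Agent.V7H80.Sum
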