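import Pool.Agent.V7H80.Sum.C2

/-!
The incidence theorem: many rich affine maps with separated slopes force `n ≤ K ^ E`.
-/

set_option maxHeartbeats 2000000

namespace Pool.Agent.V7H80.Sum

open Finset

section

variable {α ι : Type*} [Fintype α] [Fintype ι]

/-- number of `k` with `τ k / τ l` near a given value -/
lemma count_ratio {K n : ℝ} (hn : 0 < n) {τ : ι → ℝ} (hτ : ∀ k, 1 / 2 ≤ τ k ∧ τ k ≤ 2)
    (hsep : ∀ z r, 0 ≤ r → ∑ u, ind (|τ u - z| ≤ r) ≤ K * (r * n + 1)) (l : ι) (z : ℝ) :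
    ∑ k, ind (|τ k / τ l - z| ≤ 1 / n) ≤ 3 * K := by
  have hl : 0 < τ l := by linarith [(hτ l).1]
  calc ∑ k, ind (|τ k / τ l - z| ≤ 1 / n) ≤ ∑ k, ind (|τ k - τ l * z| ≤ 2 / n) := by
        refine Finset.sum_le_sum fun k _ => ind_mono fun h => ?_
        have e : τ k - τ l * z = τ l * (τ k / τ l - z) := by field_simp
        rw [e, abs_mul, abs_of_pos hl]
        calc τ l * |τ k / τ l - z| ≤ 2 * (1 / n) :=
              mul_le_mul (hτ l).2 h (abs_nonneg _) (by norm_num)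
          _ = 2 / n := by ring
    _ ≤ K * (2 / n * n + 1) := hsep _ _ (by positivity)
    _ = 3 * K := by field_simp; ring

lemma count_near_one {K n b : ℝ} (hb : 0 ≤ b) {τ : ι → ℝ}
    (hτ : ∀ k, 1 / 2 ≤ τ k ∧ τ k ≤ 2)
    (hsep : ∀ z r, 0 ≤ r → ∑ u, ind (|τ u - z| ≤ r) ≤ K * (r * n + 1)) (l : ι) :
    ∑ k, ind (|τ k / τ l - 1| < b) ≤ K * (2 * b * n + 1) := by
  have hl : 0 < τ l := by linarith [(hτ l).1]
  calc ∑ k, ind (|τ k / τ l - 1| < b) ≤ ∑ k, ind (|τ k - τ l| ≤ 2 * b) := by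
        refine Finset.sum_le_sum fun k _ => ind_mono fun h => ?_
        have e : τ k - τ l = τ l * (τ k / τ l - 1) := by field_simp
        rw [e, abs_mul, abs_of_pos hl]
        exact mul_le_mul (hτ l).2 h.le (abs_nonneg _) (by norm_num)
    _ ≤ K * (2 * b * n + 1) := hsep _ _ (by positivity)

/-- separation for the inverse slopes -/
lemma sep_inv {K n : ℝ} (hK : 0 ≤ K) (hn : 0 ≤ n) {τ : ι → ℝ}
    (hτ : ∀ k, 1 / 2 ≤ τ k ∧ τ k ≤ 2)
    (hsep : ∀ z r, 0 ≤ r → ∑ u, ind (|τ u - z| ≤ r) ≤ K * (r * n + 1)) (z r : ℝ) (hr : 0 ≤ r) :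
    ∑ u, ind (|1 / τ u - z| ≤ r) ≤ 8 * K * (r * n + 1) := by
  by_cases h : ∃ u0, |1 / τ u0 - z| ≤ r
  · obtain ⟨u0, h0⟩ := h
    calc ∑ u, ind (|1 / τ u - z| ≤ r) ≤ ∑ u, ind (|τ u - τ u0| ≤ 8 * r) := by
          refine Finset.sum_le_sum fun u _ => ind_mono fun h => ?_
          have hu : 0 < τ u := by linarith [(hτ u).1]
          have hu0 : 0 < τ u0 := by linarith [(hτ u0).1]
          have e : τ u - τ u0 = (τ u * τ u0) * ((1 / τ u0 - z) - (1 / τ u - z)) := by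
            field_simp; ring
          rw [e, abs_mul, abs_of_pos (by positivity)]
          have h1 := abs_sub (1 / τ u0 - z) (1 / τ u - z)
          have h2 : τ u * τ u0 ≤ 4 := by nlinarith [(hτ u).2, (hτ u0).2]
          calc (τ u * τ u0) * |(1 / τ u0 - z) - (1 / τ u - z)| ≤ 4 * (2 * r) :=
                mul_le_mul h2 (by linarith) (abs_nonneg _) (by norm_num)
            _ = 8 * r := by ring
      _ ≤ K * (8 * r * n + 1) := hsep _ _ (by positivity)
      _ ≤ 8 * K * (r * n + 1) := by nlinarith [mul_nonneg hr hn]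
  · have : ∑ u, ind (|1 / τ u - z| ≤ r) = 0 :=
      Finset.sum_eq_zero fun u _ => ind_false fun hu => h ⟨u, hu⟩
    rw [this]
    have := mul_nonneg hr hn
    positivity

end

end Pool.Agent.V7H80.Sum
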