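import Pool.Agent.V7H80.Sum.C3

/-!
The incidence theorem, first half: many good pairs.
-/

set_option maxHeartbeats 2000000

namespace Pool.Agent.V7H80.Sum

open Finset

/-- A configuration of many rich affine maps. -/
structure Conf {α ι : Type*} [Fintype α] [Fintype ι] (m x : α → ℝ) (K n s : ℝ)
    (τ v : ι → ℝ) : Prop where
  hm : ∀ i, 0 ≤ m i
  hm1 : ∑ i, m i = 1
  hs0 : 0 < s
  hs1 : s < 1
  hK : 10 ^ 6 ≤ K
  hn : 1 ≤ n
  hx : ∀ i, 0 ≤ x i ∧ x i ≤ n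
  hF : ∀ z r, 1 ≤ r → ∑ i, m i * ind (|x i - z| ≤ r) ≤ K * (r ^ s * n ^ (-s))
  hτ : ∀ k, 1 / 2 ≤ τ k ∧ τ k ≤ 2
  hsep : ∀ z r, 0 ≤ r → ∑ u, ind (|τ u - z| ≤ r) ≤ K * (r * n + 1)
  hM : n / K ≤ (Fintype.card ι : ℝ)
  hS : ∀ k, n ^ (-s) / K ≤ ∑ i, ∑ j, m i * m j * ind (|τ k * x i + v k - x j| ≤ 1)

section

variable {α ι : Type*} [Fintype α] [Fintype ι]

/-- slope of the composed map -/
noncomputable def rho (τ : ι → ℝ) (p : ι × ι) : ℝ := τ p.1 / τ p.2
/-- translation part -/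
noncomputable def ww (τ v : ι → ℝ) (p : ι × ι) : ℝ := (v p.1 - v p.2) / τ p.2
/-- dual translation part -/
noncomputable def wt (τ v : ι → ℝ) (p : ι × ι) : ℝ := v p.1 - rho τ p * v p.2
/-- normalised difference of translations -/
noncomputable def YY (τ v : ι → ℝ) (p p' : ι × ι) : ℝ := (ww τ v p - ww τ v p') / rho τ p'
/-- normalised difference of dual translations -/
noncomputable def YT (τ v : ι → ℝ) (p p' : ι × ι) : ℝ := (wt τ v p - wt τ v p') / rho τ p'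

variable {m x : α → ℝ} {K n s : ℝ} {τ v : ι → ℝ}

lemma Conf.K0 (h : Conf m x K n s τ v) : 0 < K := by linarith [h.hK, (by norm_num : (0:ℝ) < 10^6)]

lemma Conf.n0 (h : Conf m x K n s τ v) : 0 < n := by linarith [h.hn]

lemma Conf.D0 (h : Conf m x K n s τ v) : 0 < n ^ (-s) := Real.rpow_pos_of_pos h.n0 _

lemma Conf.hF1 (h : Conf m x K n s τ v) :
    ∀ z r, 1 ≤ r → ∑ i, m i * ind (|x i - z| ≤ r) ≤ K * (r * n ^ (-s)) := by
  intro z r hr
  refine (h.hF z r hr).trans ?_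
  refine mul_le_mul_of_nonneg_left ?_ h.K0.le
  refine mul_le_mul_of_nonneg_right ?_ h.D0.le
  calc r ^ s ≤ r ^ (1 : ℝ) := Real.rpow_le_rpow_of_exponent_le hr h.hs1.le
    _ = r := Real.rpow_one r

lemma Conf.card_upper (h : Conf m x K n s τ v) : (Fintype.card ι : ℝ) ≤ 2 * K * n := by
  have h1 : (Fintype.card ι : ℝ) = ∑ u, ind (|τ u - 5/4| ≤ 3/4) := by
    have : ∀ u ∈ (Finset.univ : Finset ι), ind (|τ u - 5/4| ≤ 3/4) = 1 := by
      intro u _
      refine ind_true ?_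
      rw [abs_le]
      constructor <;> linarith [(h.hτ u).1, (h.hτ u).2]
    rw [Finset.sum_congr rfl this]
    simp
  rw [h1]
  refine (h.hsep _ _ (by norm_num)).trans ?_
  have := h.hn
  have := h.K0
  nlinarith

lemma Conf.card_pos (h : Conf m x K n s τ v) : 0 < Fintype.card ι := by
  have : (0 : ℝ) < (Fintype.card ι : ℝ) := lt_of_lt_of_le (div_pos h.n0 h.K0) h.hM
  exact_mod_cast this

lemma Conf.rho_bounds (h : Conf m x K n s τ v) (p : ι × ι) :
    1 / 4 ≤ rho τ p ∧ rho τ p ≤ 4 := by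
  have h1 := h.hτ p.1
  have h2 := h.hτ p.2
  unfold rho
  have h3 : 0 < τ p.2 := by linarith
  constructor
  · rw [le_div_iff₀ h3]; linarith
  · rw [div_le_iff₀ h3]; linarith

/-- the kernel -/
noncomputable def rk (x : α → ℝ) (τ v : ι → ℝ) : ι → α → α → ℝ :=
  fun k i j => ind (|τ k * x i + v k - x j| ≤ 1)

lemma Conf.P1_bound (h : Conf m x K n s τ v) (p p' : ι × ι) (hq : |rho τ p - rho τ p'| ≤ 1 / n) :
    ∑ z : ι × α, m z.2 * (XR m (rk x τ v) p.1 p.2 z * XR m (rk x τ v) p'.1 p'.2 z) ≤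
      (512 * K ^ 5 * (n ^ (-s)) ^ 5) * Psi m x τ (YY τ v p p') :=
  inner_upper h.hm h.K0.le h.D0.le h.n0 h.hx h.hF1 (σ := τ) (β := v) h.hτ
    (fun _ _ _ => ind_nonneg _) (fun k i j => ind_mono fun h => h.trans (by norm_num)) _ _ _ _ hq

lemma Conf.P2_bound (h : Conf m x K n s τ v) (p p' : ι × ι) (hq : |rho τ p - rho τ p'| ≤ 1 / n) :
    ∑ z : ι × α, m z.2 * (XR m (fun k i j => rk x τ v k j i) p.2 p.1 z *
      XR m (fun k i j => rk x τ v k j i) p'.2 p'.1 z) ≤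
      (512 * K ^ 5 * (n ^ (-s)) ^ 5) * Psi m x (fun k => 1 / τ k) (YT τ v p p') := by
  have hpos : ∀ k, 0 < τ k := fun k => by linarith [(h.hτ k).1]
  have hσ : ∀ k, 1 / 2 ≤ 1 / τ k ∧ 1 / τ k ≤ 2 := by
    intro k
    have h1 := h.hτ k
    have h2 := hpos k
    constructor
    · rw [div_le_div_iff₀ (by norm_num) h2]; linarith
    · rw [div_le_iff₀ h2]; linarith
  have e : ∀ p : ι × ι, (1 / τ p.2) / (1 / τ p.1) = rho τ p := by
    intro p
    have := hpos p.1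
    have := hpos p.2
    unfold rho
    field_simp
  have e2 : ∀ p : ι × ι, ((-v p.2 / τ p.2) - (-v p.1 / τ p.1)) / (1 / τ p.1) = wt τ v p := by
    intro p
    have := hpos p.1
    have := hpos p.2
    unfold wt rho
    field_simp
    ring
  have := inner_upper h.hm h.K0.le h.D0.le h.n0 h.hx h.hF1 (σ := fun k => 1 / τ k)
    (β := fun k => -v k / τ k) hσ (R := fun k i j => rk x τ v k j i)
    (fun _ _ _ => ind_nonneg _) ?_ p.2 p.1 p'.2 p'.1 ?_
  · simp only [e, e2] at this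
    exact this
  · intro k i j
    refine ind_mono fun h1 => ?_
    have hk := hpos k
    have e3 : 1 / τ k * x i + -v k / τ k - x j = -((τ k * x j + v k - x i) / τ k) := by
      field_simp; ring
    rw [e3, abs_neg, abs_div, abs_of_pos hk, div_le_iff₀ hk]
    have := (h.hτ k).1
    linarith
  · simp only [e]; exact hq

/-- Energy `J` is bounded above by the `Psi` functions -/
lemma Conf.main_ineq (h : Conf m x K n s τ v) :
    n ^ 5 * (n ^ (-s)) ^ 2 ≤ K ^ 31 *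
      ∑ p : ι × ι, ∑ p' : ι × ι, ind (|rho τ p - rho τ p'| ≤ 1 / n) *
        (Psi m x τ (YY τ v p p') * Psi m x (fun k => 1 / τ k) (YT τ v p p')) := by
  have hn := h.n0
  have hK := h.K0
  have hD := h.D0
  set D : ℝ := n ^ (-s) with hDdef
  have hrho : ∀ p : ι × ι, 0 ≤ n * rho τ p := fun p =>
    mul_nonneg hn.le (by linarith [(h.rho_bounds p).1])
  have hqlt : ∀ p : ι × ι, ⌊n * rho τ p⌋₊ < ⌊4 * n⌋₊ + 1 := by
    intro p
    apply Nat.lt_succ_of_le
    apply Nat.floor_le_floor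
    have := (h.rho_bounds p).2
    nlinarith
  set q : ι × ι → Fin (⌊4 * n⌋₊ + 1) := fun p => ⟨⌊n * rho τ p⌋₊, hqlt p⟩ with hq
  set T : ℝ := ∑ k, ∑ i, ∑ j, m i * m j * rk x τ v k i j with hT
  have hr0 : ∀ k i j, 0 ≤ rk x τ v k i j := fun _ _ _ => ind_nonneg _
  have hT0 : 0 ≤ T := Finset.sum_nonneg fun k _ => Finset.sum_nonneg fun i _ =>
    Finset.sum_nonneg fun j _ => mul_nonneg (mul_nonneg (h.hm _) (h.hm _)) (hr0 _ _ _)
  have hen := energy_lower q h.hm h.hm1 hr0 h.card_pos T hT0 hT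
  set M : ℝ := (Fintype.card ι : ℝ) with hM
  have hMpos : 0 < M := by rw [hM]; exact_mod_cast h.card_pos
  have hTlow : M * (D / K) ≤ T := by
    rw [hT]
    calc M * (D / K) = ∑ k : ι, D / K := by simp [hM]
      _ ≤ _ := Finset.sum_le_sum fun k _ => h.hS k
  set J : ℝ := ∑ p : ι × ι, ∑ p' : ι × ι, ind (q p = q p') *
        ((∑ z : ι × α, m z.2 * (XR m (rk x τ v) p.1 p.2 z * XR m (rk x τ v) p'.1 p'.2 z)) *
         (∑ z : ι × α, m z.2 * (XR m (fun k i j => rk x τ v k j i) p.2 p.1 z *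
            XR m (fun k i j => rk x τ v k j i) p'.2 p'.1 z))) with hJ
  set P : ℝ := ∑ p : ι × ι, ∑ p' : ι × ι, ind (|rho τ p - rho τ p'| ≤ 1 / n) *
        (Psi m x τ (YY τ v p p') * Psi m x (fun k => 1 / τ k) (YT τ v p p')) with hP
  have hP0 : 0 ≤ P := Finset.sum_nonneg fun p _ => Finset.sum_nonneg fun p' _ =>
    mul_nonneg (ind_nonneg _) (mul_nonneg (Psi_nonneg h.hm _ _) (Psi_nonneg h.hm _ _))
  have hJup : J ≤ (512 * K ^ 5 * D ^ 5) ^ 2 * P := by
    rw [hJ, hP, Finset.mul_sum]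
    refine Finset.sum_le_sum fun p _ => ?_
    rw [Finset.mul_sum]
    refine Finset.sum_le_sum fun p' _ => ?_
    by_cases hpq : q p = q p'
    · have hclose : |rho τ p - rho τ p'| ≤ 1 / n := by
        have hfl : ⌊n * rho τ p⌋₊ = ⌊n * rho τ p'⌋₊ := by
          have := congrArg Fin.val hpq
          simpa [hq] using this
        have h1 := Nat.floor_le (hrho p)
        have h2 := Nat.lt_floor_add_one (n * rho τ p)
        have h3 := Nat.floor_le (hrho p')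
        have h4 := Nat.lt_floor_add_one (n * rho τ p')
        rw [hfl] at h1 h2
        rw [le_div_iff₀ hn]
        have h5 : |rho τ p - rho τ p'| * n = |n * rho τ p - n * rho τ p'| := by
          rw [← mul_sub, abs_mul, abs_of_pos hn, mul_comm]
        rw [h5, abs_le]
        constructor <;> linarith
      rw [ind_true hpq, ind_true hclose, one_mul, one_mul]
      have hA := h.P1_bound p p' hclose
      have hB := h.P2_bound p p' hclose
      have hB0 : 0 ≤ ∑ z : ι × α, m z.2 * (XR m (fun k i j => rk x τ v k j i) p.2 p.1 z *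
            XR m (fun k i j => rk x τ v k j i) p'.2 p'.1 z) :=
        Finset.sum_nonneg fun z _ => mul_nonneg (h.hm _)
          (mul_nonneg (XR_nonneg h.hm (fun _ _ _ => ind_nonneg _) _ _ _)
            (XR_nonneg h.hm (fun _ _ _ => ind_nonneg _) _ _ _))
      calc _ ≤ ((512 * K ^ 5 * D ^ 5) * Psi m x τ (YY τ v p p')) *
            ((512 * K ^ 5 * D ^ 5) * Psi m x (fun k => 1 / τ k) (YT τ v p p')) :=
            mul_le_mul hA hB hB0 (mul_nonneg (by positivity) (Psi_nonneg h.hm _ _))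
        _ = _ := by ring
    · rw [ind_false hpq, zero_mul]
      exact mul_nonneg (by positivity)
        (mul_nonneg (ind_nonneg _) (mul_nonneg (Psi_nonneg h.hm _ _) (Psi_nonneg h.hm _ _)))
  have hcard : ((Fintype.card (Fin (⌊4 * n⌋₊ + 1)) : ℕ) : ℝ) ≤ 5 * n := by
    rw [Fintype.card_fin]
    push_cast
    have := Nat.floor_le (by linarith : 0 ≤ 4 * n)
    linarith [h.hn]
  -- combine
  have hJ0 : 0 ≤ (512 * K ^ 5 * D ^ 5) ^ 2 * P := mul_nonneg (sq_nonneg _) hP0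
  have h1 : T ^ 12 ≤ 2 ^ 16 * M ^ 6 * (5 * n) * ((512 * K ^ 5 * D ^ 5) ^ 2 * P) := by
    refine hen.trans ?_
    refine (mul_le_mul_of_nonneg_left hJup (by positivity)).trans ?_
    refine mul_le_mul_of_nonneg_right ?_ hJ0
    exact mul_le_mul_of_nonneg_left hcard (by positivity)
  have h2 : (M * (D / K)) ^ 12 ≤ T ^ 12 := pow_le_pow_left₀ (by positivity) hTlow 12
  have h3 : M ^ 6 * (M ^ 6 * (D ^ 12)) ≤
      M ^ 6 * (K ^ 12 * (2 ^ 16 * (5 * n) * ((512 * K ^ 5 * D ^ 5) ^ 2 * P))) := by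
    calc M ^ 6 * (M ^ 6 * (D ^ 12)) = K ^ 12 * (M * (D / K)) ^ 12 := by field_simp
      _ ≤ K ^ 12 * (2 ^ 16 * M ^ 6 * (5 * n) * ((512 * K ^ 5 * D ^ 5) ^ 2 * P)) :=
          mul_le_mul_of_nonneg_left (h2.trans h1) (by positivity)
      _ = _ := by ring
  have h4 : M ^ 6 * (D ^ 12) ≤ K ^ 12 * (2 ^ 16 * (5 * n) * ((512 * K ^ 5 * D ^ 5) ^ 2 * P)) :=
    le_of_mul_le_mul_left h3 (by positivity)
  have h5 : (n / K) ^ 6 * D ^ 12 ≤ M ^ 6 * D ^ 12 :=
    mul_le_mul_of_nonneg_right (pow_le_pow_left₀ (by positivity) h.hM 6) (by positivity)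
  have h6 : (n * D ^ 10) * (n ^ 5 * D ^ 2) ≤ (n * D ^ 10) * ((327680 * 262144 * K ^ 28) * P) := by
    calc (n * D ^ 10) * (n ^ 5 * D ^ 2) = K ^ 6 * ((n / K) ^ 6 * D ^ 12) := by field_simp
      _ ≤ K ^ 6 * (K ^ 12 * (2 ^ 16 * (5 * n) * ((512 * K ^ 5 * D ^ 5) ^ 2 * P))) :=
          mul_le_mul_of_nonneg_left (h5.trans h4) (by positivity)
      _ = _ := by ring
  have h7 : n ^ 5 * D ^ 2 ≤ (327680 * 262144 * K ^ 28) * P :=
    le_of_mul_le_mul_left h6 (by positivity)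
  refine h7.trans (mul_le_mul_of_nonneg_right ?_ hP0)
  have h8 : (327680 * 262144 : ℝ) ≤ K ^ 2 := by
    have := h.hK
    nlinarith
  have h9 : K ^ 2 ≤ K ^ 3 := pow_le_pow_right₀ (by linarith [h.hK]) (by norm_num)
  calc (327680 * 262144 * K ^ 28) ≤ K ^ 3 * K ^ 28 :=
        mul_le_mul_of_nonneg_right (h8.trans h9) (by positivity)
    _ = K ^ 31 := by ring

/-- trivial bounds for the two `Psi` -/
lemma Conf.Psi_le (h : Conf m x K n s τ v) (σ : ι → ℝ) (y : ℝ) :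
    Psi m x σ y ≤ K ^ 3 * (n * n ^ (-s)) := by
  refine (Psi_trivial h.hm h.hm1 h.hF1 σ y).trans ?_
  have hn := h.n0
  have hK := h.K0
  have hD := h.D0
  calc (Fintype.card ι : ℝ) * (140 * (K * n ^ (-s))) ≤ (2 * K * n) * (140 * (K * n ^ (-s))) :=
        mul_le_mul_of_nonneg_right h.card_upper (by positivity)
    _ = 280 * (K ^ 2 * (n * n ^ (-s))) := by ring
    _ ≤ K * (K ^ 2 * (n * n ^ (-s))) :=
        mul_le_mul_of_nonneg_right (by linarith [h.hK]) (by positivity)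
    _ = _ := by ring

/-- sum of `G` -/
lemma Conf.G_sum_left (h : Conf m x K n s τ v) (z : ℝ) :
    ∑ p : ι × ι, ind (|rho τ p - z| ≤ 1 / n) ≤ 6 * K ^ 2 * n := by
  rw [Fintype.sum_prod_type, Finset.sum_comm]
  calc ∑ l, ∑ k, ind (|rho τ (k, l) - z| ≤ 1 / n) ≤ ∑ l : ι, 3 * K :=
        Finset.sum_le_sum fun l _ => count_ratio h.n0 h.hτ h.hsep l z
    _ = (Fintype.card ι : ℝ) * (3 * K) := by simp
    _ ≤ (2 * K * n) * (3 * K) := mul_le_mul_of_nonneg_right h.card_upper (by linarith [h.K0])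
    _ = _ := by ring

lemma Conf.card_sq (h : Conf m x K n s τ v) :
    (Fintype.card (ι × ι) : ℝ) ≤ 4 * K ^ 2 * n ^ 2 := by
  rw [Fintype.card_prod]
  push_cast
  have h1 := h.card_upper
  have h2 : (0 : ℝ) ≤ Fintype.card ι := Nat.cast_nonneg _
  have hn := h.n0
  have hK := h.K0
  calc (Fintype.card ι : ℝ) * Fintype.card ι ≤ (2 * K * n) * (2 * K * n) :=
        mul_le_mul h1 h1 h2 (by positivity)
    _ = _ := by ring

lemma Conf.G_sum (h : Conf m x K n s τ v) :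
    ∑ p : ι × ι, ∑ p' : ι × ι, ind (|rho τ p - rho τ p'| ≤ 1 / n) ≤ K ^ 5 * n ^ 3 := by
  have hn := h.n0
  have hK := h.K0
  calc ∑ p : ι × ι, ∑ p' : ι × ι, ind (|rho τ p - rho τ p'| ≤ 1 / n)
      = ∑ p : ι × ι, ∑ p' : ι × ι, ind (|rho τ p' - rho τ p| ≤ 1 / n) := by
        refine Finset.sum_congr rfl fun p _ => Finset.sum_congr rfl fun p' _ => ?_
        rw [abs_sub_comm]
    _ ≤ ∑ p : ι × ι, 6 * K ^ 2 * n := Finset.sum_le_sum fun p _ => h.G_sum_left _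
    _ = (Fintype.card (ι × ι) : ℝ) * (6 * K ^ 2 * n) := by simp
    _ ≤ (4 * K ^ 2 * n ^ 2) * (6 * K ^ 2 * n) :=
        mul_le_mul_of_nonneg_right h.card_sq (by positivity)
    _ = 24 * (K ^ 4 * n ^ 3) := by ring
    _ ≤ K * (K ^ 4 * n ^ 3) := mul_le_mul_of_nonneg_right (by linarith [h.hK]) (by positivity)
    _ = _ := by ring

/-- the good relation -/
def Good (m x : α → ℝ) (K n s : ℝ) (τ v : ι → ℝ) (p p' : ι × ι) : Prop :=
  n * n ^ (-s) / K ^ 41 ≤ Psi m x τ (YY τ v p p') ∧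
  n * n ^ (-s) / K ^ 41 ≤ Psi m x (fun k => 1 / τ k) (YT τ v p p')

lemma Conf.good_many (h : Conf m x K n s τ v) :
    n ^ 3 / K ^ 38 ≤ ∑ p : ι × ι, ∑ p' : ι × ι, ind (|rho τ p - rho τ p'| ≤ 1 / n) *
        ind (Good m x K n s τ v p p') := by
  have hmain := h.main_ineq
  have hn := h.n0
  have hK := h.K0
  have hD := h.D0
  have hGs := h.G_sum
  set D : ℝ := n ^ (-s) with hDdef
  set Gs : ℝ := ∑ p : ι × ι, ∑ p' : ι × ι, ind (|rho τ p - rho τ p'| ≤ 1 / n) with hGsdef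
  set N : ℝ := ∑ p : ι × ι, ∑ p' : ι × ι, ind (|rho τ p - rho τ p'| ≤ 1 / n) *
        ind (Good m x K n s τ v p p') with hN
  have hpt : ∀ p p' : ι × ι, Psi m x τ (YY τ v p p') * Psi m x (fun k => 1 / τ k) (YT τ v p p') ≤
      (n * D / K ^ 41) * (K ^ 3 * (n * D)) + (K ^ 3 * (n * D)) ^ 2 * ind (Good m x K n s τ v p p') := by
    intro p p'
    have h1 := h.Psi_le τ (YY τ v p p')
    have h2 := h.Psi_le (fun k => 1 / τ k) (YT τ v p p')
    have h10 := Psi_nonneg (x := x) h.hm τ (YY τ v p p')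
    have h20 := Psi_nonneg (x := x) h.hm (fun k => 1 / τ k) (YT τ v p p')
    by_cases hg : Good m x K n s τ v p p'
    · rw [ind_true hg]
      have : Psi m x τ (YY τ v p p') * Psi m x (fun k => 1 / τ k) (YT τ v p p') ≤
          (K ^ 3 * (n * D)) * (K ^ 3 * (n * D)) := mul_le_mul h1 h2 h20 (by positivity)
      have h3 : 0 ≤ (n * D / K ^ 41) * (K ^ 3 * (n * D)) := by positivity
      nlinarith
    · rw [ind_false hg, mul_zero, add_zero]
      unfold Good at hg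
      rw [not_and_or] at hg
      rcases hg with hg | hg
      · exact mul_le_mul (not_le.mp hg).le h2 h20 (by positivity)
      · rw [mul_comm]
        exact mul_le_mul (not_le.mp hg).le h1 h10 (by positivity)
  have hsum : ∑ p : ι × ι, ∑ p' : ι × ι, ind (|rho τ p - rho τ p'| ≤ 1 / n) *
        (Psi m x τ (YY τ v p p') * Psi m x (fun k => 1 / τ k) (YT τ v p p')) ≤
      ((n * D / K ^ 41) * (K ^ 3 * (n * D))) * Gs + (K ^ 3 * (n * D)) ^ 2 * N := by
    rw [hGsdef, hN, Finset.mul_sum, Finset.mul_sum, ← Finset.sum_add_distrib]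
    refine Finset.sum_le_sum fun p _ => ?_
    rw [Finset.mul_sum, Finset.mul_sum, ← Finset.sum_add_distrib]
    refine Finset.sum_le_sum fun p' _ => ?_
    calc _ ≤ ind (|rho τ p - rho τ p'| ≤ 1 / n) * ((n * D / K ^ 41) * (K ^ 3 * (n * D)) +
          (K ^ 3 * (n * D)) ^ 2 * ind (Good m x K n s τ v p p')) :=
          mul_le_mul_of_nonneg_left (hpt p p') (ind_nonneg _)
      _ = _ := by ring
  have h1 : n ^ 5 * D ^ 2 ≤ K ^ 31 * (((n * D / K ^ 41) * (K ^ 3 * (n * D))) * (K ^ 5 * n ^ 3) +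
      (K ^ 3 * (n * D)) ^ 2 * N) := by
    refine hmain.trans (mul_le_mul_of_nonneg_left (hsum.trans ?_) (by positivity))
    exact add_le_add (mul_le_mul_of_nonneg_left hGs (by positivity)) le_rfl
  have h2 : K ^ 31 * (((n * D / K ^ 41) * (K ^ 3 * (n * D))) * (K ^ 5 * n ^ 3) +
      (K ^ 3 * (n * D)) ^ 2 * N) = n ^ 5 * D ^ 2 / K ^ 2 + n ^ 2 * D ^ 2 * (K ^ 37 * N) := by
    field_simp
  rw [h2] at h1
  have h3 : n ^ 5 * D ^ 2 / K ^ 2 ≤ n ^ 5 * D ^ 2 / 2 := by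
    apply div_le_div_of_nonneg_left (by positivity) (by norm_num)
    nlinarith [h.hK]
  have h4 : n ^ 2 * D ^ 2 * (n ^ 3 / 2) ≤ n ^ 2 * D ^ 2 * (K ^ 37 * N) := by
    have : n ^ 2 * D ^ 2 * (n ^ 3 / 2) = n ^ 5 * D ^ 2 / 2 := by ring
    rw [this]; linarith
  have h5 : n ^ 3 / 2 ≤ K ^ 37 * N := le_of_mul_le_mul_left h4 (by positivity)
  rw [div_le_iff₀ (by positivity)]
  have h6 : 2 * (n ^ 3 / 2) ≤ K * (K ^ 37 * N) :=
    mul_le_mul (by linarith [h.hK]) h5 (by positivity) hK.le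
  calc n ^ 3 = 2 * (n ^ 3 / 2) := by ring
    _ ≤ K * (K ^ 37 * N) := h6
    _ = _ := by ring

end

end Pool.Agent.V7H80.Sum
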