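import Pool.Agent.V7H80.Sum.C4

/-!
The incidence theorem, second half.
-/

set_option maxHeartbeats 2000000

namespace Pool.Agent.V7H80.Sum

open Finset

section

variable {α ι : Type*} [Fintype α] [Fintype ι]
variable {m x : α → ℝ} {K n s : ℝ} {τ v : ι → ℝ}

lemma Conf.good_close_aux (h : Conf m x K n s τ v) {σ : ι → ℝ}
    (hσ : ∀ k, 1 / 2 ≤ σ k ∧ σ k ≤ 2)
    (hsep : ∀ z r, 0 ≤ r → ∑ u, ind (|σ u - z| ≤ r) ≤ 8 * K * (r * n + 1)) {y : ℝ}
    (hy : n * n ^ (-s) / K ^ 41 ≤ Psi m x σ y) : |y| ≤ K ^ (44 / (1 - s)) := by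
  have hn := h.n0
  have hK := h.K0
  have hD := h.D0
  have hs1 := h.hs1
  have h1s : 0 < 1 - s := by linarith
  have hK1 : 1 ≤ K := by linarith [h.hK]
  by_cases h1 : 1 ≤ |y|
  · have h2 := Psi_decay h.hm h.hm1 hK.le hD.le h.hn h.hs0 h.hs1 h.hx h.hF hσ hsep h1
    have hy0 : 0 < |y| := by linarith
    have hyp : 0 < |y| ^ (1 - s) := Real.rpow_pos_of_pos hy0 _
    have h3 : (n * n ^ (-s)) * |y| ^ (1 - s) ≤ (n * n ^ (-s)) * K ^ 44 := by
      have h4 : n * n ^ (-s) ≤ K ^ 41 * Psi m x σ y := by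
        rw [div_le_iff₀ (by positivity)] at hy
        linarith
      calc (n * n ^ (-s)) * |y| ^ (1 - s) ≤ (K ^ 41 * Psi m x σ y) * |y| ^ (1 - s) :=
            mul_le_mul_of_nonneg_right h4 hyp.le
        _ = K ^ 41 * (Psi m x σ y * |y| ^ (1 - s)) := by ring
        _ ≤ K ^ 41 * (479392 * K ^ 2 * (n * n ^ (-s))) :=
            mul_le_mul_of_nonneg_left h2 (by positivity)
        _ = 479392 * (K ^ 43 * (n * n ^ (-s))) := by ring
        _ ≤ K * (K ^ 43 * (n * n ^ (-s))) :=
            mul_le_mul_of_nonneg_right (by linarith [h.hK]) (by positivity)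
        _ = _ := by ring
    have h5 : |y| ^ (1 - s) ≤ K ^ 44 := le_of_mul_le_mul_left h3 (by positivity)
    have h6 : (|y| ^ (1 - s)) ^ (1 / (1 - s)) ≤ (K ^ 44) ^ (1 / (1 - s)) :=
      Real.rpow_le_rpow hyp.le h5 (by positivity)
    rw [← Real.rpow_mul hy0.le, mul_one_div_cancel h1s.ne', Real.rpow_one] at h6
    refine h6.trans (le_of_eq ?_)
    rw [← Real.rpow_natCast, ← Real.rpow_mul hK.le]
    congr 1
    push_cast
    ring
  · exact (not_le.mp h1).le.trans (Real.one_le_rpow hK1 (by positivity))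

lemma Conf.good_close (h : Conf m x K n s τ v) {p p' : ι × ι} (hg : Good m x K n s τ v p p') :
    |YY τ v p p'| ≤ K ^ (44 / (1 - s)) ∧ |YT τ v p p'| ≤ K ^ (44 / (1 - s)) := by
  have hpos : ∀ k, 0 < τ k := fun k => by linarith [(h.hτ k).1]
  have hn := h.n0
  have hK := h.K0
  constructor
  · refine h.good_close_aux h.hτ ?_ hg.1
    intro z r hr
    refine (h.hsep z r hr).trans ?_
    have := mul_nonneg hr hn.le
    refine mul_le_mul_of_nonneg_right ?_ (by linarith)
    linarith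
  · refine h.good_close_aux (σ := fun k => 1 / τ k) ?_ ?_ hg.2
    · intro k
      have h1 := h.hτ k
      have h2 := hpos k
      constructor
      · rw [div_le_div_iff₀ (by norm_num) h2]; linarith
      · rw [div_le_iff₀ h2]; linarith
    · intro z r hr
      exact sep_inv hK.le hn.le h.hτ h.hsep z r hr

/-- remove pairs with slope near one -/
lemma Conf.good_far_many (h : Conf m x K n s τ v) (hbig : K ^ 46 ≤ n) :
    n ^ 3 / K ^ 39 ≤ ∑ p : ι × ι, ∑ p' : ι × ι, ind (|rho τ p - rho τ p'| ≤ 1 / n) *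
        (ind (Good m x K n s τ v p p') * ind (1 / K ^ 45 ≤ |rho τ p - 1|)) := by
  have hn := h.n0
  have hK := h.K0
  have hgood := h.good_many
  set b : ℝ := 1 / K ^ 45 with hb
  have hb0 : 0 < b := by positivity
  have hK1 : 1 ≤ K := by linarith [h.hK]
  have hbn : 1 ≤ b * n := by
    rw [hb, div_mul_eq_mul_div, one_mul, le_div_iff₀ (by positivity), one_mul]
    exact le_trans (pow_le_pow_right₀ hK1 (by norm_num)) hbig
  -- near-one pairs
  have hnear : ∑ p : ι × ι, ∑ p' : ι × ι, ind (|rho τ p - rho τ p'| ≤ 1 / n) *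
      ind (|rho τ p - 1| < b) ≤ 36 * K ^ 4 * b * n ^ 3 := by
    have h1 : ∑ p : ι × ι, ind (|rho τ p - 1| < b) ≤ (2 * K * n) * (K * (3 * (b * n))) := by
      rw [Fintype.sum_prod_type, Finset.sum_comm]
      calc ∑ l, ∑ k, ind (|rho τ (k, l) - 1| < b) ≤ ∑ l : ι, K * (2 * b * n + 1) :=
            Finset.sum_le_sum fun l _ => count_near_one hb0.le h.hτ h.hsep l
        _ = (Fintype.card ι : ℝ) * (K * (2 * b * n + 1)) := by simp
        _ ≤ (2 * K * n) * (K * (3 * (b * n))) := by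
            refine mul_le_mul h.card_upper ?_ (by positivity) (by positivity)
            exact mul_le_mul_of_nonneg_left (by linarith) hK.le
    calc ∑ p : ι × ι, ∑ p' : ι × ι, ind (|rho τ p - rho τ p'| ≤ 1 / n) * ind (|rho τ p - 1| < b)
        = ∑ p : ι × ι, (∑ p' : ι × ι, ind (|rho τ p' - rho τ p| ≤ 1 / n)) *
            ind (|rho τ p - 1| < b) := by
          refine Finset.sum_congr rfl fun p _ => ?_
          rw [Finset.sum_mul]
          refine Finset.sum_congr rfl fun p' _ => ?_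
          rw [abs_sub_comm]
      _ ≤ ∑ p : ι × ι, (6 * K ^ 2 * n) * ind (|rho τ p - 1| < b) :=
          Finset.sum_le_sum fun p _ => mul_le_mul_of_nonneg_right (h.G_sum_left _) (ind_nonneg _)
      _ = (6 * K ^ 2 * n) * ∑ p : ι × ι, ind (|rho τ p - 1| < b) := by rw [Finset.mul_sum]
      _ ≤ (6 * K ^ 2 * n) * ((2 * K * n) * (K * (3 * (b * n)))) :=
          mul_le_mul_of_nonneg_left h1 (by positivity)
      _ = _ := by ring
  set N : ℝ := ∑ p : ι × ι, ∑ p' : ι × ι, ind (|rho τ p - rho τ p'| ≤ 1 / n) *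
        (ind (Good m x K n s τ v p p') * ind (b ≤ |rho τ p - 1|)) with hN
  have hsplit : ∑ p : ι × ι, ∑ p' : ι × ι, ind (|rho τ p - rho τ p'| ≤ 1 / n) *
        ind (Good m x K n s τ v p p') ≤ N + ∑ p : ι × ι, ∑ p' : ι × ι,
        ind (|rho τ p - rho τ p'| ≤ 1 / n) * ind (|rho τ p - 1| < b) := by
    rw [hN, ← Finset.sum_add_distrib]
    refine Finset.sum_le_sum fun p _ => ?_
    rw [← Finset.sum_add_distrib]
    refine Finset.sum_le_sum fun p' _ => ?_
    rw [← mul_add]
    refine mul_le_mul_of_nonneg_left ?_ (ind_nonneg _)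
    by_cases hc : b ≤ |rho τ p - 1|
    · rw [ind_true hc, mul_one]
      linarith [ind_nonneg (|rho τ p - 1| < b)]
    · rw [ind_false hc, mul_zero, ind_true (not_le.mp hc), zero_add]
      exact ind_le_one _
  have h1 : n ^ 3 / K ^ 38 ≤ N + 36 * K ^ 4 * b * n ^ 3 := hgood.trans (hsplit.trans (by linarith))
  have h2 : 36 * K ^ 4 * b * n ^ 3 ≤ (n ^ 3 / K ^ 38) / 2 := by
    rw [hb]
    have e : 36 * K ^ 4 * (1 / K ^ 45) * n ^ 3 = (n ^ 3 / K ^ 38) * (36 / K ^ 3) := by
      field_simp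
    rw [e, div_eq_mul_inv (n ^ 3 / K ^ 38) 2]
    refine mul_le_mul_of_nonneg_left ?_ (by positivity)
    rw [div_le_iff₀ (by positivity)]
    have : (72 : ℝ) ≤ K ^ 3 := by
      calc (72 : ℝ) ≤ K := by linarith [h.hK]
        _ = K ^ 1 := (pow_one K).symm
        _ ≤ K ^ 3 := pow_le_pow_right₀ hK1 (by norm_num)
    linarith
  have h3 : n ^ 3 / K ^ 39 ≤ (n ^ 3 / K ^ 38) / 2 := by
    have e : n ^ 3 / K ^ 39 = (n ^ 3 / K ^ 38) / K := by field_simp
    rw [e]
    exact div_le_div_of_nonneg_left (by positivity) (by norm_num) (by linarith [h.hK])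
  linarith

/-- pigeonhole for the pair `p'` -/
lemma Conf.exists_p' (h : Conf m x K n s τ v) (hbig : K ^ 46 ≤ n) :
    ∃ p' : ι × ι, n / K ^ 42 ≤ ∑ p : ι × ι, ind (|rho τ p - rho τ p'| ≤ 1 / n) *
        (ind (Good m x K n s τ v p p') * ind (1 / K ^ 45 ≤ |rho τ p - 1|)) := by
  by_contra hcon
  push Not at hcon
  have hn := h.n0
  have hK := h.K0
  have h1 := h.good_far_many hbig
  rw [Finset.sum_comm] at h1
  have hne : Nonempty ι := Fintype.card_pos_iff.mp h.card_pos
  have h2 : ∑ p' : ι × ι, ∑ p : ι × ι, ind (|rho τ p - rho τ p'| ≤ 1 / n) *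
        (ind (Good m x K n s τ v p p') * ind (1 / K ^ 45 ≤ |rho τ p - 1|)) <
        ∑ p' : ι × ι, n / K ^ 42 :=
    Finset.sum_lt_sum_of_nonempty Finset.univ_nonempty fun p' _ => hcon p'
  have h3 : ∑ p' : ι × ι, n / K ^ 42 ≤ (4 * K ^ 2 * n ^ 2) * (n / K ^ 42) := by
    rw [Finset.sum_const, nsmul_eq_mul, Finset.card_univ]
    exact mul_le_mul_of_nonneg_right h.card_sq (by positivity)
  have h4 : (4 * K ^ 2 * n ^ 2) * (n / K ^ 42) ≤ n ^ 3 / K ^ 39 := by
    rw [← mul_div_assoc, div_le_div_iff₀ (by positivity) (by positivity)]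
    have : 4 * (K ^ 41 * n ^ 3) ≤ K * (K ^ 41 * n ^ 3) :=
      mul_le_mul_of_nonneg_right (by linarith [h.hK]) (by positivity)
    calc 4 * K ^ 2 * n ^ 2 * n * K ^ 39 = 4 * (K ^ 41 * n ^ 3) := by ring
      _ ≤ K * (K ^ 41 * n ^ 3) := this
      _ = _ := by ring
  linarith

/-- many `l` for which `v l` is nearly an affine function of `τ l` -/
lemma Conf.exists_affine (h : Conf m x K n s τ v) (hbig : K ^ 46 ≤ n) :
    ∃ c d : ℝ, n / K ^ 44 ≤ ∑ l, ind (|v l - (c - d * τ l)| ≤ K ^ 46 * K ^ (44 / (1 - s))) := by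
  obtain ⟨p', hp'⟩ := h.exists_p' hbig
  have hn := h.n0
  have hK := h.K0
  have hK1 : 1 ≤ K := by linarith [h.hK]
  have hs1 := h.hs1
  have h1s : 0 < 1 - s := by linarith
  set Λ : ℝ := K ^ (44 / (1 - s)) with hΛ
  have hΛ1 : 1 ≤ Λ := Real.one_le_rpow hK1 (by positivity)
  refine ⟨-wt τ v p' / (rho τ p' - 1), -ww τ v p' / (rho τ p' - 1), ?_⟩
  -- key implication
  have hkey : ∀ k l : ι, |rho τ (k, l) - rho τ p'| ≤ 1 / n → Good m x K n s τ v (k, l) p' →
      1 / K ^ 45 ≤ |rho τ (k, l) - 1| →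
      |v l - (-wt τ v p' / (rho τ p' - 1) - -ww τ v p' / (rho τ p' - 1) * τ l)| ≤ K ^ 46 * Λ := by
    intro k l h1 h2 h3
    obtain ⟨h4, h5⟩ := h.good_close h2
    have hρ' := h.rho_bounds p'
    have hρ'0 : 0 < rho τ p' := by linarith
    have hl : 0 < τ l := by linarith [(h.hτ l).1]
    have h6 : |ww τ v (k, l) - ww τ v p'| ≤ 4 * Λ := by
      unfold YY at h4
      rw [abs_div, abs_of_pos hρ'0, div_le_iff₀ hρ'0] at h4
      refine h4.trans ?_
      rw [mul_comm]
      exact mul_le_mul_of_nonneg_right hρ'.2 (by linarith)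
    have h7 : |wt τ v (k, l) - wt τ v p'| ≤ 4 * Λ := by
      unfold YT at h5
      rw [abs_div, abs_of_pos hρ'0, div_le_iff₀ hρ'0] at h5
      refine h5.trans ?_
      rw [mul_comm]
      exact mul_le_mul_of_nonneg_right hρ'.2 (by linarith)
    -- bound on `v l`
    have h8 : |v l| ≤ 3 * n := by
      by_contra hcon
      have hz : ∑ i, ∑ j, m i * m j * ind (|τ l * x i + v l - x j| ≤ 1) = 0 := by
        refine Finset.sum_eq_zero fun i _ => Finset.sum_eq_zero fun j _ => ?_
        rw [ind_false, mul_zero]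
        intro h9
        apply hcon
        have e : v l = (τ l * x i + v l - x j) + (x j - τ l * x i) := by ring
        rw [e]
        have h10 : |x j - τ l * x i| ≤ 2 * n := by
          have h11 : 0 ≤ τ l * x i := mul_nonneg hl.le (h.hx i).1
          have h12 : τ l * x i ≤ 2 * n := mul_le_mul (h.hτ l).2 (h.hx i).2 (h.hx i).1 (by norm_num)
          rw [abs_le]; constructor <;> linarith [(h.hx j).1, (h.hx j).2]
        have := abs_add_le (τ l * x i + v l - x j) (x j - τ l * x i)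
        have := h.hn
        linarith
      have := h.hS l
      rw [hz] at this
      have hpos : 0 < n ^ (-s) / K := div_pos h.D0 hK
      linarith
    have h9 : |(rho τ p' - rho τ (k, l)) * v l| ≤ 3 := by
      rw [abs_mul, abs_sub_comm]
      calc |rho τ (k, l) - rho τ p'| * |v l| ≤ (1 / n) * (3 * n) :=
            mul_le_mul h1 h8 (abs_nonneg _) (by positivity)
        _ = 3 := by field_simp
    have h10 : 1 / K ^ 45 - 1 / n ≤ |rho τ p' - 1| := by
      have e : rho τ (k, l) - 1 = (rho τ p' - 1) + (rho τ (k, l) - rho τ p') := by ring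
      have := abs_add_le (rho τ p' - 1) (rho τ (k, l) - rho τ p')
      rw [← e] at this
      linarith
    have h11 : 1 / n ≤ 1 / K ^ 45 / 2 := by
      rw [div_div]
      apply one_div_le_one_div_of_le (by positivity)
      have : K ^ 45 * 2 ≤ K ^ 45 * K := mul_le_mul_of_nonneg_left (by linarith [h.hK]) (by positivity)
      calc K ^ 45 * 2 ≤ K ^ 45 * K := this
        _ = K ^ 46 := by ring
        _ ≤ n := hbig
    have h12 : 1 / K ^ 45 / 2 ≤ |rho τ p' - 1| := by linarith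
    have h13 : 0 < |rho τ p' - 1| := lt_of_lt_of_le (by positivity) h12
    have hne : rho τ p' - 1 ≠ 0 := abs_pos.mp h13
    have e : v l - (-wt τ v p' / (rho τ p' - 1) - -ww τ v p' / (rho τ p' - 1) * τ l) =
        (τ l * (ww τ v (k, l) - ww τ v p') - (wt τ v (k, l) - wt τ v p') +
          (rho τ p' - rho τ (k, l)) * v l) / (rho τ p' - 1) := by
      have e2 : τ l * ww τ v (k, l) - wt τ v (k, l) = (rho τ (k, l) - 1) * v l := by
        unfold ww wt
        have : τ l * ((v k - v l) / τ l) = v k - v l := by field_simp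
        simp only
        rw [this]
        ring
      rw [eq_div_iff hne]
      have e3 : (v l - (-wt τ v p' / (rho τ p' - 1) - -ww τ v p' / (rho τ p' - 1) * τ l)) *
          (rho τ p' - 1) = v l * (rho τ p' - 1) + wt τ v p' - ww τ v p' * τ l := by
        field_simp
        ring
      rw [e3]
      linear_combination (-1 : ℝ) * e2
    rw [e, abs_div, div_le_iff₀ h13]
    have h14 : |τ l * (ww τ v (k, l) - ww τ v p') - (wt τ v (k, l) - wt τ v p') +
          (rho τ p' - rho τ (k, l)) * v l| ≤ 15 * Λ := by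
      have h15 : |τ l * (ww τ v (k, l) - ww τ v p')| ≤ 8 * Λ := by
        rw [abs_mul, abs_of_pos hl]
        calc τ l * |ww τ v (k, l) - ww τ v p'| ≤ 2 * (4 * Λ) :=
              mul_le_mul (h.hτ l).2 h6 (abs_nonneg _) (by norm_num)
          _ = _ := by ring
      have h16 := abs_add_le (τ l * (ww τ v (k, l) - ww τ v p') - (wt τ v (k, l) - wt τ v p'))
          ((rho τ p' - rho τ (k, l)) * v l)
      have h17 := abs_sub (τ l * (ww τ v (k, l) - ww τ v p')) (wt τ v (k, l) - wt τ v p')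
      linarith
    refine h14.trans ?_
    have h18 : K ^ 46 * Λ * (1 / K ^ 45 / 2) ≤ K ^ 46 * Λ * |rho τ p' - 1| :=
      mul_le_mul_of_nonneg_left h12 (by positivity)
    refine le_trans ?_ h18
    have e4 : K ^ 46 * Λ * (1 / K ^ 45 / 2) = K / 2 * Λ := by field_simp
    rw [e4]
    exact mul_le_mul_of_nonneg_right (by linarith [h.hK]) (by linarith)
  -- counting
  have hcount : ∑ p : ι × ι, ind (|rho τ p - rho τ p'| ≤ 1 / n) *
        (ind (Good m x K n s τ v p p') * ind (1 / K ^ 45 ≤ |rho τ p - 1|)) ≤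
      ∑ l, ind (|v l - (-wt τ v p' / (rho τ p' - 1) - -ww τ v p' / (rho τ p' - 1) * τ l)| ≤
        K ^ 46 * Λ) * (3 * K) := by
    rw [Fintype.sum_prod_type, Finset.sum_comm]
    refine Finset.sum_le_sum fun l _ => ?_
    calc ∑ k, ind (|rho τ (k, l) - rho τ p'| ≤ 1 / n) *
        (ind (Good m x K n s τ v (k, l) p') * ind (1 / K ^ 45 ≤ |rho τ (k, l) - 1|))
        ≤ ∑ k, ind (|v l - (-wt τ v p' / (rho τ p' - 1) - -ww τ v p' / (rho τ p' - 1) * τ l)| ≤
        K ^ 46 * Λ) * ind (|rho τ (k, l) - rho τ p'| ≤ 1 / n) := by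
          refine Finset.sum_le_sum fun k _ => ?_
          rw [ind_mul_ind, ind_mul_ind, ind_mul_ind]
          apply ind_mono
          rintro ⟨h1, h2, h3⟩
          exact ⟨hkey k l h1 h2 h3, h1⟩
      _ = ind (|v l - (-wt τ v p' / (rho τ p' - 1) - -ww τ v p' / (rho τ p' - 1) * τ l)| ≤
        K ^ 46 * Λ) * ∑ k, ind (|rho τ (k, l) - rho τ p'| ≤ 1 / n) := by rw [Finset.mul_sum]
      _ ≤ _ := mul_le_mul_of_nonneg_left (count_ratio hn h.hτ h.hsep l _) (ind_nonneg _)
  rw [← Finset.sum_mul] at hcount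
  have h20 := hp'.trans hcount
  have h22 : (n / K ^ 42) / (3 * K) ≤ ∑ l, ind (|v l - (-wt τ v p' / (rho τ p' - 1) -
      -ww τ v p' / (rho τ p' - 1) * τ l)| ≤ K ^ 46 * Λ) := by
    rw [div_le_iff₀ (by positivity)]; exact h20
  refine le_trans ?_ h22
  rw [div_div]
  apply div_le_div_of_nonneg_left hn.le (by positivity)
  calc K ^ 42 * (3 * K) = 3 * K ^ 43 := by ring
    _ ≤ K * K ^ 43 := mul_le_mul_of_nonneg_right (by linarith [h.hK]) (by positivity)
    _ = K ^ 44 := by ring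

end

end Pool.Agent.V7H80.Sum
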